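import Pool.Agent.MP_3225a3_pr.Lift

/-! # Choice of the parameters (MP_3225a3_pr) -/

namespace MixBurnside

open Finset

lemma one_sub_pow_le_exp {x : ℝ} (hx0 : 0 ≤ 1 - x) (n : ℕ) : (1 - x) ^ n ≤ Real.exp (-(x * n)) := by
  have h1 : 1 - x ≤ Real.exp (-x) := by
    have := Real.add_one_le_exp (-x); linarith
  calc (1 - x) ^ n ≤ Real.exp (-x) ^ n := pow_le_pow_left₀ hx0 h1 n
    _ = Real.exp (-(x * n)) := by rw [← Real.exp_nat_mul]; congr 1; ring

/-- threshold -/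
def cstar : ℕ := 29 * 131072

lemma cstar_cast {c : ℕ} (hc : cstar ≤ c) : (29 * 131072 : ℝ) ≤ c := by
  have h : (29 * 131072 : ℕ) ≤ c := hc
  exact_mod_cast h

lemma log_two_c_le {c : ℝ} (hc : 1 ≤ c) : Real.log (2 * c) ≤ 2 * c := by
  have := Real.add_one_le_exp (Real.log (2 * c))
  rw [Real.exp_log (by linarith)] at this
  linarith

lemma log_le_self' {c : ℝ} (hc : 1 ≤ c) : Real.log c ≤ c := by
  have := Real.log_le_sub_one_of_pos (show 0 < c by linarith)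
  linarith

/-- numeric part of the high-rank estimate -/
lemma eta_bound (c : ℕ) (hc : cstar ≤ c) (m : ℕ) (hm : 0 < m) (h1 : c ^ 16 ≤ m + 1)
    (h2 : m + 1 ≤ (2 * c) ^ 16) :
    (1 - ((c ^ 8 : ℕ) : ℝ) / (2 * m)) ^ (c ^ 12) + (2 * (m : ℝ) + 1) ^ (c ^ 8) *
        ((1 - ((c ^ 14 : ℕ) : ℝ) / (2 * m)) ^ (c ^ 12) + (1 / 2 : ℝ) ^ (2 * c ^ 14 - c ^ 14)) ≤
      (1 / (c : ℝ)) ^ 2 := by
  have hcs : (29 * 131072 : ℝ) ≤ c := cstar_cast hc
  have hc1 : (1 : ℝ) ≤ c := by linarith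
  have hc0 : (0 : ℝ) < c := by linarith
  have hm0 : (0 : ℝ) < m := by exact_mod_cast hm
  have h1' : (c : ℝ) ^ 16 ≤ m + 1 := by exact_mod_cast h1
  have h2' : (m : ℝ) + 1 ≤ 65536 * c ^ 16 := by
    have : ((m + 1 : ℕ) : ℝ) ≤ ((2 * c) ^ 16 : ℕ) := by exact_mod_cast h2
    push_cast at this
    calc (m : ℝ) + 1 ≤ (2 * c) ^ 16 := this
      _ = 65536 * c ^ 16 := by rw [mul_pow]; norm_num
  have h2m : 2 * (m : ℝ) ≤ 131072 * c ^ 16 := by linarith
  have h2m1 : 2 * (m : ℝ) + 1 ≤ 131072 * c ^ 16 := by linarith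
  have pw : ∀ {i j : ℕ}, i ≤ j → (c : ℝ) ^ i ≤ c ^ j := fun h => pow_le_pow_right₀ hc1 h
  have hmlow : (c : ℝ) ^ 15 ≤ m := by
    have e1 : (c : ℝ) ^ 16 = c * c ^ 15 := by ring
    have e2 : (1 : ℝ) ≤ c ^ 15 := one_le_pow₀ hc1
    nlinarith
  -- T1
  have T1 : (1 - ((c ^ 8 : ℕ) : ℝ) / (2 * m)) ^ (c ^ 12) ≤ Real.exp (-c) := by
    have hx : 0 ≤ 1 - ((c ^ 8 : ℕ) : ℝ) / (2 * m) := by
      rw [sub_nonneg, div_le_one (by positivity)]
      push_cast
      have := pw (show 8 ≤ 15 by norm_num)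
      linarith
    refine (one_sub_pow_le_exp hx _).trans (Real.exp_le_exp.mpr ?_)
    rw [neg_le_neg_iff]
    push_cast
    rw [div_mul_eq_mul_div, le_div_iff₀ (by positivity)]
    have e1 : (c : ℝ) * (2 * m) ≤ c * (131072 * c ^ 16) := by gcongr
    have e2 : (c : ℝ) * (131072 * c ^ 16) ≤ c ^ 8 * c ^ 12 := by
      have : (c : ℝ) ^ 8 * c ^ 12 = c * (c * c ^ 2 * c ^ 16) := by ring
      rw [this]
      have h3 : (1 : ℝ) ≤ c ^ 2 := one_le_pow₀ hc1
      gcongr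
      nlinarith
    linarith
  -- log bound
  have hlog : Real.log (2 * m + 1) ≤ 28 * c := by
    have e1 : Real.log (2 * m + 1) ≤ Real.log (131072 * c ^ 16) :=
      Real.log_le_log (by positivity) h2m1
    have e2 : Real.log (131072 * (c : ℝ) ^ 16) = 17 * Real.log 2 + 16 * Real.log c := by
      rw [Real.log_mul (by norm_num) (by positivity), Real.log_pow]
      have : (131072 : ℝ) = 2 ^ 17 := by norm_num
      rw [this, Real.log_pow]
      push_cast; ring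
    have e3 := Real.log_two_lt_d9
    have e4 := log_le_self' hc1
    rw [e2] at e1
    linarith
  have hpow : (2 * (m : ℝ) + 1) ^ (c ^ 8) ≤ Real.exp (28 * c ^ 9) := by
    rw [← Real.exp_log (show (0 : ℝ) < 2 * m + 1 by positivity), ← Real.exp_nat_mul]
    apply Real.exp_le_exp.mpr
    push_cast
    have e1 : (c : ℝ) ^ 8 * Real.log (2 * m + 1) ≤ (c : ℝ) ^ 8 * (28 * (c : ℝ)) := by gcongr
    have e2 : (c : ℝ) ^ 8 * (28 * (c : ℝ)) = 28 * (c : ℝ) ^ 9 := by ring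
    linarith
  -- T2
  have T2 : (1 - ((c ^ 14 : ℕ) : ℝ) / (2 * m)) ^ (c ^ 12) ≤ Real.exp (-(28 * c ^ 9) - c) := by
    have hx : 0 ≤ 1 - ((c ^ 14 : ℕ) : ℝ) / (2 * m) := by
      rw [sub_nonneg, div_le_one (by positivity)]
      push_cast
      have := pw (show 14 ≤ 15 by norm_num)
      linarith
    refine (one_sub_pow_le_exp hx _).trans (Real.exp_le_exp.mpr ?_)
    rw [neg_le, neg_sub', sub_neg_eq_add, neg_neg]
    push_cast
    rw [div_mul_eq_mul_div, le_div_iff₀ (by positivity)]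
    have e1 : (28 * (c : ℝ) ^ 9 + c) * (2 * m) ≤ (29 * c ^ 9) * (131072 * c ^ 16) := by
      have := pw (show 1 ≤ 9 by norm_num)
      rw [pow_one] at this
      gcongr
      linarith
    have e2 : (29 * (c : ℝ) ^ 9) * (131072 * c ^ 16) = (29 * 131072) * c ^ 25 := by ring
    have e3 : (29 * 131072) * (c : ℝ) ^ 25 ≤ c * c ^ 25 := by gcongr
    have e4 : (c : ℝ) * c ^ 25 = c ^ 14 * c ^ 12 := by ring
    linarith
  -- T3
  have T3 : (1 / 2 : ℝ) ^ (2 * c ^ 14 - c ^ 14) ≤ Real.exp (-(28 * c ^ 9) - c) := by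
    have e0 : 2 * c ^ 14 - c ^ 14 = c ^ 14 := by omega
    rw [e0]
    have hh : (1 / 2 : ℝ) = Real.exp (-Real.log 2) := by
      rw [Real.exp_neg, Real.exp_log (by norm_num)]; norm_num
    rw [hh, ← Real.exp_nat_mul]
    apply Real.exp_le_exp.mpr
    push_cast
    have e3 := Real.log_two_gt_d9
    have e5 : (c : ℝ) ^ 14 * (1 / 2) ≤ c ^ 14 * Real.log 2 := by gcongr; linarith
    have e6 : 29 * (c : ℝ) ^ 9 ≤ c ^ 14 * (1 / 2) := by
      have : (c : ℝ) ^ 14 = c ^ 9 * (c ^ 4 * c) := by ring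
      have h4 : (1 : ℝ) ≤ c ^ 4 := one_le_pow₀ hc1
      have h5 : 58 ≤ (c : ℝ) ^ 4 * c := by nlinarith
      have h6 : (0 : ℝ) ≤ c ^ 9 := by positivity
      rw [this]
      nlinarith
    have := pw (show 1 ≤ 9 by norm_num)
    rw [pow_one] at this
    linarith
  have hexp : 3 * Real.exp (-c) ≤ (1 / (c : ℝ)) ^ 2 := by
    have e1 := Real.pow_div_factorial_le_exp (c : ℝ) hc0.le 3
    have e2 : ((Nat.factorial 3 : ℕ) : ℝ) = 6 := by norm_num [Nat.factorial]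
    rw [e2] at e1
    rw [Real.exp_neg, one_div, inv_pow, mul_inv_le_iff₀ (Real.exp_pos _)]
    rw [inv_mul_eq_div, le_div_iff₀ (by positivity)]
    have e3 : (c : ℝ) ^ 3 / 6 = c ^ 2 * (c / 6) := by ring
    have e4 : 3 * (c : ℝ) ^ 2 ≤ c ^ 2 * (c / 6) := by
      have : (3 : ℝ) ≤ c / 6 := by linarith
      nlinarith [sq_nonneg (c : ℝ)]
    linarith
  refine le_trans ?_ hexp
  have hE : Real.exp (28 * c ^ 9) * (Real.exp (-(28 * c ^ 9) - c) + Real.exp (-(28 * c ^ 9) - c)) =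
      2 * Real.exp (-c) := by
    rw [← two_mul, mul_left_comm, ← Real.exp_add]
    congr 2; ring
  have hx : 0 ≤ 1 - ((c ^ 14 : ℕ) : ℝ) / (2 * m) := by
    rw [sub_nonneg, div_le_one (by positivity)]
    push_cast
    have := pw (show 14 ≤ 15 by norm_num)
    linarith
  have hprod : (2 * (m : ℝ) + 1) ^ (c ^ 8) *
        ((1 - ((c ^ 14 : ℕ) : ℝ) / (2 * m)) ^ (c ^ 12) + (1 / 2 : ℝ) ^ (2 * c ^ 14 - c ^ 14)) ≤
      Real.exp (28 * c ^ 9) * (Real.exp (-(28 * c ^ 9) - c) + Real.exp (-(28 * c ^ 9) - c)) := by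
    gcongr
  rw [hE] at hprod
  linarith

open Classical in
/-- the bound on the second moment, as a function of the matrix part -/
noncomputable def lamf (m c : ℕ) (Bm : Fin m → Fin m → ZMod 3) : ℝ :=
  if Rich Bm (2 * c ^ 14) then 2 / c else 99 / 100

lemma lam_spec (c : ℕ) (hc : cstar ≤ c) (m : ℕ) (hm : 0 < m) (h1 : c ^ 16 ≤ m + 1)
    (h2 : m + 1 ≤ (2 * c) ^ 16) (χ : Idx (Fin m) → ZMod 3) (hχ : χ ≠ 0) :
    wav (4 * m) (fun u => nu (4 * m) χ u ^ 2) ≤ lamf m c (qpart χ) := by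
  have : Nonempty (Fin m) := ⟨⟨0, hm⟩⟩
  unfold lamf
  split_ifs with hR
  · have hcs : (29 * 131072 : ℝ) ≤ c := cstar_cast hc
    have hc1 : (1 : ℝ) ≤ c := by linarith
    have hc0 : (0 : ℝ) < c := by linarith
    have hcN : 1 ≤ c := by exact_mod_cast hc1
    have hs : c ^ 8 ≤ m := by
      have e1 : c ^ 16 = c ^ 8 * c ^ 8 := by ring
      have e2 : 2 ≤ c ^ 8 := by
        have : cstar ≤ c ^ 8 := hc.trans (Nat.le_self_pow (by norm_num) c)
        unfold cstar at this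
        omega
      nlinarith
    have hη : ∀ y₀ : Fin m → ZMod 3, wav (c ^ 12) (fun l : List (Fin m × Bool) =>
        ‖mm (yB (qpart χ) l - y₀)‖ ^ (c ^ 12)) ≤ (1 / (c : ℝ)) ^ 2 := by
      intro y₀
      have h3 := rich_mult (qpart χ) (2 * c ^ 14) (c ^ 14) hR (by omega) (c ^ 12) (c ^ 12) (c ^ 8)
        (by rw [Fintype.card_fin]; exact hs) y₀
      rw [Fintype.card_fin] at h3
      exact h3.trans (eta_bound c hc m hm h1 h2)
    have h4 := one_block_high (qpart χ) (c ^ 12) (1 / c) (by positivity) hη χ rfl (4 * m)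
    refine h4.trans ?_
    have h5 : 4 * ((c ^ 12 : ℕ) : ℝ) / (((4 * m : ℕ) : ℝ) + 1) ≤ 1 / c := by
      rw [div_le_div_iff₀ (by positivity) hc0]
      push_cast
      have h1' : (c : ℝ) ^ 16 ≤ m + 1 := by exact_mod_cast h1
      have e1 : (c : ℝ) ^ 16 = c ^ 13 * (c ^ 2 * c) := by ring
      have e2 : (1 : ℝ) ≤ c ^ 13 := one_le_pow₀ hc1
      have e3 : (1 : ℝ) ≤ c ^ 2 := one_le_pow₀ hc1
      have e4 : (4 : ℝ) ≤ c ^ 2 * c := by nlinarith
      have e5 : 4 * (c : ℝ) ^ 13 ≤ c ^ 16 := by rw [e1]; nlinarith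
      have e6 : 4 * (c : ℝ) ^ 12 * c = 4 * c ^ 13 := by ring
      linarith
    have h6 : (2 : ℝ) / c = 1 / c + 1 / c := by ring
    rw [h6]
    linarith
  · have := one_block_low χ hχ
    rwa [Fintype.card_fin] at this

lemma lamf_pos (m c : ℕ) (hc : 0 < c) (Bm : Fin m → Fin m → ZMod 3) : 0 < lamf m c Bm := by
  have : (0 : ℝ) < c := by exact_mod_cast hc
  unfold lamf; split_ifs
  · positivity
  · norm_num

lemma lamf_le (m c : ℕ) (hc : 2 ≤ c) (Bm : Fin m → Fin m → ZMod 3) : lamf m c Bm ≤ 1 := by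
  have : (2 : ℝ) ≤ c := by exact_mod_cast hc
  unfold lamf; split_ifs
  · rw [div_le_one (by linarith)]; exact this
  · norm_num

lemma sum_lamf_le (m c n₀ : ℕ) :
    ∑ χ : Idx (Fin m) → ZMod 3 with χ ≠ 0, (lamf m c (qpart χ)) ^ n₀ ≤
      3 ^ (1 + m + m * m) * (2 / (c : ℝ)) ^ n₀ +
        3 ^ (1 + m + 2 * (2 * c ^ 14) * m) * (99 / 100 : ℝ) ^ n₀ := by
  classical
  have h1 : ∀ χ : Idx (Fin m) → ZMod 3, (lamf m c (qpart χ)) ^ n₀ ≤
      (2 / (c : ℝ)) ^ n₀ + (if ¬ Rich (qpart χ) (2 * c ^ 14) then (99 / 100 : ℝ) ^ n₀ else 0) := by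
    intro χ
    unfold lamf
    by_cases h : Rich (qpart χ) (2 * c ^ 14)
    · rw [if_pos h, if_neg (not_not.mpr h), add_zero]
    · rw [if_neg h, if_pos h]
      have : (0 : ℝ) ≤ (2 / (c : ℝ)) ^ n₀ := by positivity
      linarith
  calc ∑ χ : Idx (Fin m) → ZMod 3 with χ ≠ 0, (lamf m c (qpart χ)) ^ n₀
      ≤ ∑ χ : Idx (Fin m) → ZMod 3 with χ ≠ 0, ((2 / (c : ℝ)) ^ n₀ +
        (if ¬ Rich (qpart χ) (2 * c ^ 14) then (99 / 100 : ℝ) ^ n₀ else 0)) :=
        Finset.sum_le_sum fun χ _ => h1 χ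
    _ ≤ ∑ χ : Idx (Fin m) → ZMod 3, ((2 / (c : ℝ)) ^ n₀ +
        (if ¬ Rich (qpart χ) (2 * c ^ 14) then (99 / 100 : ℝ) ^ n₀ else 0)) := by
        apply Finset.sum_le_sum_of_subset_of_nonneg (Finset.filter_subset _ _)
        intro χ _ _
        have : (0 : ℝ) ≤ (2 / (c : ℝ)) ^ n₀ := by positivity
        have : (0 : ℝ) ≤ (99 / 100 : ℝ) ^ n₀ := by positivity
        split_ifs <;> linarith
    _ ≤ _ := by
        rw [Finset.sum_add_distrib, Finset.sum_const, Finset.card_univ, card_chi,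
          ← Finset.sum_filter, Finset.sum_const, nsmul_eq_mul, nsmul_eq_mul, Fintype.card_fin]
        have h2 := card_not_rich (κ := Fin m) (2 * c ^ 14)
        rw [Fintype.card_fin] at h2
        have h3 : ((#{χ : Idx (Fin m) → ZMod 3 | ¬ Rich (qpart χ) (2 * c ^ 14)} : ℕ) : ℝ) ≤
            3 ^ (1 + m + 2 * (2 * c ^ 14) * m) := by exact_mod_cast h2
        push_cast
        gcongr

lemma pg_lower (m : ℕ) (hm : 0 < m) : Real.exp (-4) ≤ pg m (4 * m) := by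
  have hm0 : (0 : ℝ) < m := by exact_mod_cast hm
  have h1 : pg m (4 * m) = ((4 * m + 1) / (m + 1)) * ((m : ℝ) / (m + 1)) ^ (4 * m) := by
    unfold pg
    push_cast
    rw [div_pow, mul_pow, mul_pow, pow_succ, pow_succ]
    have : (2 : ℝ) ^ (4 * m) ≠ 0 := pow_ne_zero _ (by norm_num)
    field_simp
  rw [h1]
  have h2 : (1 : ℝ) ≤ (4 * m + 1) / (m + 1) := by
    rw [one_le_div (by positivity)]
    linarith
  have h3 : Real.exp (-1) ≤ ((m : ℝ) / (m + 1)) ^ m := by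
    have e1 : (1 + 1 / (m : ℝ)) ^ m ≤ Real.exp 1 := by
      have := Real.add_one_le_exp (1 / (m : ℝ))
      calc (1 + 1 / (m : ℝ)) ^ m ≤ (Real.exp (1 / (m : ℝ))) ^ m := by
            apply pow_le_pow_left₀ (by positivity); linarith
        _ = Real.exp 1 := by rw [← Real.exp_nat_mul]; congr 1; field_simp
    have e2 : (m : ℝ) / (m + 1) = (1 + 1 / (m : ℝ))⁻¹ := by
      field_simp
    rw [e2, inv_pow, Real.exp_neg]
    exact inv_anti₀ (by positivity) e1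
  have h4 : Real.exp (-4) ≤ ((m : ℝ) / (m + 1)) ^ (4 * m) := by
    have e1 : Real.exp (-4) = Real.exp (-1) ^ 4 := by
      rw [← Real.exp_nat_mul]; norm_num
    rw [e1, mul_comm 4 m, pow_mul]
    exact pow_le_pow_left₀ (Real.exp_pos _).le h3 4
  have h5 : 0 < Real.exp (-4) := Real.exp_pos _
  nlinarith

lemma exp_neg_four : (1 / 81 : ℝ) ≤ Real.exp (-4) := by
  have e1 : Real.exp (-4) = Real.exp (-1) ^ 4 := by
    rw [← Real.exp_nat_mul]; norm_num
  have e2 : (1 / 3 : ℝ) ≤ Real.exp (-1) := by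
    have := Real.exp_neg_one_gt_d9
    linarith
  rw [e1]
  calc (1 / 81 : ℝ) = (1 / 3) ^ 4 := by norm_num
    _ ≤ _ := pow_le_pow_left₀ (by norm_num) e2 4

lemma pg_le_one (m : ℕ) (hm : 0 < m) : pg m (4 * m) ≤ 1 := by
  have : Nonempty (Fin m) := ⟨⟨0, hm⟩⟩
  have h := pg_eq (κ := Fin m) (4 * m)
  rw [Fintype.card_fin] at h
  rw [← h]
  exact wav_le fun l _ => by split_ifs <;> norm_num

/-- the main numerical estimate -/
lemma numeric (c : ℕ) (hc : cstar ≤ c) (m : ℕ) (hm : 0 < m) (h1 : c ^ 16 ≤ m + 1)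
    (h2 : m + 1 ≤ (2 * c) ^ 16) (n₀ : ℕ)
    (hn : 80 * ((m : ℝ) + 1) ^ 2 / Real.log (m + 1) ≤ n₀) :
    2 * 2 ^ n₀ * (1 - pg m (4 * m) / 2) ^ (1000 * n₀) +
      √(∑ χ : Idx (Fin m) → ZMod 3 with χ ≠ 0, (lamf m c (qpart χ)) ^ n₀) ≤
      4 * Real.exp (-(((m : ℝ) + 1) / 2)) := by
  have hcs : (29 * 131072 : ℝ) ≤ c := cstar_cast hc
  have hc1 : (1 : ℝ) ≤ c := by linarith
  have hc0 : (0 : ℝ) < c := by linarith
  have hm0 : (0 : ℝ) < m := by exact_mod_cast hm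
  have h1' : (c : ℝ) ^ 16 ≤ m + 1 := by exact_mod_cast h1
  have h2' : (m : ℝ) + 1 ≤ (2 * c) ^ 16 := by exact_mod_cast h2
  set d : ℝ := (m : ℝ) + 1 with hd
  have hd1 : c ≤ d := by
    have : (c : ℝ) ^ 1 ≤ c ^ 16 := pow_le_pow_right₀ hc1 (by norm_num)
    rw [pow_one] at this
    linarith
  have hd0 : 0 < d := by linarith
  have hlogd : 0 < Real.log d := Real.log_pos (by linarith)
  have hlog1 : Real.log d ≤ 16 * Real.log (2 * c) := by
    have := Real.log_le_log hd0 h2'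
    rwa [Real.log_pow, Nat.cast_ofNat] at this
  have hlog2 : Real.log d ≤ 32 * c := by
    have := log_two_c_le hc1
    linarith
  have hnd : 80 * d ^ 2 ≤ n₀ * Real.log d := by
    rwa [div_le_iff₀ hlogd] at hn
  have hlogdd : Real.log d ≤ d := log_le_self' (by linarith)
  have hn1 : d ≤ n₀ := by
    have hn0 : (0 : ℝ) ≤ n₀ := by positivity
    have : n₀ * Real.log d ≤ n₀ * d := by gcongr
    nlinarith
  -- first term
  have F1 : 2 * 2 ^ n₀ * (1 - pg m (4 * m) / 2) ^ (1000 * n₀) ≤ 2 * Real.exp (-(d / 2)) := by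
    have hp1 := pg_lower m hm
    have hp2 := exp_neg_four
    have hp3 := pg_le_one m hm
    have e1 : (1 - pg m (4 * m) / 2) ^ (1000 * n₀) ≤
        Real.exp (-(pg m (4 * m) / 2 * (1000 * n₀ : ℕ))) :=
      one_sub_pow_le_exp (by linarith) _
    have e2 : (2 : ℝ) ^ n₀ ≤ Real.exp n₀ := by
      have h2e : (2 : ℝ) ≤ Real.exp 1 := by have := Real.add_one_le_exp (1 : ℝ); linarith
      calc (2 : ℝ) ^ n₀ ≤ Real.exp 1 ^ n₀ := pow_le_pow_left₀ (by norm_num) h2e _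
        _ = Real.exp n₀ := by rw [← Real.exp_nat_mul, mul_one]
    have e3 : (2 : ℝ) ^ n₀ * (1 - pg m (4 * m) / 2) ^ (1000 * n₀) ≤ Real.exp (-(d / 2)) := by
      calc (2 : ℝ) ^ n₀ * (1 - pg m (4 * m) / 2) ^ (1000 * n₀)
          ≤ Real.exp n₀ * Real.exp (-(pg m (4 * m) / 2 * (1000 * n₀ : ℕ))) :=
            mul_le_mul e2 e1 (pow_nonneg (by linarith) _) (Real.exp_pos _).le
        _ = Real.exp (n₀ + -(pg m (4 * m) / 2 * (1000 * n₀ : ℕ))) := (Real.exp_add _ _).symm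
        _ ≤ Real.exp (-(d / 2)) := by
            apply Real.exp_le_exp.mpr
            push_cast
            have : (0 : ℝ) ≤ n₀ := by positivity
            nlinarith
    linarith
  -- the sum
  have three : ∀ k : ℕ, (3 : ℝ) ^ k ≤ Real.exp (2 * k) := by
    intro k
    have h3e : (3 : ℝ) ≤ Real.exp 2 := by have := Real.add_one_le_exp (2 : ℝ); linarith
    calc (3 : ℝ) ^ k ≤ Real.exp 2 ^ k := pow_le_pow_left₀ (by norm_num) h3e _
      _ = Real.exp (2 * k) := by rw [← Real.exp_nat_mul]; congr 1; ring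
  have S1 : 3 ^ (1 + m + m * m) * (2 / (c : ℝ)) ^ n₀ ≤ Real.exp (-d) := by
    have e1 := three (1 + m + m * m)
    have e2 : (2 / (c : ℝ)) ^ n₀ ≤ Real.exp (-(5 / 2 * d ^ 2)) := by
      have e3 : (2 / (c : ℝ)) = Real.exp (-(Real.log (c / 2))) := by
        rw [Real.exp_neg, Real.exp_log (by positivity)]; field_simp
      rw [e3, ← Real.exp_nat_mul]
      apply Real.exp_le_exp.mpr
      have e4 : Real.log (2 * c) ≤ 2 * Real.log (c / 2) := by
        have : 2 * Real.log ((c : ℝ) / 2) = Real.log (((c : ℝ) / 2) ^ 2) := by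
          rw [Real.log_pow]; norm_num
        rw [this]
        apply Real.log_le_log (by positivity)
        nlinarith
      have e5 : Real.log d ≤ 32 * Real.log (c / 2) := by linarith
      have hn0 : (0 : ℝ) ≤ n₀ := by positivity
      have e6 : n₀ * Real.log d ≤ n₀ * (32 * Real.log (c / 2)) := by gcongr
      nlinarith
    calc 3 ^ (1 + m + m * m) * (2 / (c : ℝ)) ^ n₀
        ≤ Real.exp (2 * ((1 + m + m * m : ℕ) : ℝ)) * Real.exp (-(5 / 2 * d ^ 2)) := by gcongr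
      _ = Real.exp (2 * ((1 + m + m * m : ℕ) : ℝ) + -(5 / 2 * d ^ 2)) := (Real.exp_add _ _).symm
      _ ≤ Real.exp (-d) := by
          apply Real.exp_le_exp.mpr
          push_cast
          have : (1 + m + m * m : ℝ) ≤ d ^ 2 := by rw [hd]; nlinarith
          nlinarith
  have S2 : 3 ^ (1 + m + 2 * (2 * c ^ 14) * m) * (99 / 100 : ℝ) ^ n₀ ≤ Real.exp (-d) := by
    have e1 := three (1 + m + 2 * (2 * c ^ 14) * m)
    have e2 : (99 / 100 : ℝ) ^ n₀ ≤ Real.exp (-((1 / 100) * n₀)) := by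
      have := one_sub_pow_le_exp (x := 1 / 100) (by norm_num) n₀
      norm_num at this ⊢
      exact this
    calc 3 ^ (1 + m + 2 * (2 * c ^ 14) * m) * (99 / 100 : ℝ) ^ n₀
        ≤ Real.exp (2 * ((1 + m + 2 * (2 * c ^ 14) * m : ℕ) : ℝ)) *
          Real.exp (-((1 / 100) * n₀)) := by gcongr
      _ = Real.exp (2 * ((1 + m + 2 * (2 * c ^ 14) * m : ℕ) : ℝ) + -((1 / 100) * n₀)) :=
          (Real.exp_add _ _).symm
      _ ≤ Real.exp (-d) := by
          apply Real.exp_le_exp.mpr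
          push_cast
          -- n₀ ≥ 2.5 d c^15
          have hn0 : (0 : ℝ) ≤ n₀ := by positivity
          have e3 : 80 * d ^ 2 ≤ n₀ * (32 * c) := hnd.trans (by gcongr)
          have e4 : c ^ 16 * d ≤ d ^ 2 := by nlinarith
          have e5 : (5 / 2) * (c ^ 15 * d) ≤ n₀ := by
            have : 80 * ((c : ℝ) ^ 15 * d) * c ≤ (n₀ * 32) * c := by
              have e6 : 80 * ((c : ℝ) ^ 15 * d) * c = 80 * (c ^ 16 * d) := by ring
              rw [e6]; linarith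
            have := le_of_mul_le_mul_right this hc0
            linarith
          have e7 : (c : ℝ) ^ 15 = c * c ^ 14 := by ring
          have e8 : (1 : ℝ) ≤ c ^ 14 := one_le_pow₀ hc1
          have e9 : (1 + m + 2 * (2 * (c : ℝ) ^ 14) * m : ℝ) ≤ 5 * (c ^ 14 * d) := by
            rw [hd]; nlinarith
          have e10 : 1000 * ((c : ℝ) ^ 14 * d) ≤ c * (c ^ 14 * d) := by
            apply mul_le_mul_of_nonneg_right _ (by positivity)
            linarith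
          have e11 : (c : ℝ) ^ 15 * d = c * (c ^ 14 * d) := by ring
          have e12 : d ≤ c ^ 14 * d := by nlinarith
          rw [e11] at e5
          linarith
  have S : ∑ χ : Idx (Fin m) → ZMod 3 with χ ≠ 0, (lamf m c (qpart χ)) ^ n₀ ≤
      4 * Real.exp (-d) := by
    have := sum_lamf_le m c n₀
    have := Real.exp_pos (-d)
    linarith
  have F2 : √(∑ χ : Idx (Fin m) → ZMod 3 with χ ≠ 0, (lamf m c (qpart χ)) ^ n₀) ≤
      2 * Real.exp (-(d / 2)) := by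
    apply Real.sqrt_le_iff.mpr
    refine ⟨by positivity, S.trans (le_of_eq ?_)⟩
    rw [mul_pow, ← Real.exp_nat_mul]
    push_cast
    rw [show (2 : ℝ) * -(d / 2) = -d by ring]
    norm_num
  linarith

/-- the upper bound for the random walk, in terms of test functions -/
theorem upper_test (c : ℕ) (hc : cstar ≤ c) (m : ℕ) (hm : 0 < m) (h1 : c ^ 16 ≤ m + 1)
    (h2 : m + 1 ≤ (2 * c) ^ 16) (n₀ : ℕ)
    (hn : 80 * ((m : ℝ) + 1) ^ 2 / Real.log (m + 1) ≤ n₀)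
    {G : Type*} [Group G] [Fintype G] (h3 : ∀ g : G, g ^ 3 = 1)
    (s : Fin (m + 1) → G) (hs : Subgroup.closure (Set.range s) = ⊤)
    (f : G → ℂ) (hf : ∀ g, ‖f g‖ ≤ 1) :
    ‖wav (1000 * n₀ * (4 * m + 1)) (fun β => f (W s β)) - av f‖ ≤
      (m + 1) * (4 * Real.exp (-(((m : ℝ) + 1) / 2))) := by
  have hc2 : 2 ≤ c := by unfold cstar at hc; omega
  have h4 := all_gen hm h3 s hs (4 * m) (1000 * n₀) n₀ (lamf m c)
    (lamf_pos m c (by omega)) (lamf_le m c hc2) (fun χ hχ => lam_spec c hc m hm h1 h2 χ hχ) f hf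
  refine h4.trans ?_
  have := numeric c hc m hm h1 h2 n₀ hn
  gcongr

end MixBurnside
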