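import Pool.Agent.MP_3225a3_pr.High

/-! # Blocks, resampling (MP_3225a3_pr) -/

namespace MixBurnside

open Finset Complex

section Comb

variable {κ : Type*}

/-- inclusion of the non-distinguished letters -/
def inc (ℓ : κ × Bool) : Option κ × Bool := (some ℓ.1, ℓ.2)

/-- delete the distinguished letters -/
def strip : List (Option κ × Bool) → List (κ × Bool)
  | [] => []
  | (none, _) :: l => strip l
  | (some j, ε) :: l => (j, ε) :: strip l

/-- number of distinguished letters -/
def kc : List (Option κ × Bool) → ℕ
  | [] => 0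
  | (none, _) :: l => kc l + 1
  | (some _, _) :: l => kc l

/-- insert a distinguished letter -/
def ins (u : List (κ × Bool)) (T : ℕ) (ε : Bool) : List (Option κ × Bool) :=
  (u.take T).map inc ++ (none, ε) :: (u.drop T).map inc

lemma strip_append (l l' : List (Option κ × Bool)) : strip (l ++ l') = strip l ++ strip l' := by
  induction l with
  | nil => rfl
  | cons a l ih =>
    obtain ⟨o, ε⟩ := a
    cases o with
    | none => exact ih
    | some j => simp only [List.cons_append, strip, ih]

lemma kc_append (l l' : List (Option κ × Bool)) : kc (l ++ l') = kc l + kc l' := by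
  induction l with
  | nil => simp [kc]
  | cons a l ih =>
    obtain ⟨o, ε⟩ := a
    cases o with
    | none => simp only [List.cons_append, kc, ih]; ring
    | some j => simp only [List.cons_append, kc, ih]

lemma strip_map_inc (u : List (κ × Bool)) : strip (u.map inc) = u := by
  induction u with
  | nil => rfl
  | cons a l ih =>
    change (a.1, a.2) :: strip (l.map inc) = a :: l
    rw [ih]

lemma kc_map_inc (u : List (κ × Bool)) : kc (u.map inc) = 0 := by
  induction u with
  | nil => rfl
  | cons a l ih => exact ih

lemma strip_ins (u : List (κ × Bool)) (T : ℕ) (ε : Bool) : strip (ins u T ε) = u := by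
  rw [ins, strip_append, strip_map_inc]
  simp only [strip, strip_map_inc, List.take_append_drop]

lemma kc_ins (u : List (κ × Bool)) (T : ℕ) (ε : Bool) : kc (ins u T ε) = 1 := by
  rw [ins, kc_append, kc_map_inc]
  simp only [kc, kc_map_inc]

variable [Fintype κ] {E : Type*} [AddCommGroup E] [Module ℝ E]

omit [Module ℝ E] in
lemma wsum_nok (b : ℕ) (F : List (Option κ × Bool) → E) :
    wsum b (fun β => if kc β = 0 then F β else 0) =
      wsum b (fun u : List (κ × Bool) => F (u.map inc)) := by
  induction b generalizing F with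
  | zero => simp [kc]
  | succ b ih =>
    rw [wsum_succ, wsum_succ, Fintype.sum_prod_type, Fintype.sum_option, Fintype.sum_prod_type]
    have h0 : ∀ ε : Bool, (wsum b fun l : List (Option κ × Bool) =>
        if kc ((none, ε) :: l) = 0 then F ((none, ε) :: l) else 0) = 0 := by
      intro ε
      have : (fun l : List (Option κ × Bool) =>
        if kc ((none, ε) :: l) = 0 then F ((none, ε) :: l) else 0) = fun _ => 0 := by
        funext l
        simp [kc]
      rw [this]
      have := wsum_sum (α := Option κ × Bool) (E := E) (∅ : Finset ℕ) b (fun _ _ => 0)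
      simpa using this
    simp only [h0, Finset.sum_const_zero, zero_add]
    apply Finset.sum_congr rfl
    intro j _
    apply Finset.sum_congr rfl
    intro ε _
    exact ih (fun l => F ((some j, ε) :: l))

omit [Module ℝ E] in
lemma wsum_good (b : ℕ) (F : List (Option κ × Bool) → E) :
    wsum (b + 1) (fun β => if kc β = 1 then F β else 0) =
      wsum b (fun u : List (κ × Bool) => ∑ T ∈ range (b + 1), ∑ ε : Bool, F (ins u T ε)) := by
  induction b generalizing F with
  | zero =>
    rw [wsum_succ, Fintype.sum_prod_type, Fintype.sum_option]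
    simp [kc, ins]
  | succ b ih =>
    rw [wsum_succ, Fintype.sum_prod_type, Fintype.sum_option]
    have h1 : ∀ ε : Bool, (wsum (b + 1) fun l : List (Option κ × Bool) =>
        if kc ((none, ε) :: l) = 1 then F ((none, ε) :: l) else 0) =
        wsum (b + 1) (fun u : List (κ × Bool) => F ((none, ε) :: u.map inc)) := by
      intro ε
      rw [← wsum_nok (b + 1) (fun l => F ((none, ε) :: l))]
      congr 1
      funext l
      simp [kc]
    have h2 : ∀ (j : κ) (ε : Bool), (wsum (b + 1) fun l : List (Option κ × Bool) =>
        if kc ((some j, ε) :: l) = 1 then F ((some j, ε) :: l) else 0) =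
        wsum b (fun u : List (κ × Bool) => ∑ T ∈ range (b + 1), ∑ ε' : Bool,
          F ((some j, ε) :: ins u T ε')) := by
      intro j ε
      exact ih (fun l => F ((some j, ε) :: l))
    simp only [h1, h2]
    have h3 : ∀ u : List (κ × Bool), ∑ T ∈ range (b + 1 + 1), ∑ ε : Bool, F (ins u T ε) =
        (∑ ε : Bool, F ((none, ε) :: u.map inc)) +
        ∑ T ∈ range (b + 1), ∑ ε : Bool, F (ins u (T + 1) ε) := by
      intro u
      rw [Finset.sum_range_succ', add_comm]
      simp [ins]
    simp only [h3]
    rw [wsum_add, wsum_sum]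
    congr 1
    rw [wsum_succ, Fintype.sum_prod_type]
    rfl

lemma wsum_range_av (b : ℕ) (G : ℕ → Bool → E) :
    ∑ T ∈ range (b + 1), ∑ ε : Bool, G T ε =
      (((b : ℝ) + 1) * 2) • (av fun T : Fin (b + 1) => av fun ε : Bool => G T ε) := by
  unfold av
  rw [← Finset.smul_sum, smul_smul, smul_smul, Fintype.card_fin, Fintype.card_bool,
    Finset.sum_range]
  have : ((b : ℝ) + 1) * 2 * ((b + 1 : ℕ) : ℝ)⁻¹ * ((2 : ℕ) : ℝ)⁻¹ = 1 := by
    push_cast
    field_simp
  rw [this, one_smul]

/-- the probability that a block of length `b+1` is good -/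
noncomputable def pg (m b : ℕ) : ℝ :=
  ((b : ℝ) + 1) * 2 * (2 * (m : ℝ)) ^ b / (2 * ((m : ℝ) + 1)) ^ (b + 1)

omit [Module ℝ E] [Fintype κ] in
lemma wsum_smul' {α : Type*} [Fintype α] [Module ℝ E] (N : ℕ) (c : ℝ) (F : List α → E) :
    wsum N (fun l => c • F l) = c • wsum N F := by
  induction N generalizing F with
  | zero => rfl
  | succ N ih => simp only [wsum_succ, ih, Finset.smul_sum]

lemma wav_good [Nonempty κ] (b : ℕ) (F : List (Option κ × Bool) → E) :
    wav (b + 1) (fun β => if kc β = 1 then F β else 0) =
      pg (Fintype.card κ) b • wav b (fun u : List (κ × Bool) =>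
        av fun T : Fin (b + 1) => av fun ε : Bool => F (ins u T ε)) := by
  rw [wav_eq_wsum, wsum_good, wav_eq_wsum]
  simp only [wsum_range_av b (fun T ε => F (ins _ T ε))]
  rw [wsum_smul', smul_smul, smul_smul]
  congr 1
  rw [Fintype.card_prod, Fintype.card_prod, Fintype.card_option, Fintype.card_bool, pg]
  have hm : (Fintype.card κ : ℝ) ≠ 0 := by exact_mod_cast Fintype.card_ne_zero
  push_cast
  have h1 : ((Fintype.card κ : ℝ) * 2) ^ b ≠ 0 := pow_ne_zero _ (by positivity)
  rw [mul_comm (Fintype.card κ : ℝ) 2] at h1 ⊢
  rw [mul_comm ((Fintype.card κ : ℝ) + 1) 2]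
  field_simp

/-- one-block resampling -/
lemma resample [Nonempty κ] (b : ℕ) (F : List (Option κ × Bool) → E) :
    wav (b + 1) (fun β => if kc β = 1 then F β else 0) =
    wav (b + 1) (fun β => if kc β = 1 then
      (av fun T : Fin (b + 1) => av fun ε : Bool => F (ins (strip β) T ε)) else 0) := by
  rw [wav_good, wav_good]
  congr 1
  congr 1
  funext u
  simp only [strip_ins]
  rw [show (av fun _ : Fin (b + 1) => av fun _ : Bool =>
    (av fun T : Fin (b + 1) => av fun ε : Bool => F (ins u T ε))) =
    (av fun T : Fin (b + 1) => av fun ε : Bool => F (ins u T ε)) by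
      rw [av_const, av_const]]

end Comb

end MixBurnside
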