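import Mathlib

/-! # A large group of exponent 3 (MP_3225a3_pr) -/

namespace MixBurnside

open Finset

/-- elements `1 + v + m + w` of a group of units of an algebra in which all cubes of elements of
the radical vanish -/
@[ext] structure Gam (ι : Type*) where
  /-- degree one part -/
  v : ι → ZMod 3
  /-- degree two part -/
  m : ι → ι → ZMod 3
  /-- degree three part -/
  w : ι → ι → ι → ZMod 3

namespace Gam

variable {ι : Type*}

instance : Mul (Gam ι) := ⟨fun x y => ⟨fun a => x.v a + y.v a,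
  fun a b => x.m a b + y.m a b + x.v a * y.v b,
  fun a b c => x.w a b c + y.w a b c + (x.v a * y.m b c - x.v b * y.m a c) +
    (x.m a b - x.m b a) * y.v c⟩⟩

instance : One (Gam ι) := ⟨⟨fun _ => 0, fun _ _ => 0, fun _ _ _ => 0⟩⟩

instance : Inv (Gam ι) := ⟨fun x => ⟨fun a => -x.v a,
  fun a b => -x.m a b + x.v a * x.v b,
  fun a b c => -x.w a b c + (x.v a * x.m b c - x.v b * x.m a c) +
    (x.m a b - x.m b a) * x.v c⟩⟩

@[simp] lemma mul_v (x y : Gam ι) (a : ι) : (x * y).v a = x.v a + y.v a := rfl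
@[simp] lemma mul_m (x y : Gam ι) (a b : ι) :
    (x * y).m a b = x.m a b + y.m a b + x.v a * y.v b := rfl
@[simp] lemma mul_w (x y : Gam ι) (a b c : ι) :
    (x * y).w a b c = x.w a b c + y.w a b c + (x.v a * y.m b c - x.v b * y.m a c) +
    (x.m a b - x.m b a) * y.v c := rfl
@[simp] lemma one_v (a : ι) : (1 : Gam ι).v a = 0 := rfl
@[simp] lemma one_m (a b : ι) : (1 : Gam ι).m a b = 0 := rfl
@[simp] lemma one_w (a b c : ι) : (1 : Gam ι).w a b c = 0 := rfl
@[simp] lemma inv_v (x : Gam ι) (a : ι) : (x⁻¹).v a = -x.v a := rfl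
@[simp] lemma inv_m (x : Gam ι) (a b : ι) : (x⁻¹).m a b = -x.m a b + x.v a * x.v b := rfl
@[simp] lemma inv_w (x : Gam ι) (a b c : ι) :
    (x⁻¹).w a b c = -x.w a b c + (x.v a * x.m b c - x.v b * x.m a c) +
    (x.m a b - x.m b a) * x.v c := rfl

lemma ext' {x y : Gam ι} (h1 : ∀ a, x.v a = y.v a) (h2 : ∀ a b, x.m a b = y.m a b)
    (h3 : ∀ a b c, x.w a b c = y.w a b c) : x = y := by
  apply Gam.ext
  · funext a; exact h1 a
  · funext a b; exact h2 a b
  · funext a b c; exact h3 a b c

instance : Group (Gam ι) := Group.ofLeftAxioms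
  (by
    intro x y z
    apply ext'
    · intro a; simp only [mul_v]; ring
    · intro a b; simp only [mul_v, mul_m]; ring
    · intro a b c; simp only [mul_v, mul_m, mul_w]; ring)
  (by
    intro x
    apply ext'
    · intro a; simp only [mul_v, one_v]; ring
    · intro a b; simp only [mul_m, one_v, one_m]; ring
    · intro a b c; simp only [mul_w, one_v, one_m, one_w]; ring)
  (by
    intro x
    apply ext'
    · intro a; simp only [mul_v, one_v, inv_v]; ring
    · intro a b; simp only [mul_m, one_m, inv_v, inv_m]; ring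
    · intro a b c; simp only [mul_w, one_w, inv_v, inv_m, inv_w]; ring)

lemma cube (x : Gam ι) : x ^ 3 = 1 := by
  have h : (3 : ZMod 3) = 0 := rfl
  rw [pow_succ, sq]
  apply ext'
  · intro a; simp only [mul_v, one_v]; linear_combination (x.v a) * h
  · intro a b; simp only [mul_v, mul_m, one_m]
    linear_combination (x.m a b + x.v a * x.v b) * h
  · intro a b c; simp only [mul_v, mul_m, mul_w, one_w]
    linear_combination (x.w a b c + x.v a * x.m b c - x.v b * x.m a c +
      (x.m a b - x.m b a) * x.v c) * h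

/-- elements of degree one -/
def g1 (u : ι → ZMod 3) : Gam ι := ⟨u, fun _ _ => 0, fun _ _ _ => 0⟩

/-- elements of degree three -/
def g3 (w : ι → ι → ι → ZMod 3) : Gam ι := ⟨fun _ => 0, fun _ _ => 0, w⟩

/-- the degree three tensor of a triple commutator -/
def A3 (u v w : ι → ZMod 3) (a b c : ι) : ZMod 3 :=
  2 * u a * v b * w c - 2 * v a * u b * w c - w a * u b * v c + w a * v b * u c +
    w b * u a * v c - w b * v a * u c

lemma triple_comm (u v w : ι → ZMod 3) :
    (g1 u * g1 v * (g1 u)⁻¹ * (g1 v)⁻¹) * g1 w * (g1 u * g1 v * (g1 u)⁻¹ * (g1 v)⁻¹)⁻¹ *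
      (g1 w)⁻¹ = g3 (A3 u v w) := by
  apply ext'
  · intro a; simp only [mul_v, inv_v, g1, g3]; ring
  · intro a b; simp only [mul_v, mul_m, inv_v, inv_m, g1, g3]; ring
  · intro a b c
    simp only [mul_v, mul_m, mul_w, inv_v, inv_m, inv_w, g1, g3, A3]; ring

lemma g3_add (w w' : ι → ι → ι → ZMod 3) : g3 (w + w') = g3 w * g3 w' := by
  apply ext'
  · intro a; simp [g3]
  · intro a b; simp [g3]
  · intro a b c; simp [g3]

lemma g3_zero : g3 (0 : ι → ι → ι → ZMod 3) = 1 := rfl

lemma g3_neg (w : ι → ι → ι → ZMod 3) : g3 (-w) = (g3 w)⁻¹ := by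
  rw [eq_inv_iff_mul_eq_one, ← g3_add, neg_add_cancel, g3_zero]

lemma g3_injective : Function.Injective (g3 : (ι → ι → ι → ZMod 3) → Gam ι) := by
  intro w w' h
  exact congrArg Gam.w h

/-- the additive subgroup of tensors whose element lies in a subgroup -/
def tens (K : Subgroup (Gam ι)) : AddSubgroup (ι → ι → ι → ZMod 3) where
  carrier := {w | g3 w ∈ K}
  add_mem' := by
    intro w w' hw hw'
    change g3 (w + w') ∈ K
    rw [g3_add]; exact K.mul_mem hw hw'
  zero_mem' := by
    change g3 0 ∈ K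
    rw [g3_zero]; exact K.one_mem
  neg_mem' := by
    intro w hw
    change g3 (-w) ∈ K
    rw [g3_neg]; exact K.inv_mem hw

lemma A3_mem (K : Subgroup (Gam ι)) (u v w : ι → ZMod 3) (hu : g1 u ∈ K) (hv : g1 v ∈ K)
    (hw : g1 w ∈ K) : A3 u v w ∈ tens K := by
  change g3 (A3 u v w) ∈ K
  rw [← triple_comm]
  have h1 : g1 u * g1 v * (g1 u)⁻¹ * (g1 v)⁻¹ ∈ K :=
    K.mul_mem (K.mul_mem (K.mul_mem hu hv) (K.inv_mem hu)) (K.inv_mem hv)
  exact K.mul_mem (K.mul_mem (K.mul_mem h1 hw) (K.inv_mem h1)) (K.inv_mem hw)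

variable [DecidableEq ι]

omit [DecidableEq ι] in
lemma smul_mem_tens (K : Subgroup (Gam ι)) (c : ZMod 3) (w : ι → ι → ι → ZMod 3)
    (hw : w ∈ tens K) : c • w ∈ tens K := by
  have : c • w = c.val • w := by
    funext a b d
    simp only [Pi.smul_apply, smul_eq_mul, nsmul_eq_mul, ZMod.natCast_val, ZMod.cast_id', id_eq]
  rw [this]
  exact (tens K).nsmul_mem hw _

/-- linear combination of triple commutators -/
def comb {r : ℕ} (e : Fin 3 × Fin r → ι) (lam : Fin r × Fin r × Fin r → ZMod 3) :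
    ι → ι → ι → ZMod 3 :=
  ∑ t, lam t • A3 (Pi.single (e (0, t.1)) 1) (Pi.single (e (1, t.2.1)) 1)
    (Pi.single (e (2, t.2.2)) 1)

lemma comb_mem {r : ℕ} (K : Subgroup (Gam ι)) (e : Fin 3 × Fin r → ι)
    (hK : ∀ a, g1 (Pi.single a 1) ∈ K) (lam : Fin r × Fin r × Fin r → ZMod 3) :
    g3 (comb e lam) ∈ K := by
  have : comb e lam ∈ tens K := by
    apply (tens K).sum_mem
    intro t _
    exact smul_mem_tens K _ _ (A3_mem K _ _ _ (hK _) (hK _) (hK _))
  exact this

lemma comb_apply {r : ℕ} (e : Fin 3 × Fin r → ι) (he : Function.Injective e)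
    (lam : Fin r × Fin r × Fin r → ZMod 3) (i j k : Fin r) :
    comb e lam (e (0, i)) (e (1, j)) (e (2, k)) = 2 * lam (i, j, k) := by
  unfold comb
  simp only [Finset.sum_apply, Pi.smul_apply, smul_eq_mul, A3, Pi.single_apply, he.eq_iff,
    Prod.mk.injEq]
  rw [Finset.sum_eq_single (i, j, k)]
  · simp
    ring
  · rintro ⟨i', j', k'⟩ _ hne
    have h01 : (0 : Fin 3) ≠ 1 := by decide
    have h02 : (0 : Fin 3) ≠ 2 := by decide
    have h12 : (1 : Fin 3) ≠ 2 := by decide
    have h10 : (1 : Fin 3) ≠ 0 := by decide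
    have h20 : (2 : Fin 3) ≠ 0 := by decide
    have h21 : (2 : Fin 3) ≠ 1 := by decide
    simp only [h01, h02, h12, h10, h20, h21, false_and, if_false, true_and, mul_zero, zero_mul,
      sub_zero, add_zero]
    by_cases hi : i = i'
    · by_cases hj : j = j'
      · by_cases hk : k = k'
        · exact absurd (by rw [hi, hj, hk]) hne
        · simp [hk]
      · simp [hj]
    · simp [hi]
  · intro h; exact absurd (Finset.mem_univ _) h

lemma comb_injective {r : ℕ} (e : Fin 3 × Fin r → ι) (he : Function.Injective e) :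
    Function.Injective (comb e) := by
  intro lam lam' h
  funext ⟨i, j, k⟩
  have h1 := comb_apply e he lam i j k
  have h2 := comb_apply e he lam' i j k
  rw [h, h2] at h1
  have h4 : (2 : ZMod 3) * 2 = 1 := by decide
  calc lam (i, j, k) = 2 * (2 * lam (i, j, k)) := by rw [← mul_assoc, h4, one_mul]
    _ = 2 * (2 * lam' (i, j, k)) := by rw [h1]
    _ = lam' (i, j, k) := by rw [← mul_assoc, h4, one_mul]

end Gam

end MixBurnside
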