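import Pool.Agent.MP_3225a3_pr.Walk
import Pool.Agent.MP_3225a3_pr.Lower

/-! # Basic facts on the random walk on `B(3,d)` (MP_3225a3_pr) -/

namespace MixBurnside

open Finset

/-! ### distinctness of the generators -/

/-- an abelian group of exponent 3 -/
abbrev Ab3 (d : ℕ) : Type := Multiplicative (Fin d → ZMod 3)

lemma Ab3_cube {d : ℕ} (g : Ab3 d) : g ^ 3 = 1 := by
  apply Multiplicative.toAdd.injective
  rw [toAdd_pow, toAdd_one]
  funext i
  rw [Pi.smul_apply, Pi.zero_apply, nsmul_eq_mul]
  have : ((3 : ℕ) : ZMod 3) = 0 := rfl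
  rw [this, zero_mul]

lemma lt_injective (d : ℕ) : Function.Injective (lt (gen d)) := by
  obtain ⟨φ, hφ⟩ := exists_hom (d := d) Ab3_cube (fun i => Multiplicative.ofAdd (Pi.single i 1))
  have key : ∀ ℓ : Fin d × Bool, Multiplicative.toAdd (φ (lt (gen d) ℓ)) =
      Pi.single ℓ.1 (sg ℓ.2) := by
    rintro ⟨i, ε⟩
    cases ε with
    | true => simp only [lt, if_true, hφ, sg]; rfl
    | false =>
      simp only [lt, Bool.false_eq_true, if_false, map_inv, hφ, sg, toAdd_inv, toAdd_ofAdd]
      rw [← Pi.single_neg]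
  have hsg0 : ∀ b, sg b ≠ 0 := by decide
  have hsginj : ∀ b b', sg b = sg b' → b = b' := by decide
  intro ℓ ℓ' h
  have h1 : Pi.single ℓ.1 (sg ℓ.2) = (Pi.single ℓ'.1 (sg ℓ'.2) : Fin d → ZMod 3) := by
    rw [← key, ← key, h]
  have h2 : ℓ.1 = ℓ'.1 := by
    by_contra hne
    have := congrFun h1 ℓ.1
    rw [Pi.single_eq_same, Pi.single_eq_of_ne hne] at this
    exact hsg0 _ this
  have h3 : ℓ.2 = ℓ'.2 := by
    have := congrFun h1 ℓ.1
    rw [← h2, Pi.single_eq_same, Pi.single_eq_same] at this
    exact hsginj _ _ this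
  exact Prod.ext h2 h3

lemma genSet_eq (d : ℕ) : genSet d = Set.range (lt (gen d)) := by
  ext x
  constructor
  · rintro ⟨i, rfl | rfl⟩
    · exact ⟨(i, true), by simp [lt]⟩
    · exact ⟨(i, false), by simp [lt]⟩
  · rintro ⟨⟨i, ε⟩, rfl⟩
    cases ε with
    | true => exact ⟨i, Or.inl (by simp [lt])⟩
    | false => exact ⟨i, Or.inr (by simp [lt])⟩

lemma ncard_genSet (d : ℕ) : (genSet d).ncard = Fintype.card (Fin d × Bool) := by
  rw [genSet_eq, ← Set.image_univ, Set.ncard_image_of_injective _ (lt_injective d),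
    Set.ncard_univ, Nat.card_eq_fintype_card]

open Classical in
lemma mu_eq (d : ℕ) (g : B3 d) :
    mu d g = av fun ℓ : Fin d × Bool => if lt (gen d) ℓ = g then (1 : ℝ) else 0 := by
  unfold mu av
  rw [ncard_genSet, genSet_eq, smul_eq_mul]
  by_cases h : g ∈ Set.range (lt (gen d))
  · obtain ⟨ℓ, rfl⟩ := h
    rw [if_pos ⟨ℓ, rfl⟩]
    have : ∑ a, (if lt (gen d) a = lt (gen d) ℓ then (1 : ℝ) else 0) = 1 := by
      rw [Finset.sum_eq_single ℓ]
      · simp
      · intro a _ ha
        rw [if_neg (fun h => ha (lt_injective d h))]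
      · intro h; exact absurd (Finset.mem_univ _) h
    rw [this, mul_one, one_div]
  · rw [if_neg h]
    have : ∑ a, (if lt (gen d) a = g then (1 : ℝ) else 0) = 0 := by
      apply Finset.sum_eq_zero
      intro a _
      rw [if_neg (fun h' => h ⟨a, h'⟩)]
    rw [this, mul_zero]

open Classical in
lemma law_eq (d t : ℕ) (g : B3 d) :
    law d t g = wav t fun l : List (Fin d × Bool) => if W (gen d) l = g then (1 : ℝ) else 0 := by
  induction t generalizing g with
  | zero =>
    rw [wav_zero, W_nil]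
    simp only [law]
    by_cases h : g = 1
    · subst h; simp
    · rw [if_neg h, if_neg (Ne.symm h)]
  | succ t ih =>
    simp only [law, conv]
    rw [wav_append]
    have h1 : ∀ h : B3 d, law d t h * mu d (h⁻¹ * g) =
        wav t (fun l : List (Fin d × Bool) =>
          (if W (gen d) l = h then (1 : ℝ) else 0) * mu d (h⁻¹ * g)) := by
      intro h
      rw [wav_mul_right, ih]
    simp only [h1]
    rw [← wav_sum]
    congr 1
    funext l
    have h2 : ∑ h : B3 d, (if W (gen d) l = h then (1 : ℝ) else 0) * mu d (h⁻¹ * g) =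
        mu d ((W (gen d) l)⁻¹ * g) := by
      rw [Finset.sum_eq_single (W (gen d) l)]
      · simp
      · intro h _ hne
        rw [if_neg (Ne.symm hne), zero_mul]
      · intro h; exact absurd (Finset.mem_univ _) h
    rw [h2, mu_eq, wav_succ]
    congr 1
    funext ℓ
    rw [wav_zero, W_append, W_cons, W_nil, mul_one]
    have : (lt (gen d) ℓ = (W (gen d) l)⁻¹ * g) ↔ (W (gen d) l * lt (gen d) ℓ = g) := by
      rw [eq_inv_mul_iff_mul_eq]
    simp only [this]

lemma law_nonneg (d t : ℕ) (g : B3 d) : 0 ≤ law d t g := by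
  classical
  rw [law_eq]
  apply wav_nonneg
  intro l _
  split_ifs <;> norm_num

lemma sum_law_mul (d t : ℕ) (f : B3 d → ℝ) :
    ∑ g, f g * law d t g = wav t fun l : List (Fin d × Bool) => f (W (gen d) l) := by
  classical
  have h1 : ∀ g : B3 d, f g * law d t g = wav t (fun l : List (Fin d × Bool) =>
      f g * (if W (gen d) l = g then (1 : ℝ) else 0)) := by
    intro g
    rw [wav_mul_left, law_eq]
  simp only [h1]
  rw [← wav_sum]
  congr 1
  funext l
  rw [Finset.sum_eq_single (W (gen d) l)]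
  · simp
  · intro h _ hne
    rw [if_neg (Ne.symm hne), mul_zero]
  · intro h; exact absurd (Finset.mem_univ _) h

lemma sum_law (d : ℕ) (hd : 0 < d) (t : ℕ) : ∑ g, law d t g = 1 := by
  have : Nonempty (Fin d × Bool) := ⟨(⟨0, hd⟩, true)⟩
  have h := sum_law_mul d t (fun _ => 1)
  simp only [one_mul] at h
  rw [h, wav_const]

lemma sum_unif (d : ℕ) : ∑ g, unif d g = 1 := by
  unfold unif
  rw [Finset.sum_const, Finset.card_univ, ← Nat.card_eq_fintype_card, nsmul_eq_mul]
  have : (Nat.card (B3 d) : ℝ) ≠ 0 := by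
    exact_mod_cast Nat.card_pos.ne'
  field_simp

/-- upper bound of the total variation distance through test functions -/
lemma tv_le (d t : ℕ) (δ : ℝ)
    (h : ∀ f : B3 d → ℂ, (∀ g, ‖f g‖ ≤ 1) →
      ‖wav t (fun l : List (Fin d × Bool) => f (W (gen d) l)) - av f‖ ≤ δ) :
    tv (law d t) (unif d) ≤ δ / 2 := by
  classical
  let f : B3 d → ℝ := fun g => if 0 ≤ law d t g - unif d g then 1 else -1
  have hf : ∀ g, ‖((f g : ℝ) : ℂ)‖ ≤ 1 := by
    intro g
    rw [Complex.norm_real, Real.norm_eq_abs]
    simp only [f]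
    split_ifs <;> norm_num
  have h1 := h (fun g => (f g : ℂ)) hf
  have h2 : ∑ g, |law d t g - unif d g| = ∑ g, f g * (law d t g - unif d g) := by
    apply Finset.sum_congr rfl
    intro g _
    simp only [f]
    split_ifs with h0
    · rw [abs_of_nonneg h0, one_mul]
    · rw [abs_of_neg (not_le.mp h0)]; ring
  have h3 : ∑ g, f g * (law d t g - unif d g) =
      wav t (fun l : List (Fin d × Bool) => f (W (gen d) l)) - av f := by
    simp only [mul_sub, Finset.sum_sub_distrib]
    rw [sum_law_mul]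
    congr 1
    unfold unif av
    rw [← Finset.sum_mul, Nat.card_eq_fintype_card, smul_eq_mul]
    ring
  have h4 : ((wav t (fun l : List (Fin d × Bool) => f (W (gen d) l)) - av f : ℝ) : ℂ) =
      wav t (fun l : List (Fin d × Bool) => (f (W (gen d) l) : ℂ)) - av fun g => (f g : ℂ) := by
    push_cast
    have e1 := wav_map (E := ℝ) (E' := ℂ) (Complex.ofRealCLM.toLinearMap) t
      (fun l : List (Fin d × Bool) => f (W (gen d) l))
    have e2 := av_map (E := ℝ) (E' := ℂ) (Complex.ofRealCLM.toLinearMap) f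
    simp only [ContinuousLinearMap.coe_coe, Complex.ofRealCLM_apply] at e1 e2
    rw [e1, e2]
  rw [← h4, Complex.norm_real, Real.norm_eq_abs] at h1
  unfold tv
  rw [h2, h3]
  have := le_abs_self (wav t (fun l : List (Fin d × Bool) => f (W (gen d) l)) - av f)
  linarith

lemma mu_nonneg (d : ℕ) (g : B3 d) : 0 ≤ mu d g := by
  classical
  unfold mu
  split_ifs <;> positivity

lemma sum_mu (d : ℕ) (hd : 0 < d) : ∑ g, mu d g = 1 := by
  have h := sum_law d hd 1
  have h1 : ∀ g, law d 1 g = mu d g := by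
    classical
    intro g
    simp only [law, conv]
    rw [Finset.sum_eq_single (1 : B3 d)]
    · simp
    · intro h _ hne
      rw [if_neg hne, zero_mul]
    · intro h; exact absurd (Finset.mem_univ _) h
  simpa only [h1] using h

/-- the distance is non-increasing -/
lemma tv_succ_le (d : ℕ) (hd : 0 < d) (t : ℕ) :
    tv (law d (t + 1)) (unif d) ≤ tv (law d t) (unif d) := by
  unfold tv
  apply mul_le_mul_of_nonneg_left _ (by norm_num)
  have hinv : ∀ g : B3 d, ∑ h, mu d (h⁻¹ * g) = 1 := by
    intro g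
    rw [← sum_mu d hd]
    exact Fintype.sum_equiv ((Equiv.inv (B3 d)).trans (Equiv.mulRight g)) _ _ (fun h => rfl)
  have hinv2 : ∀ h : B3 d, ∑ g, mu d (h⁻¹ * g) = 1 := by
    intro h
    rw [← sum_mu d hd]
    exact Fintype.sum_equiv (Equiv.mulLeft h⁻¹) _ _ (fun g => rfl)
  have h1 : ∀ g, law d (t + 1) g - unif d g =
      ∑ h, (law d t h - unif d h) * mu d (h⁻¹ * g) := by
    intro g
    simp only [sub_mul, Finset.sum_sub_distrib]
    have : ∑ x, unif d x * mu d (x⁻¹ * g) = unif d g := by
      unfold unif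
      rw [← Finset.mul_sum, hinv, mul_one]
    rw [this]
    rfl
  calc ∑ g, |law d (t + 1) g - unif d g|
      = ∑ g, |∑ h, (law d t h - unif d h) * mu d (h⁻¹ * g)| := by simp only [h1]
    _ ≤ ∑ g, ∑ h, |law d t h - unif d h| * mu d (h⁻¹ * g) := by
        apply Finset.sum_le_sum
        intro g _
        refine (Finset.abs_sum_le_sum_abs _ _).trans (le_of_eq ?_)
        apply Finset.sum_congr rfl
        intro h _
        rw [abs_mul, abs_of_nonneg (mu_nonneg d _)]
    _ = ∑ h, |law d t h - unif d h| := by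
        rw [Finset.sum_comm]
        apply Finset.sum_congr rfl
        intro h _
        rw [← Finset.mul_sum, hinv2, mul_one]

lemma tv_antitone (d : ℕ) (hd : 0 < d) : Antitone fun t => tv (law d t) (unif d) :=
  antitone_nat_of_succ_le fun t => tv_succ_le d hd t

lemma ofFn_get_cast {α : Type*} {t : ℕ} (l : List α) (hl : l.length = t) :
    List.ofFn (fun i : Fin t => l.get (Fin.cast hl.symm i)) = l := by
  subst hl
  exact List.ofFn_get l

/-- the walk is confined to few elements -/
lemma tv_lower (d : ℕ) (hd : 0 < d) (t : ℕ) :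
    1 - (2 * (d : ℝ)) ^ t / Nat.card (B3 d) ≤ tv (law d t) (unif d) := by
  classical
  let A : Finset (B3 d) := Finset.univ.image
    (fun w : Fin t → Fin d × Bool => W (gen d) (List.ofFn w))
  have hA : (A.card : ℝ) ≤ (2 * (d : ℝ)) ^ t := by
    have : A.card ≤ (d * 2) ^ t := by
      refine Finset.card_image_le.trans ?_
      rw [Finset.card_univ, Fintype.card_fun, Fintype.card_fin, Fintype.card_prod,
        Fintype.card_fin, Fintype.card_bool]
    calc (A.card : ℝ) ≤ (((d * 2) ^ t : ℕ) : ℝ) := by exact_mod_cast this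
      _ = (2 * (d : ℝ)) ^ t := by push_cast; ring
  have hsupp : ∀ g, g ∉ A → law d t g = 0 := by
    intro g hg
    rw [law_eq]
    rw [wav_congr (G := fun _ => (0 : ℝ))]
    · have : Nonempty (Fin d × Bool) := ⟨(⟨0, hd⟩, true)⟩
      exact wav_const t 0
    · intro l hl
      rw [if_neg]
      intro h
      apply hg
      rw [Finset.mem_image]
      refine ⟨fun i => l.get (Fin.cast hl.symm i), Finset.mem_univ _, ?_⟩
      rw [← h, ofFn_get_cast l hl]
  have hN : (0 : ℝ) < Nat.card (B3 d) := by exact_mod_cast Nat.card_pos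
  have h1 : ∑ g, |law d t g - unif d g| ≥
      ∑ g, (if g ∈ A then law d t g - unif d g else unif d g - law d t g) := by
    apply Finset.sum_le_sum
    intro g _
    split_ifs
    · exact le_abs_self _
    · rw [abs_sub_comm]; exact le_abs_self _
  have h2 : ∑ g, (if g ∈ A then law d t g - unif d g else unif d g - law d t g) =
      ∑ g, (unif d g + law d t g) - ∑ g, (if g ∈ A then 2 * unif d g else 0) := by
    rw [← Finset.sum_sub_distrib]
    apply Finset.sum_congr rfl
    intro g _
    split_ifs with hg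
    · ring
    · rw [hsupp g hg]; ring
  rw [Finset.sum_add_distrib, sum_law d hd, sum_unif, Finset.sum_ite_mem, Finset.univ_inter] at h2
  have h3 : ∑ g ∈ A, 2 * unif d g = 2 * (A.card / Nat.card (B3 d)) := by
    unfold unif
    rw [Finset.sum_const, nsmul_eq_mul]; ring
  rw [h3] at h2
  have h4 : (A.card : ℝ) / Nat.card (B3 d) ≤ (2 * (d : ℝ)) ^ t / Nat.card (B3 d) := by
    gcongr
  unfold tv
  linarith

/-- lower bound for the order of `B(3,d)` -/
lemma card_lower (d r : ℕ) (hr : 3 * r ≤ d) : 3 ^ (r ^ 3) ≤ Nat.card (B3 d) := by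
  classical
  obtain ⟨e⟩ : Nonempty (Fin 3 × Fin r ↪ Fin d) :=
    Function.Embedding.nonempty_of_card_le (by simpa using hr)
  obtain ⟨φ, hφ⟩ := exists_hom (d := d) (G := Gam (Fin d)) Gam.cube
    (fun i => Gam.g1 (Pi.single i 1))
  have hmem : ∀ lam : Fin r × Fin r × Fin r → ZMod 3,
      ∃ x : B3 d, φ x = Gam.g3 (Gam.comb e lam) := by
    intro lam
    exact Gam.comb_mem φ.range e (fun a => ⟨gen d a, hφ a⟩) lam
  choose x hx using hmem
  have hinj : Function.Injective x := by
    intro lam lam' h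
    have h1 := congrArg φ h
    rw [hx, hx] at h1
    exact Gam.comb_injective e e.injective (Gam.g3_injective h1)
  have h2 := Nat.card_le_card_of_injective x hinj
  have h3 : Nat.card (Fin r × Fin r × Fin r → ZMod 3) = 3 ^ (r ^ 3) := by
    rw [Nat.card_eq_fintype_card, Fintype.card_fun, ZMod.card, Fintype.card_prod,
      Fintype.card_prod, Fintype.card_fin]
    congr 1
    ring
  rwa [h3] at h2

end MixBurnside
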