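import Pool.Agent.MP_3225a3_pr.Blocks

/-! # Many blocks (MP_3225a3_pr) -/

namespace MixBurnside

open Finset Complex

section Bav

variable {α : Type*} [Fintype α] {E : Type*} [AddCommGroup E] [Module ℝ E]

/-- average over all `n`-tuples of blocks of length `B` -/
noncomputable def bav (B : ℕ) : ℕ → (List (List α) → E) → E
  | 0, F => F []
  | (n + 1), F => wav B fun β => bav B n fun bs => F (β :: bs)

@[simp] lemma bav_zero (B : ℕ) (F : List (List α) → E) : bav B 0 F = F [] := rfl

lemma bav_succ (B n : ℕ) (F : List (List α) → E) :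
    bav B (n + 1) F = wav B fun β => bav B n fun bs => F (β :: bs) := rfl

lemma wav_mul_eq_bav (B n : ℕ) (F : List α → E) :
    wav (n * B) F = bav B n (fun bs => F bs.flatten) := by
  induction n generalizing F with
  | zero => simp
  | succ n ih =>
    rw [bav_succ, show (n + 1) * B = B + n * B by ring, wav_append]
    congr 1
    funext β
    rw [ih]
    simp

lemma bav_const [Nonempty α] (B n : ℕ) (c : E) : bav B n (fun _ : List (List α) => c) = c := by
  induction n with
  | zero => rfl
  | succ n ih => simp only [bav_succ, ih, wav_const]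

lemma bav_add (B n : ℕ) (F G : List (List α) → E) :
    bav B n (fun l => F l + G l) = bav B n F + bav B n G := by
  induction n generalizing F G with
  | zero => rfl
  | succ n ih => simp only [bav_succ, ih, wav_add]

lemma bav_sub (B n : ℕ) (F G : List (List α) → E) :
    bav B n (fun l => F l - G l) = bav B n F - bav B n G := by
  induction n generalizing F G with
  | zero => rfl
  | succ n ih => simp only [bav_succ, ih, wav_sub]

lemma bav_smul (B n : ℕ) (c : ℝ) (F : List (List α) → E) :
    bav B n (fun l => c • F l) = c • bav B n F := by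
  induction n generalizing F with
  | zero => rfl
  | succ n ih => simp only [bav_succ, ih, wav_smul]

lemma bav_sum {ι : Type*} (s : Finset ι) (B n : ℕ) (F : ι → List (List α) → E) :
    bav B n (fun l => ∑ i ∈ s, F i l) = ∑ i ∈ s, bav B n (F i) := by
  induction n generalizing F with
  | zero => rfl
  | succ n ih => simp only [bav_succ, ih, wav_sum]

lemma bav_av_comm {β : Type*} [Fintype β] (B n : ℕ) (F : List (List α) → β → E) :
    bav B n (fun l => av (fun b => F l b)) = av (fun b => bav B n (fun l => F l b)) := by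
  induction n generalizing F with
  | zero => rfl
  | succ n ih =>
    simp only [bav_succ, ih]
    rw [wav_av_comm]

lemma bav_mono (B n : ℕ) {F G : List (List α) → ℝ} (h : ∀ l, F l ≤ G l) :
    bav B n F ≤ bav B n G := by
  induction n generalizing F G with
  | zero => exact h []
  | succ n ih => exact wav_mono fun β _ => ih fun bs => h (β :: bs)

lemma bav_nonneg (B n : ℕ) {F : List (List α) → ℝ} (h : ∀ l, 0 ≤ F l) :
    0 ≤ bav B n F := by
  induction n generalizing F with
  | zero => exact h []
  | succ n ih => exact wav_nonneg fun β _ => ih fun bs => h (β :: bs)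

lemma norm_bav_le (B n : ℕ) (F : List (List α) → ℂ) :
    ‖bav B n F‖ ≤ bav B n fun l => ‖F l‖ := by
  induction n generalizing F with
  | zero => exact le_rfl
  | succ n ih => exact (norm_wav_le _ _).trans (wav_mono fun β _ => ih _)

lemma bav_sq_le [Nonempty α] (B n : ℕ) (F : List (List α) → ℝ) :
    (bav B n F) ^ 2 ≤ bav B n fun l => (F l) ^ 2 := by
  have h : 0 ≤ bav B n fun a => (F a - bav B n F) ^ 2 := bav_nonneg B n fun a => sq_nonneg _
  have h2 : (bav B n fun a => (F a - bav B n F) ^ 2) =
      (bav B n fun a => (F a) ^ 2) - (bav B n F) ^ 2 := by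
    have : (fun a => (F a - bav B n F) ^ 2) =
        fun a => ((F a) ^ 2 - (2 * bav B n F) • F a) + (bav B n F) ^ 2 := by
      funext a; simp only [smul_eq_mul]; ring
    rw [this, bav_add, bav_sub, bav_smul, bav_const]
    simp only [smul_eq_mul]; ring
  linarith

lemma bav_mul_left (B n : ℕ) (c : ℝ) (F : List (List α) → ℝ) :
    bav B n (fun l => c * F l) = c * bav B n F := bav_smul B n c F

end Bav

variable {κ : Type*} [Fintype κ] [DecidableEq κ]

/-- the contribution of the distinguished letters -/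
def zp : List (κ × Bool) → List (Option κ × Bool) → (Idx κ → ZMod 3)
  | _, [] => 0
  | h, (none, ε) :: l => sg ε • vv h + zp h l
  | h, (some j, ε) :: l => zp (h ++ [(j, ε)]) l

omit [Fintype κ] in
lemma zp_append (h : List (κ × Bool)) (β β' : List (Option κ × Bool)) :
    zp h (β ++ β') = zp h β + zp (h ++ strip β) β' := by
  induction β generalizing h with
  | nil => simp [zp, strip]
  | cons a l ih =>
    obtain ⟨o, ε⟩ := a
    cases o with
    | none => simp only [List.cons_append, zp, strip, ih, add_assoc]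
    | some j => simp only [List.cons_append, zp, strip, ih, List.append_assoc, List.nil_append]

omit [Fintype κ] in
lemma zp_map_inc (h u : List (κ × Bool)) : zp h (u.map inc) = 0 := by
  induction u generalizing h with
  | nil => rfl
  | cons a l ih => exact ih _

omit [Fintype κ] in
lemma zp_ins (h u : List (κ × Bool)) (T : ℕ) (ε : Bool) :
    zp h (ins u T ε) = sg ε • vv (h ++ u.take T) := by
  rw [ins, zp_append, zp_map_inc, strip_map_inc, zero_add]
  simp only [zp, zp_map_inc, add_zero]

/-- the averaging operator of a block -/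
noncomputable def Qb (b : ℕ) (h : List (κ × Bool)) (β : List (Option κ × Bool))
    (ψ : (Idx κ → ZMod 3) → ℂ) (z : Idx κ → ZMod 3) : ℂ :=
  if kc β = 1 then
    av fun T : Fin (b + 1) => av fun ε : Bool => ψ (z + sg ε • vv (h ++ (strip β).take T))
  else ψ (z + zp h β)

/-- the averaging operator of a list of blocks -/
noncomputable def Qs (b : ℕ) : List (κ × Bool) → List (List (Option κ × Bool)) →
    ((Idx κ → ZMod 3) → ℂ) → ((Idx κ → ZMod 3) → ℂ)
  | _, [], ψ => ψ
  | h, β :: bs, ψ => Qb b h β (Qs b (h ++ strip β) bs ψ)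

omit [Fintype κ] in
lemma Qs_add (b : ℕ) (h : List (κ × Bool)) (bs : List (List (Option κ × Bool)))
    (ψ ψ' : (Idx κ → ZMod 3) → ℂ) : Qs b h bs (ψ + ψ') = Qs b h bs ψ + Qs b h bs ψ' := by
  induction bs generalizing h with
  | nil => rfl
  | cons β bs ih =>
    funext z
    simp only [Qs, ih, Qb, Pi.add_apply]
    split_ifs
    · simp only [av_add]
    · rfl

omit [Fintype κ] in
lemma Qs_smul (b : ℕ) (h : List (κ × Bool)) (bs : List (List (Option κ × Bool)))
    (c : ℂ) (ψ : (Idx κ → ZMod 3) → ℂ) : Qs b h bs (c • ψ) = c • Qs b h bs ψ := by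
  have key : ∀ {α : Type} [Fintype α] (f : α → ℂ), av (fun a => c * f a) = c * av f := by
    intro α _ f
    unfold av
    rw [← Finset.mul_sum, Complex.real_smul, Complex.real_smul]; ring
  induction bs generalizing h with
  | nil => rfl
  | cons β bs ih =>
    funext z
    simp only [Qs, ih, Qb, Pi.smul_apply, smul_eq_mul]
    split_ifs
    · simp only [key]
    · rfl

omit [Fintype κ] in
lemma Qs_translate (b : ℕ) (h : List (κ × Bool)) (bs : List (List (Option κ × Bool)))
    (ψ : (Idx κ → ZMod 3) → ℂ) (z : Idx κ → ZMod 3) :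
    Qs b h bs ψ z = Qs b h bs (fun z' => ψ (z + z')) 0 := by
  induction bs generalizing h z ψ with
  | nil => simp [Qs]
  | cons β bs ih =>
    simp only [Qs, Qb]
    split_ifs
    · congr 1; funext T; congr 1; funext ε
      rw [ih, ih _ (fun z' => ψ (z + z'))]
      simp only [add_assoc, zero_add]
    · rw [ih, ih _ (fun z' => ψ (z + z'))]
      simp only [add_assoc, zero_add]

/-- the main identity: the distinguished letters of the good blocks can be resampled -/
lemma bav_resample [Nonempty κ] (b n : ℕ) (h : List (κ × Bool))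
    (Ψ : (Idx κ → ZMod 3) → List (κ × Bool) → ℂ) :
    bav (b + 1) n (fun bs => Ψ (zp h bs.flatten) (strip bs.flatten)) =
      bav (b + 1) n (fun bs => Qs b h bs (fun z => Ψ z (strip bs.flatten)) 0) := by
  induction n generalizing h Ψ with
  | zero => simp [Qs, zp, strip]
  | succ n ih =>
    rw [bav_succ, bav_succ]
    set Φ : (Idx κ → ZMod 3) → List (κ × Bool) → ℂ := fun z w =>
      bav (b + 1) n (fun bs => Qs b (h ++ w) bs (fun z' => Ψ (z + z') (w ++ strip bs.flatten)) 0)
      with hΦ
    have hL : (fun β : List (Option κ × Bool) => bav (b + 1) n fun bs =>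
        Ψ (zp h (β :: bs).flatten) (strip (β :: bs).flatten)) =
        fun β => Φ (zp h β) (strip β) := by
      funext β
      rw [hΦ]
      simp only [List.flatten_cons, zp_append, strip_append]
      exact ih (h ++ strip β) (fun z w => Ψ (zp h β + z) (strip β ++ w))
    have hR : (fun β : List (Option κ × Bool) => bav (b + 1) n fun bs =>
        Qs b h (β :: bs) (fun z => Ψ z (strip (β :: bs).flatten)) 0) =
        fun β => (if kc β = 1 then (av fun T : Fin (b + 1) => av fun ε : Bool =>
          Φ (sg ε • vv (h ++ (strip β).take T)) (strip β)) else 0) +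
          (if kc β = 1 then 0 else Φ (zp h β) (strip β)) := by
      funext β
      simp only [List.flatten_cons, strip_append, Qs, Qb]
      split_ifs with hβ
      · rw [add_zero, bav_av_comm]
        congr 1; funext T
        rw [bav_av_comm]
        congr 1; funext ε
        rw [hΦ]
        simp only
        congr 1; funext bs
        rw [Qs_translate, zero_add]
      · simp only [zero_add, hΦ]
        congr 1; funext bs
        rw [Qs_translate]
    rw [hL, hR, wav_add]
    have hsplit : wav (b + 1) (fun β => Φ (zp h β) (strip β)) =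
        wav (b + 1) (fun β => if kc β = 1 then Φ (zp h β) (strip β) else 0) +
        wav (b + 1) (fun β => if kc β = 1 then 0 else Φ (zp h β) (strip β)) := by
      rw [← wav_add]
      congr 1; funext β
      split_ifs <;> simp
    rw [hsplit, resample]
    simp only [zp_ins, strip_ins]

/-- squared modulus of the eigenvalues -/
noncomputable def wt (b : ℕ) (χ : Idx κ → ZMod 3) :
    List (κ × Bool) → List (List (Option κ × Bool)) → ℝ
  | _, [] => 1
  | h, β :: bs => (if kc β = 1 then nu b (shiftChi h χ) (strip β) ^ 2 else 1) *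
      wt b χ (h ++ strip β) bs

lemma wt_nonneg (b : ℕ) (χ : Idx κ → ZMod 3) (h : List (κ × Bool))
    (bs : List (List (Option κ × Bool))) : 0 ≤ wt b χ h bs := by
  induction bs generalizing h with
  | nil => exact zero_le_one
  | cons β bs ih =>
    simp only [wt]
    apply mul_nonneg _ (ih _)
    split_ifs
    · exact sq_nonneg _
    · exact zero_le_one

lemma av_sign (x : ZMod 3) : (av fun ε : Bool => e3 (x * sg ε)) = (cc x : ℂ) := by
  unfold av
  rw [Fintype.sum_bool, Fintype.card_bool]
  have := e3_add_neg x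
  simp only [sg, if_true, mul_one, Bool.false_eq_true, if_false, mul_neg]
  rw [this, Complex.real_smul]
  push_cast
  ring

lemma Qs_eigen (b : ℕ) (χ : Idx κ → ZMod 3) (h : List (κ × Bool))
    (bs : List (List (Option κ × Bool))) :
    ∃ c : ℂ, (∀ z, Qs b h bs (fun z => e3 (χ ⬝ᵥ z)) z = c * e3 (χ ⬝ᵥ z)) ∧
      ‖c‖ ^ 2 = wt b χ h bs := by
  induction bs generalizing h with
  | nil => exact ⟨1, fun z => by simp [Qs], by simp [wt]⟩
  | cons β bs ih =>
    obtain ⟨c, hc, hc'⟩ := ih (h ++ strip β)
    by_cases hβ : kc β = 1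
    · refine ⟨(nu b (shiftChi h χ) (strip β) : ℂ) * c, fun z => ?_, ?_⟩
      · simp only [Qs, Qb, if_pos hβ, hc]
        have h1 : ∀ (T : ℕ) (ε : Bool),
            c * e3 (χ ⬝ᵥ (z + sg ε • vv (h ++ (strip β).take T))) =
            c * e3 (χ ⬝ᵥ z) * e3 (phase (shiftChi h χ) ((strip β).take T) * sg ε) := by
          intro T ε
          rw [mul_assoc, ← e3_add, dotProduct_add, dotProduct_smul, smul_eq_mul]
          rw [← phase_shift, phase, mul_comm (sg ε)]
        have key : ∀ {α : Type} [Fintype α] (d : ℂ) (f : α → ℂ),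
            av (fun a => d * f a) = d * av f := by
          intro α _ d f
          unfold av
          rw [← Finset.mul_sum, Complex.real_smul, Complex.real_smul]; ring
        simp only [h1, key, av_sign]
        have h2 : (av fun T : Fin (b + 1) =>
            (cc (phase (shiftChi h χ) ((strip β).take T)) : ℂ)) =
            (nu b (shiftChi h χ) (strip β) : ℂ) := by
          have := av_map (E := ℝ) (E' := ℂ) (Complex.ofRealCLM.toLinearMap)
            (fun T : Fin (b + 1) => cc (phase (shiftChi h χ) ((strip β).take T)))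
          simp only [ContinuousLinearMap.coe_coe, Complex.ofRealCLM_apply] at this
          rw [← this]
          rfl
        rw [h2]
        ring
      · rw [norm_mul, mul_pow, hc', Complex.norm_real, Real.norm_eq_abs, sq_abs]
        simp only [wt, if_pos hβ]
    · refine ⟨e3 (χ ⬝ᵥ zp h β) * c, fun z => ?_, ?_⟩
      · simp only [Qs, Qb, if_neg hβ, hc]
        rw [dotProduct_add, e3_add]
        ring
      · rw [norm_mul, norm_e3, one_mul, hc']
        simp only [wt, if_neg hβ, one_mul]

omit [Fintype κ] in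
lemma Qs_one (b : ℕ) (h : List (κ × Bool)) (bs : List (List (Option κ × Bool))) :
    Qs b h bs (fun _ => 1) = fun _ => 1 := by
  induction bs generalizing h with
  | nil => rfl
  | cons β bs ih =>
    funext z
    simp only [Qs, Qb, ih, av_const, ite_self]

omit [Fintype κ] in
lemma norm_Qs_le (b : ℕ) (h : List (κ × Bool)) (bs : List (List (Option κ × Bool)))
    (ψ : (Idx κ → ZMod 3) → ℂ) (hψ : ∀ z, ‖ψ z‖ ≤ 1) (z : Idx κ → ZMod 3) :
    ‖Qs b h bs ψ z‖ ≤ 1 := by
  induction bs generalizing h z with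
  | nil => exact hψ z
  | cons β bs ih =>
    simp only [Qs, Qb]
    split_ifs
    · refine (norm_av_le _).trans (av_le fun T => ?_)
      exact (norm_av_le _).trans (av_le fun ε => ih _ _)
    · exact ih _ _

lemma Qs_bound (b : ℕ) (h : List (κ × Bool)) (bs : List (List (Option κ × Bool)))
    (ψ : (Idx κ → ZMod 3) → ℂ) (hψ : ∀ z, ‖ψ z‖ ≤ 1) :
    ‖Qs b h bs ψ 0 - av ψ‖ ≤ √(∑ χ with χ ≠ 0, wt b χ h bs) := by
  let T : ((Idx κ → ZMod 3) → ℂ) →ₗ[ℂ] ℂ :=
    { toFun := fun ψ => Qs b h bs ψ 0
      map_add' := fun ψ ψ' => by rw [Qs_add]; rfl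
      map_smul' := fun c ψ => by rw [Qs_smul]; rfl }
  have h1 := upper_bound T (by change Qs b h bs (fun _ => 1) 0 = 1; rw [Qs_one]) ψ hψ
  refine h1.trans (Real.sqrt_le_sqrt (le_of_eq ?_))
  apply Finset.sum_congr rfl
  intro χ _
  obtain ⟨c, hc, hc'⟩ := Qs_eigen b χ h bs
  change ‖Qs b h bs (fun z => e3 (χ ⬝ᵥ z)) 0‖ ^ 2 = _
  rw [hc 0, dotProduct_zero, e3_zero, mul_one, hc']

lemma norm_av_le_one {α : Type*} [Fintype α] [Nonempty α] (ψ : α → ℂ) (hψ : ∀ z, ‖ψ z‖ ≤ 1) :
    ‖av ψ‖ ≤ 1 := (norm_av_le _).trans (av_le hψ)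

lemma Qs_bound_two (b : ℕ) (h : List (κ × Bool)) (bs : List (List (Option κ × Bool)))
    (ψ : (Idx κ → ZMod 3) → ℂ) (hψ : ∀ z, ‖ψ z‖ ≤ 1) :
    ‖Qs b h bs ψ 0 - av ψ‖ ≤ 2 := by
  have h1 := norm_Qs_le b h bs ψ hψ 0
  have h2 := norm_av_le_one ψ hψ
  have h3 := norm_sub_le (Qs b h bs ψ 0) (av ψ)
  linarith

/-- number of good blocks -/
def gc : List (List (Option κ × Bool)) → ℕ
  | [] => 0
  | β :: bs => (if kc β = 1 then 1 else 0) + gc bs

omit [DecidableEq κ] in
lemma pg_eq [Nonempty κ] (b : ℕ) :
    wav (b + 1) (fun β : List (Option κ × Bool) => if kc β = 1 then (1 : ℝ) else 0) =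
      pg (Fintype.card κ) b := by
  rw [wav_good b (fun _ => (1 : ℝ))]
  simp only [av_const, wav_const, smul_eq_mul, mul_one]

lemma pg_nonneg (m b : ℕ) : 0 ≤ pg m b := by unfold pg; positivity

omit [DecidableEq κ] in
lemma bav_gc [Nonempty κ] (b n : ℕ) :
    bav (b + 1) n (fun bs : List (List (Option κ × Bool)) => (1 / 2 : ℝ) ^ gc bs) =
      (1 - pg (Fintype.card κ) b / 2) ^ n := by
  induction n with
  | zero => simp [gc]
  | succ n ih =>
    rw [bav_succ]
    have h1 : ∀ β : List (Option κ × Bool), bav (b + 1) n (fun bs =>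
        (1 / 2 : ℝ) ^ gc (β :: bs)) =
        (1 - (1 / 2) * (if kc β = 1 then (1 : ℝ) else 0)) *
          (1 - pg (Fintype.card κ) b / 2) ^ n := by
      intro β
      rw [← ih, ← bav_mul_left]
      congr 1
      funext bs
      simp only [gc, pow_add]
      split_ifs <;> norm_num
    simp only [h1]
    rw [wav_mul_right, wav_sub, wav_const, wav_mul_left, pg_eq, pow_succ]
    ring

lemma bav_wt [Nonempty κ] (b n : ℕ) (lam : ℝ) (hlam : 0 < lam) (χ : Idx κ → ZMod 3)
    (hχ : ∀ h, wav b (fun u => nu b (shiftChi h χ) u ^ 2) ≤ lam) (h : List (κ × Bool)) :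
    bav (b + 1) n (fun bs => (lam⁻¹) ^ gc bs * wt b χ h bs) ≤ 1 := by
  induction n generalizing h with
  | zero => simp [gc, wt]
  | succ n ih =>
    rw [bav_succ]
    have h1 : ∀ β : List (Option κ × Bool), bav (b + 1) n (fun bs =>
        (lam⁻¹) ^ gc (β :: bs) * wt b χ h (β :: bs)) ≤
        (if kc β = 1 then lam⁻¹ * nu b (shiftChi h χ) (strip β) ^ 2 else 0) +
          (1 - (if kc β = 1 then (1 : ℝ) else 0)) := by
      intro β
      have h2 : (fun bs => (lam⁻¹) ^ gc (β :: bs) * wt b χ h (β :: bs)) =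
          fun bs => ((if kc β = 1 then lam⁻¹ * nu b (shiftChi h χ) (strip β) ^ 2 else 0) +
          (1 - (if kc β = 1 then (1 : ℝ) else 0))) *
          ((lam⁻¹) ^ gc bs * wt b χ (h ++ strip β) bs) := by
        funext bs
        simp only [gc, wt, pow_add]
        split_ifs <;> ring
      rw [h2, bav_mul_left]
      have h3 := ih (h ++ strip β)
      have h4 : 0 ≤ (if kc β = 1 then lam⁻¹ * nu b (shiftChi h χ) (strip β) ^ 2 else 0) +
          (1 - (if kc β = 1 then (1 : ℝ) else 0)) := by
        split_ifs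
        · have := sq_nonneg (nu b (shiftChi h χ) (strip β))
          have h5 := inv_pos.mpr hlam
          nlinarith
        · norm_num
      nlinarith
    refine (wav_mono fun β _ => h1 β).trans ?_
    rw [wav_add, wav_sub, wav_const, pg_eq,
      wav_good b (fun β => lam⁻¹ * nu b (shiftChi h χ) (strip β) ^ 2)]
    simp only [strip_ins, av_const, smul_eq_mul]
    rw [wav_mul_left]
    have h6 := hχ h
    have h7 := pg_nonneg (Fintype.card κ) b
    have h8 : lam⁻¹ * wav b (fun u => nu b (shiftChi h χ) u ^ 2) ≤ 1 := by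
      rw [inv_mul_le_iff₀ hlam, mul_one]; exact h6
    nlinarith

/-- the bound for many blocks -/
theorem blocks_bound [Nonempty κ] (b n n₀ : ℕ) (lam : (κ → κ → ZMod 3) → ℝ)
    (hlam0 : ∀ Bm, 0 < lam Bm) (hlam1 : ∀ Bm, lam Bm ≤ 1)
    (hlam : ∀ χ : Idx κ → ZMod 3, χ ≠ 0 → wav b (fun u => nu b χ u ^ 2) ≤ lam (qpart χ))
    (Ψ : (Idx κ → ZMod 3) → List (κ × Bool) → ℂ) (hΨ : ∀ z w, ‖Ψ z w‖ ≤ 1) :
    ‖wav (n * (b + 1)) (fun β => Ψ (zp [] β) (strip β)) -
      wav (n * (b + 1)) (fun β => av fun z => Ψ z (strip β))‖ ≤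
      2 * 2 ^ n₀ * (1 - pg (Fintype.card κ) b / 2) ^ n +
        √(∑ χ : Idx κ → ZMod 3 with χ ≠ 0, (lam (qpart χ)) ^ n₀) := by
  rw [wav_mul_eq_bav, wav_mul_eq_bav, bav_resample, ← bav_sub]
  refine (norm_bav_le _ _ _).trans ?_
  set X : List (List (Option κ × Bool)) → ℝ := fun bs =>
    ∑ χ : Idx κ → ZMod 3 with χ ≠ 0,
      (lam (qpart χ)) ^ n₀ * (((lam (qpart χ))⁻¹) ^ gc bs * wt b χ [] bs) with hX
  have hX0 : ∀ bs, 0 ≤ X bs := fun bs => Finset.sum_nonneg fun χ _ => by
    have := wt_nonneg b χ [] bs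
    have h1 := hlam0 (qpart χ)
    positivity
  have hpt : ∀ bs : List (List (Option κ × Bool)),
      ‖Qs b [] bs (fun z => Ψ z (strip bs.flatten)) 0 - av fun z => Ψ z (strip bs.flatten)‖ ≤
      2 * 2 ^ n₀ * (1 / 2 : ℝ) ^ gc bs + √(X bs) := by
    intro bs
    by_cases hg : gc bs ≤ n₀
    · have h1 := Qs_bound_two b [] bs (fun z => Ψ z (strip bs.flatten)) (fun z => hΨ z _)
      have h2 : (1 : ℝ) ≤ 2 ^ n₀ * (1 / 2 : ℝ) ^ gc bs := by
        obtain ⟨k, hk⟩ := Nat.exists_eq_add_of_le hg
        rw [hk, pow_add, mul_comm ((2 : ℝ) ^ gc bs), mul_assoc, ← mul_pow]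
        norm_num
        exact one_le_pow₀ (by norm_num)
      have h3 := Real.sqrt_nonneg (X bs)
      nlinarith
    · push Not at hg
      have h1 := Qs_bound b [] bs (fun z => Ψ z (strip bs.flatten)) (fun z => hΨ z _)
      have h2 : √(∑ χ : Idx κ → ZMod 3 with χ ≠ 0, wt b χ [] bs) ≤ √(X bs) := by
        apply Real.sqrt_le_sqrt
        rw [hX]
        apply Finset.sum_le_sum
        intro χ _
        have h3 := wt_nonneg b χ [] bs
        have h4 := hlam0 (qpart χ)
        have h5 := hlam1 (qpart χ)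
        have h6 : 1 ≤ (lam (qpart χ)) ^ n₀ * ((lam (qpart χ))⁻¹) ^ gc bs := by
          obtain ⟨k, hk⟩ := Nat.exists_eq_add_of_le hg.le
          rw [hk, pow_add, ← mul_assoc, ← mul_pow, mul_inv_cancel₀ h4.ne', one_pow, one_mul]
          exact one_le_pow₀ ((one_le_inv₀ h4).mpr h5)
        nlinarith
      have h3 : (0 : ℝ) ≤ 2 * 2 ^ n₀ * (1 / 2 : ℝ) ^ gc bs := by positivity
      linarith
  refine (bav_mono _ _ hpt).trans ?_
  rw [bav_add, bav_mul_left, bav_gc]
  gcongr
  have h1 := bav_sq_le (b + 1) n (fun bs : List (List (Option κ × Bool)) => √(X bs))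
  have h2 : bav (b + 1) n (fun bs => √(X bs) ^ 2) ≤
      ∑ χ : Idx κ → ZMod 3 with χ ≠ 0, (lam (qpart χ)) ^ n₀ := by
    simp only [Real.sq_sqrt (hX0 _)]
    rw [hX]
    rw [bav_sum]
    apply Finset.sum_le_sum
    intro χ hχ
    rw [bav_mul_left]
    have h3 := bav_wt b n (lam (qpart χ)) (hlam0 _) χ (fun h => by
      have := hlam (shiftChi h χ) (shiftChi_ne_zero h χ (by simpa using hχ))
      rwa [qpart_shift] at this) []
    have h4 : 0 ≤ (lam (qpart χ)) ^ n₀ := pow_nonneg (hlam0 _).le _
    nlinarith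
  exact Real.le_sqrt_of_sq_le (h1.trans h2)

end MixBurnside
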