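import Pool.Agent.MP_3225a3_pr.Chain

/-! # Groups of exponent 3 (MP_3225a3_pr) -/

namespace MixBurnside

open Finset

section RingLemmas

variable {E : Type*} [Ring E]

lemma ring_anti {x y : E} (hx : x * x = 0) (hy : y * y = 0)
    (h : (x * y + x + y) * (x * y + x + y) = 0) : x * y + y * x = 0 := by
  have e1 : x * y * x * y + x * y * x + x * y + y * x * y + y * x = 0 := by
    have h1 : (x * y + x + y) * (x * y + x + y) =
        (x * y * x * y + x * y * x + x * y + y * x * y + y * x) +
        (x * (y * y) + (x * x) * y + x * x + y * y) := by noncomm_ring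
    rw [h1, hx, hy] at h
    simpa using h
  have e2 : x * y * x * y + x * y * x = 0 := by
    have h1 : x * (x * y * x * y + x * y * x + x * y + y * x * y + y * x) =
        (x * y * x * y + x * y * x) + ((x * x) * (y * x * y) + (x * x) * (y * x) + (x * x) * y) := by
      noncomm_ring
    rw [e1, hx] at h1
    simpa using h1.symm
  have e3 : x * y * x * y = 0 := by
    have h1 : (x * y * x * y + x * y * x) * y = x * y * x * y + x * y * x * (y * y) := by
      noncomm_ring
    rw [e2, hy] at h1
    simpa using h1.symm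
  have e4 : x * y * x = 0 := by simpa [e3] using e2
  have e5 : y * x * y = 0 := by
    have h1 : (x * y * x * y + x * y * x + x * y + y * x * y + y * x) * y =
        y * x * y + x * y * x * y + (x * y * x * (y * y) + x * (y * y) + y * x * (y * y)) := by
      noncomm_ring
    rw [e1, hy, e3] at h1
    simpa using h1.symm
  simpa [e3, e4, e5] using e1

lemma ring_triple {x y z : E} (h3 : (3 : E) = 0) (hxz : x * z + z * x = 0)
    (hyz : y * z + z * y = 0) (h : (x * y + x + y) * z + z * (x * y + x + y) = 0) :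
    x * y * z = 0 := by
  have h1 : (x * y + x + y) * z + z * (x * y + x + y) =
      (x * z + z * x) + (y * z + z * y) + (x * y * z + z * x * y) := by noncomm_ring
  rw [h1, hxz, hyz, zero_add, zero_add] at h
  have h2 : z * x * y = x * y * z := by
    have h4 : z * x = -(x * z) := by
      rw [eq_neg_iff_add_eq_zero, add_comm]; exact hxz
    have h5 : z * y = -(y * z) := by
      rw [eq_neg_iff_add_eq_zero, add_comm]; exact hyz
    rw [h4]
    have : -(x * z) * y = -(x * (z * y)) := by noncomm_ring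
    rw [this, h5]
    noncomm_ring
  rw [h2] at h
  have h6 : x * y * z = 3 * (x * y * z) - (x * y * z + x * y * z) := by noncomm_ring
  rw [h6, h, h3]
  simp

variable {G : Type*} [Group G]

lemma rep_sq (h3 : (3 : E) = 0) (ρ : G →* E) (hρ : ∀ g, ρ g * ρ g + ρ g + 1 = 0) (g : G) :
    (ρ g - 1) * (ρ g - 1) = 0 := by
  have h1 : (ρ g - 1) * (ρ g - 1) = (ρ g * ρ g + ρ g + 1) - 3 * ρ g := by noncomm_ring
  rw [h1, hρ, h3]; simp

lemma rep_mul (ρ : G →* E) (g h : G) :
    ρ (g * h) - 1 = (ρ g - 1) * (ρ h - 1) + (ρ g - 1) + (ρ h - 1) := by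
  rw [map_mul]; noncomm_ring

lemma rep_anti (h3 : (3 : E) = 0) (ρ : G →* E) (hρ : ∀ g, ρ g * ρ g + ρ g + 1 = 0) (g h : G) :
    (ρ g - 1) * (ρ h - 1) + (ρ h - 1) * (ρ g - 1) = 0 := by
  apply ring_anti (rep_sq h3 ρ hρ g) (rep_sq h3 ρ hρ h)
  rw [← rep_mul]
  exact rep_sq h3 ρ hρ (g * h)

lemma rep_triple (h3 : (3 : E) = 0) (ρ : G →* E) (hρ : ∀ g, ρ g * ρ g + ρ g + 1 = 0)
    (g h k : G) : (ρ g - 1) * (ρ h - 1) * (ρ k - 1) = 0 := by
  apply ring_triple h3 (rep_anti h3 ρ hρ g k) (rep_anti h3 ρ hρ h k)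
  rw [← rep_mul]
  exact rep_anti h3 ρ hρ (g * h) k

end RingLemmas

section Conj

universe u

variable {G : Type u} [Group G]

lemma conj_comm (h3 : ∀ g : G, g ^ 3 = 1) (x g : G) : x * (g * x * g⁻¹) = (g * x * g⁻¹) * x := by
  have hg : g * g * g = 1 := by have := h3 g; rwa [pow_succ, sq] at this
  have hginv : g⁻¹ = g * g := by
    rw [inv_eq_iff_mul_eq_one, ← mul_assoc]; exact hg
  have h1 : (x * g) * (x * g) * (x * g) = 1 := by have := h3 (x * g); rwa [pow_succ, sq] at this
  have h2 : (x * g⁻¹) * (x * g⁻¹) * (x * g⁻¹) = 1 := by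
    have := h3 (x * g⁻¹); rwa [pow_succ, sq] at this
  set p := g * x * g⁻¹ with hp
  set r := g⁻¹ * x * g with hr
  have e1 : x * (p * r) = 1 := by
    rw [← h1, hp, hr]
    have : x * (g * x * g⁻¹ * (g⁻¹ * x * g)) = x * g * x * (g⁻¹ * g⁻¹) * x * g := by group
    rw [this, hginv]
    have : g * g * (g * g) = g := by
      calc g * g * (g * g) = (g * g * g) * g := by group
        _ = g := by rw [hg, one_mul]
    rw [this]
    group
  have e2 : x * (r * p) = 1 := by
    rw [← h2, hp, hr]
    have : x * (g⁻¹ * x * g * (g * x * g⁻¹)) = x * g⁻¹ * x * (g * g) * x * g⁻¹ := by group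
    rw [this, ← hginv]
    group
  have e3 : p * r = x⁻¹ := eq_inv_of_mul_eq_one_right e1
  have e4 : r * p = x⁻¹ := eq_inv_of_mul_eq_one_right e2
  have e5 : p * x⁻¹ = x⁻¹ * p := by
    calc p * x⁻¹ = p * (r * p) := by rw [e4]
      _ = (p * r) * p := by group
      _ = x⁻¹ * p := by rw [e3]
  calc x * p = x * (p * x⁻¹) * x := by group
    _ = x * (x⁻¹ * p) * x := by rw [e5]
    _ = p * x := by group

lemma nc_comm (h3 : ∀ g : G, g ^ 3 = 1) (a : G) (x y : G)
    (hx : x ∈ Subgroup.normalClosure {a}) (hy : y ∈ Subgroup.normalClosure {a}) :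
    x * y = y * x := by
  have hconj : ∀ u ∈ Group.conjugatesOfSet ({a} : Set G), ∀ v ∈ Group.conjugatesOfSet ({a} : Set G),
      u * v = v * u := by
    intro u hu v hv
    rw [Group.mem_conjugatesOfSet_iff] at hu hv
    obtain ⟨a', ha', hu⟩ := hu
    obtain ⟨a'', ha'', hv⟩ := hv
    rw [Set.mem_singleton_iff] at ha' ha''
    rw [ha', isConj_iff] at hu
    rw [ha'', isConj_iff] at hv
    obtain ⟨c, rfl⟩ := hu
    obtain ⟨d, rfl⟩ := hv
    have h1 := conj_comm h3 a (c⁻¹ * d)
    calc c * a * c⁻¹ * (d * a * d⁻¹)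
        = c * (a * ((c⁻¹ * d) * a * (c⁻¹ * d)⁻¹)) * c⁻¹ := by group
      _ = c * (((c⁻¹ * d) * a * (c⁻¹ * d)⁻¹) * a) * c⁻¹ := by rw [h1]
      _ = d * a * d⁻¹ * (c * a * c⁻¹) := by group
  rw [Subgroup.normalClosure] at hx hy
  induction hx using Subgroup.closure_induction with
  | mem x hx =>
    induction hy using Subgroup.closure_induction with
    | mem y hy => exact hconj x hx y hy
    | one => simp
    | mul y z _ _ ih1 ih2 =>
      rw [← mul_assoc, ih1, mul_assoc, ih2, mul_assoc]
    | inv y _ ih =>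
      calc x * y⁻¹ = y⁻¹ * (y * x) * y⁻¹ := by group
        _ = y⁻¹ * (x * y) * y⁻¹ := by rw [ih]
        _ = y⁻¹ * x := by group
  | one => simp
  | mul x z _ _ ih1 ih2 =>
    rw [mul_assoc, ih2, ← mul_assoc, ih1, mul_assoc]
  | inv x _ ih =>
    calc x⁻¹ * y = x⁻¹ * (y * x) * x⁻¹ := by group
      _ = x⁻¹ * (x * y) * x⁻¹ := by rw [ih]
      _ = y * x⁻¹ := by group

/-- the normal closure of one element as a module with an action -/
lemma exists_module (h3 : ∀ g : G, g ^ 3 = 1) (a : G) :
    ∃ (V : Type u) (_ : AddCommGroup V) (i : V → G) (ρ : G →* AddMonoid.End V) (a₀ : V),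
      i a₀ = a ∧ i 0 = 1 ∧ (∀ v w, i (v + w) = i v * i w) ∧
      (∀ g v, i (ρ g v) = g * i v * g⁻¹) ∧ (∀ v : V, 3 • v = 0) ∧
      (∀ g, ρ g * ρ g + ρ g + 1 = 0) := by
  let N := Subgroup.normalClosure ({a} : Set G)
  let _ : CommGroup N :=
    { (inferInstance : Group N) with
      mul_comm := fun x y => Subtype.ext (nc_comm h3 a x y x.2 y.2) }
  have hn : N.Normal := Subgroup.normalClosure_normal
  let ρ₀ : G → AddMonoid.End (Additive N) := fun g =>
    AddMonoidHom.mk' (fun v => Additive.ofMul ⟨g * (v.toMul : N) * g⁻¹, hn.conj_mem _ v.toMul.2 g⟩)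
      (fun v w => by
        apply Additive.toMul.injective
        apply Subtype.ext
        change g * (((v.toMul : N) : G) * ((w.toMul : N) : G)) * g⁻¹ =
          (g * (v.toMul : N) * g⁻¹) * (g * (w.toMul : N) * g⁻¹)
        group)
  let ρ : G →* AddMonoid.End (Additive N) :=
    { toFun := ρ₀
      map_one' := by
        ext v
        change (1 : G) * ((v.toMul : N) : G) * (1 : G)⁻¹ = ((v.toMul : N) : G)
        group
      map_mul' := by
        intro g h
        ext v
        change (g * h) * ((v.toMul : N) : G) * (g * h)⁻¹ = g * (h * ((v.toMul : N) : G) * h⁻¹) * g⁻¹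
        group }
  refine ⟨Additive N, inferInstance, fun v => ((v.toMul : N) : G), ρ,
    Additive.ofMul ⟨a, Subgroup.subset_normalClosure rfl⟩, rfl, rfl, fun v w => rfl,
    fun g v => rfl, ?_, ?_⟩
  · intro v
    apply Additive.toMul.injective
    apply Subtype.ext
    change ((v.toMul ^ 3 : N) : G) = 1
    rw [Subgroup.coe_pow]
    exact h3 _
  · intro g
    ext v
    set x : G := ((v.toMul : N) : G) with hx
    have hxN : x ∈ N := v.toMul.2
    change (g * (g * x * g⁻¹) * g⁻¹) * (g * x * g⁻¹) * x = 1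
    have h1 : (x * g) * (x * g) * (x * g) = 1 := by have := h3 (x * g); rwa [pow_succ, sq] at this
    have hg : g * g * g = 1 := by have := h3 g; rwa [pow_succ, sq] at this
    have hp : g * x * g⁻¹ ∈ N := hn.conj_mem _ hxN g
    have hr : g * (g * x * g⁻¹) * g⁻¹ ∈ N := hn.conj_mem _ hp g
    have e1 : x * (g * x * g⁻¹) * (g * (g * x * g⁻¹) * g⁻¹) = 1 := by
      have : x * (g * x * g⁻¹) * (g * (g * x * g⁻¹) * g⁻¹) =
          ((x * g) * (x * g) * (x * g)) * (g * g * g)⁻¹ := by group
      rw [this, h1, hg]; simp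
    calc (g * (g * x * g⁻¹) * g⁻¹) * (g * x * g⁻¹) * x
        = x * ((g * (g * x * g⁻¹) * g⁻¹) * (g * x * g⁻¹)) :=
          (nc_comm h3 a _ _ hxN (N.mul_mem hr hp)).symm
      _ = x * ((g * x * g⁻¹) * (g * (g * x * g⁻¹) * g⁻¹)) := by rw [nc_comm h3 a _ _ hr hp]
      _ = 1 := by rw [← mul_assoc]; exact e1

end Conj

section Letters

variable {G : Type*} [Group G] {κ : Type*}

/-- the group element of a letter -/
def lt {ι : Type*} (s : ι → G) (ℓ : ι × Bool) : G := if ℓ.2 then s ℓ.1 else (s ℓ.1)⁻¹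

/-- the group element of a word -/
def W {ι : Type*} (s : ι → G) (l : List (ι × Bool)) : G := (l.map (lt s)).prod

lemma W_nil {ι : Type*} (s : ι → G) : W s [] = 1 := rfl

lemma W_cons {ι : Type*} (s : ι → G) (ℓ : ι × Bool) (l : List (ι × Bool)) :
    W s (ℓ :: l) = lt s ℓ * W s l := by simp [W]

lemma W_append {ι : Type*} (s : ι → G) (l l' : List (ι × Bool)) :
    W s (l ++ l') = W s l * W s l' := by simp [W]

variable [Fintype κ] [DecidableEq κ]

/-- the parametrisation of the normal closure of the distinguished generator -/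
theorem exists_L (h3 : ∀ g : G, g ^ 3 = 1) (s : Option κ → G) :
    ∃ L : (Idx κ → ZMod 3) → G, (∀ z w, L (z + w) = L z * L w) ∧
      L (vv []) = s none ∧
      ∀ (ℓ : κ × Bool) (z : Idx κ → ZMod 3),
        lt (fun j => s (some j)) ℓ * L z * (lt (fun j => s (some j)) ℓ)⁻¹ = L (actv ℓ z) := by
  obtain ⟨V, hV, i, ρ, a₀, hia, hi0, hiadd, hiρ, h3V, hρ⟩ := exists_module h3 (s none)
  let _ : Module (ZMod 3) V := AddCommGroup.zmodModule h3V
  have h3E : (3 : AddMonoid.End V) = 0 := by
    ext v
    have : (3 : AddMonoid.End V) v = 3 • v := by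
      have : (3 : AddMonoid.End V) = 1 + 1 + 1 := by norm_num
      rw [this]
      change v + v + v = 3 • v
      abel
    rw [this, h3V]
    rfl
  let α : κ → AddMonoid.End V := fun j => ρ (s (some j)) - 1
  have hα : ∀ j v, ρ (s (some j)) v = v + α j v := by
    intro j v
    change ρ (s (some j)) v = v + (ρ (s (some j)) v - v)
    abel
  have hαsq : ∀ j v, α j (α j v) = 0 := by
    intro j v
    have := rep_sq h3E ρ hρ (s (some j))
    exact DFunLike.congr_fun this v
  have hαtr : ∀ j k l v, α j (α k (α l v)) = 0 := by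
    intro j k l v
    have := rep_triple h3E ρ hρ (s (some j)) (s (some k)) (s (some l))
    exact DFunLike.congr_fun this v
  let g : Idx κ → V := fun x => match x with
    | Sum.inl _ => a₀
    | Sum.inr (Sum.inl j) => α j a₀
    | Sum.inr (Sum.inr (j, k)) => α j (α k a₀)
  have hsmul : ∀ (j : κ) (c : ZMod 3) (v : V), α j (c • v) = c • α j v := by
    intro j c v
    exact ZMod.map_smul (α j) c v
  have hLval : ∀ z : Idx κ → ZMod 3, Fintype.linearCombination (ZMod 3) g z =
      z iOne • a₀ + ∑ j, z (iLin j) • α j a₀ + ∑ j, ∑ k, z (iQuad j k) • α j (α k a₀) := by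
    intro z
    rw [Fintype.linearCombination_apply, Fintype.sum_sum_type, Fintype.sum_sum_type,
      Fintype.sum_prod_type]
    simp only [Finset.univ_unique, Finset.sum_singleton]
    rw [← add_assoc]
  -- one letter
  have hstep : ∀ (j : κ) (c : ZMod 3) (z : Idx κ → ZMod 3) (z' : Idx κ → ZMod 3)
      (_ : z' iOne = z iOne) (_ : ∀ k, z' (iLin k) = z (iLin k) + if k = j then c * z iOne else 0)
      (_ : ∀ k l, z' (iQuad k l) = z (iQuad k l) + if k = j then c * z (iLin l) else 0),
      Fintype.linearCombination (ZMod 3) g z' =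
        Fintype.linearCombination (ZMod 3) g z + c • α j (Fintype.linearCombination (ZMod 3) g z) := by
    intro j c z z' h1 h2 h3'
    rw [hLval, hLval]
    simp only [map_add, map_sum, hsmul, hαtr, smul_zero, Finset.sum_const_zero, add_zero, h1, h2,
      h3', add_smul, Finset.sum_add_distrib, ite_smul, zero_smul, smul_add, Finset.smul_sum]
    have e1 : ∑ x, (if x = j then (c * z iOne) • (α x) a₀ else 0) = c • z iOne • (α j) a₀ := by
      rw [Finset.sum_ite_eq' Finset.univ j, if_pos (Finset.mem_univ _), mul_smul]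
    have e2 : ∑ x, ∑ y, (if x = j then (c * z (iLin y)) • (α x) ((α y) a₀) else 0) =
        ∑ y, c • z (iLin y) • (α j) ((α y) a₀) := by
      rw [Finset.sum_comm]
      apply Finset.sum_congr rfl
      intro y _
      rw [Finset.sum_ite_eq' Finset.univ j, if_pos (Finset.mem_univ _), mul_smul]
    rw [e1, e2]
    abel
  refine ⟨fun z => i (Fintype.linearCombination (ZMod 3) g z), ?_, ?_, ?_⟩
  · intro z w
    beta_reduce
    rw [map_add, hiadd]
  · beta_reduce
    rw [hLval]
    have h1 : vv ([] : List (κ × Bool)) iOne = 1 := rfl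
    have h2 : ∀ j, vv ([] : List (κ × Bool)) (iLin j) = 0 := fun _ => rfl
    have h3' : ∀ j k, vv ([] : List (κ × Bool)) (iQuad j k) = 0 := fun _ _ => rfl
    simp only [h1, h2, h3', one_smul, zero_smul, Finset.sum_const_zero, add_zero]
    exact hia
  · intro ℓ z
    obtain ⟨j, ε⟩ := ℓ
    have hact := hstep j (sg ε) z (actv (j, ε) z) rfl (fun k => rfl) (fun k l => rfl)
    beta_reduce
    rw [hact]
    rw [← hiρ]
    congr 1
    cases ε with
    | true =>
      simp only [lt, if_true, sg, one_smul]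
      exact hα j _
    | false =>
      simp only [lt, sg, Bool.false_eq_true, if_false, neg_smul, one_smul]
      have hinv : (s (some j))⁻¹ = s (some j) * s (some j) := by
        rw [inv_eq_iff_mul_eq_one, ← mul_assoc]
        have := h3 (s (some j))
        rwa [pow_succ, sq] at this
      rw [hinv, map_mul]
      change ρ (s (some j)) (ρ (s (some j)) _) = _
      set v := Fintype.linearCombination (ZMod 3) g z
      rw [hα, hα, map_add, hαsq, add_zero]
      have h4 : 3 • (α j v) = 0 := h3V _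
      have h5 : α j v + α j v + α j v = 0 := by
        rw [← h4]; abel
      rw [← sub_eq_add_neg, eq_sub_iff_add_eq, add_assoc, add_assoc, ← add_assoc (α j v), h5,
        add_zero]

end Letters

end MixBurnside
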