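import Pool.Agent.MP_3225a3_pr.Burnside

/-! # The order of the mixing time (MP_3225a3_pr) -/

namespace MixBurnside

open Finset Filter

lemma exists_root (d : ℕ) : ∃ c : ℕ, c ^ 16 ≤ d ∧ d < (c + 1) ^ 16 := by
  have hex : ∃ k : ℕ, d < (k + 1) ^ 16 :=
    ⟨d, lt_of_lt_of_le (Nat.lt_succ_self d) (Nat.le_self_pow (by norm_num) _)⟩
  classical
  refine ⟨Nat.find hex, ?_, Nat.find_spec hex⟩
  rcases hc : Nat.find hex with _ | k
  · simp
  · have := Nat.find_min hex (m := k) (by rw [hc]; exact Nat.lt_succ_self k)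
    push Not at this
    exact this

lemma le_cube_div_log {x : ℝ} (hx : 2 ≤ x) : x ≤ x ^ 3 / Real.log x := by
  have hlog : 0 < Real.log x := Real.log_pos (by linarith)
  have hlogle : Real.log x ≤ x := log_le_self' (by linarith)
  rw [le_div_iff₀ hlog]
  have h1 := mul_le_mul_of_nonneg_left hlogle (show (0 : ℝ) ≤ x by linarith)
  have h2 : x * x ≤ x ^ 3 := by nlinarith [sq_nonneg x]
  linarith

/-- upper bound -/
lemma upper_tv (d : ℕ) (hd : (cstar + 1) ^ 16 ≤ d) :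
    ∃ t : ℕ, (t : ℝ) ≤ 324000 * ((d : ℝ) ^ 3 / Real.log d) ∧
      tv (law d t) (unif d) ≤ 2 * d * Real.exp (-((d : ℝ) / 2)) := by
  obtain ⟨c, hc1, hc2⟩ := exists_root d
  have hc : cstar ≤ c := by
    have h1 : (cstar + 1) ^ 16 < (c + 1) ^ 16 := lt_of_le_of_lt hd hc2
    have h2 : cstar + 1 < c + 1 := lt_of_pow_lt_pow_left₀ 16 (Nat.zero_le _) h1
    omega
  have hcpos : 2 ≤ c := by unfold cstar at hc; omega
  have hd2 : 2 ≤ d := le_trans (le_trans hcpos (Nat.le_self_pow (by norm_num) c)) hc1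
  obtain ⟨m, rfl⟩ : ∃ m, d = m + 1 := ⟨d - 1, by omega⟩
  have hm : 0 < m := by omega
  have hc3 : m + 1 ≤ (2 * c) ^ 16 := by
    refine le_trans hc2.le (Nat.pow_le_pow_left (by omega) 16)
  set x : ℝ := ((m + 1 : ℕ) : ℝ) with hx
  have hx1 : x = (m : ℝ) + 1 := by rw [hx]; push_cast; ring
  have hx2 : (2 : ℝ) ≤ x := by rw [hx]; exact_mod_cast hd2
  have hlog : 0 < Real.log x := Real.log_pos (by linarith)
  have hlogle : Real.log x ≤ x := log_le_self' (by linarith)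
  obtain ⟨n₀, hn1', hn2⟩ : ∃ n₀ : ℕ, 80 * x ^ 2 / Real.log x ≤ n₀ ∧
      (n₀ : ℝ) ≤ 80 * x ^ 2 / Real.log x + 1 :=
    ⟨⌈80 * x ^ 2 / Real.log x⌉₊, Nat.le_ceil _, (Nat.ceil_lt_add_one (by positivity)).le⟩
  have hn1 : 80 * ((m : ℝ) + 1) ^ 2 / Real.log ((m : ℝ) + 1) ≤ n₀ := by
    rw [← hx1]; exact hn1'
  refine ⟨1000 * n₀ * (4 * m + 1), ?_, ?_⟩
  · push_cast
    have h1 : (4 * (m : ℝ) + 1) ≤ 4 * x := by rw [hx1]; linarith
    have h2 : x ≤ x ^ 3 / Real.log x := le_cube_div_log hx2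
    calc 1000 * (n₀ : ℝ) * (4 * m + 1)
        ≤ 1000 * (80 * x ^ 2 / Real.log x + 1) * (4 * x) := by gcongr
      _ = 320000 * (x ^ 3 / Real.log x) + 4000 * x := by
          field_simp; ring
      _ ≤ 324000 * (x ^ 3 / Real.log x) := by linarith
  · have h1 := tv_le (m + 1) (1000 * n₀ * (4 * m + 1))
      (((m : ℝ) + 1) * (4 * Real.exp (-(((m : ℝ) + 1) / 2))))
      (fun f hf => upper_test c hc m hm hc1 hc3 n₀ hn1 B3_cube (gen (m + 1))
        (closure_gen (m + 1)) f hf)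
    refine h1.trans (le_of_eq ?_)
    rw [hx1]
    ring

/-- lower bound -/
lemma lower_tv (d : ℕ) (hd : 21 ≤ d) (t : ℕ)
    (ht : (t : ℝ) ≤ 1 / 864 * ((d : ℝ) ^ 3 / Real.log d)) :
    1 - Real.exp (-(d : ℝ)) ≤ tv (law d t) (unif d) := by
  refine le_trans ?_ (tv_lower d (by omega) t)
  have hx : (21 : ℝ) ≤ d := by exact_mod_cast hd
  have hlog : 0 < Real.log d := Real.log_pos (by linarith)
  have hN : (0 : ℝ) < Nat.card (B3 d) := by exact_mod_cast Nat.card_pos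
  have h1 : (2 * (d : ℝ)) ^ t ≤ Real.exp ((d : ℝ) ^ 3 / 432) := by
    rw [← Real.exp_log (show (0 : ℝ) < 2 * d by positivity), ← Real.exp_nat_mul]
    apply Real.exp_le_exp.mpr
    have h2 : Real.log (2 * d) ≤ 2 * Real.log d := by
      have : 2 * Real.log (d : ℝ) = Real.log ((d : ℝ) ^ 2) := by rw [Real.log_pow]; norm_num
      rw [this]
      apply Real.log_le_log (by positivity)
      nlinarith
    have h20 : 0 ≤ Real.log (2 * d) := Real.log_nonneg (by linarith)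
    calc (t : ℝ) * Real.log (2 * d) ≤ (1 / 864 * ((d : ℝ) ^ 3 / Real.log d)) * (2 * Real.log d) :=
          mul_le_mul ht h2 h20 (by positivity)
      _ = (d : ℝ) ^ 3 / 432 := by field_simp; ring
  have h2 : Real.exp ((d : ℝ) ^ 3 / 216) ≤ Nat.card (B3 d) := by
    have hr : 3 * (d / 3) ≤ d := Nat.mul_div_le d 3
    have h3 := card_lower d (d / 3) hr
    have h4 : (d : ℝ) / 6 ≤ ((d / 3 : ℕ) : ℝ) := by
      have : d ≤ 3 * (d / 3) + 2 := by omega
      have h5 : (d : ℝ) ≤ 3 * ((d / 3 : ℕ) : ℝ) + 2 := by exact_mod_cast this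
      linarith
    have h6 : (d : ℝ) ^ 3 / 216 ≤ (((d / 3) ^ 3 : ℕ) : ℝ) := by
      push_cast
      calc (d : ℝ) ^ 3 / 216 = ((d : ℝ) / 6) ^ 3 := by ring
        _ ≤ _ := pow_le_pow_left₀ (by positivity) h4 3
    calc Real.exp ((d : ℝ) ^ 3 / 216) ≤ Real.exp (((d / 3) ^ 3 : ℕ) : ℝ) :=
          Real.exp_le_exp.mpr h6
      _ = Real.exp 1 ^ ((d / 3) ^ 3) := by rw [← Real.exp_nat_mul, mul_one]
      _ ≤ 3 ^ ((d / 3) ^ 3) := by
          apply pow_le_pow_left₀ (Real.exp_pos _).le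
          have := Real.exp_one_lt_d9
          linarith
      _ ≤ Nat.card (B3 d) := by exact_mod_cast h3
  have h3 : (2 * (d : ℝ)) ^ t / Nat.card (B3 d) ≤ Real.exp (-(d : ℝ)) := by
    rw [div_le_iff₀ hN]
    calc (2 * (d : ℝ)) ^ t ≤ Real.exp ((d : ℝ) ^ 3 / 432) := h1
      _ ≤ Real.exp (-(d : ℝ) + (d : ℝ) ^ 3 / 216) := by
          apply Real.exp_le_exp.mpr
          have : (d : ℝ) * 432 ≤ d ^ 3 := by
            have : (441 : ℝ) ≤ (d : ℝ) ^ 2 := by nlinarith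
            nlinarith
          linarith
      _ = Real.exp (-(d : ℝ)) * Real.exp ((d : ℝ) ^ 3 / 216) := Real.exp_add _ _
      _ ≤ Real.exp (-(d : ℝ)) * Nat.card (B3 d) := by gcongr
  linarith

/-- the order of the mixing time, with the same constants for all levels -/
theorem main : ∃ c C : ℝ, 0 < c ∧ 0 < C ∧ ∀ ε : ℝ, 0 < ε → ε < 1 →
    ∀ᶠ d : ℕ in atTop, c * ((d : ℝ) ^ 3 / Real.log d) ≤ tmix d ε ∧
      (tmix d ε : ℝ) ≤ C * ((d : ℝ) ^ 3 / Real.log d) := by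
  refine ⟨1 / 864, 324000, by norm_num, by norm_num, fun ε hε0 hε1 => ?_⟩
  have hlim1 : Tendsto (fun d : ℕ => 2 * (d : ℝ) * Real.exp (-((d : ℝ) / 2))) atTop (nhds 0) := by
    have h1 := Real.tendsto_pow_mul_exp_neg_atTop_nhds_zero 1
    have h2 : Tendsto (fun d : ℕ => (d : ℝ) / 2) atTop atTop :=
      tendsto_natCast_atTop_atTop.atTop_div_const (by norm_num)
    have h3 := (h1.comp h2).const_mul 4
    rw [mul_zero] at h3
    refine h3.congr fun d => ?_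
    simp only [Function.comp_apply]
    ring
  have hlim2 : Tendsto (fun d : ℕ => Real.exp (-(d : ℝ))) atTop (nhds 0) :=
    (Real.tendsto_exp_neg_atTop_nhds_zero).comp tendsto_natCast_atTop_atTop
  have e1 : ∀ᶠ d : ℕ in atTop, 2 * (d : ℝ) * Real.exp (-((d : ℝ) / 2)) < ε :=
    hlim1.eventually_lt_const hε0
  have e2 : ∀ᶠ d : ℕ in atTop, Real.exp (-(d : ℝ)) < 1 - ε :=
    hlim2.eventually_lt_const (by linarith)
  filter_upwards [e1, e2, eventually_ge_atTop ((cstar + 1) ^ 16), eventually_ge_atTop 21]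
    with d h1 h2 h3 h4
  obtain ⟨t, ht1, ht2⟩ := upper_tv d h3
  have hmem : t ∈ {t : ℕ | tv (law d t) (unif d) ≤ ε} := ht2.trans h1.le
  have hT : tmix d ε ≤ t := Nat.sInf_le hmem
  have hTmem : tv (law d (tmix d ε)) (unif d) ≤ ε := Nat.sInf_mem ⟨t, hmem⟩
  constructor
  · by_contra hcon
    push Not at hcon
    have := lower_tv d h4 (tmix d ε) hcon.le
    linarith
  · have : (tmix d ε : ℝ) ≤ t := by exact_mod_cast hT
    linarith

end MixBurnside
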