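import Pool.Agent.MP_3225a3_pr.Words

/-! # Fourier analysis on `ι → ZMod 3` (MP_3225a3_pr) -/

namespace MixBurnside

open Finset Complex

/-- the standard character of `ZMod 3` -/
noncomputable def e3 : AddChar (ZMod 3) ℂ := ZMod.stdAddChar

lemma norm_e3 (x : ZMod 3) : ‖e3 x‖ = 1 := by
  rw [e3, ZMod.stdAddChar_apply]; exact Circle.norm_coe _

lemma e3_zero : e3 0 = 1 := AddChar.map_zero_eq_one _

lemma e3_add (x y : ZMod 3) : e3 (x + y) = e3 x * e3 y := AddChar.map_add_eq_mul _ _ _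

lemma e3_neg (x : ZMod 3) : e3 (-x) = (starRingEnd ℂ) (e3 x) := by
  have h1 : e3 (-x) * e3 x = 1 := by rw [← e3_add]; simp
  have h2 : (starRingEnd ℂ) (e3 x) * e3 x = 1 := by
    rw [mul_comm, Complex.mul_conj, Complex.normSq_eq_norm_sq, norm_e3]; simp
  have h3 : e3 x ≠ 0 := by
    intro h; have := norm_e3 x; rw [h] at this; simp at this
  exact mul_right_cancel₀ h3 (h1.trans h2.symm)

lemma e3_sum : ∑ x : ZMod 3, e3 x = 0 := by
  have := AddChar.sum_eq_zero_of_ne_one (ψ := e3) (by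
    intro h
    have h1 := ZMod.injective_stdAddChar (N := 3)
    have h2 : (ZMod.stdAddChar (1 : ZMod 3) : ℂ) = ZMod.stdAddChar (0 : ZMod 3) := by
      have : ∀ x, (ZMod.stdAddChar (N := 3) x : ℂ) = 1 := fun x => by
        have := congrArg (fun f : AddChar (ZMod 3) ℂ => f x) h
        simpa [e3] using this
      rw [this, this]
    exact absurd (h1 h2) (by decide))
  exact this

/-- the real part of the character -/
noncomputable def cc (x : ZMod 3) : ℝ := if x = 0 then 1 else -1 / 2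

lemma e3_add_neg (x : ZMod 3) : e3 x + e3 (-x) = 2 * (cc x : ℂ) := by
  have hs := e3_sum
  rw [show (∑ x : ZMod 3, e3 x) = e3 0 + e3 1 + e3 2 from Fin.sum_univ_three _] at hs
  rw [e3_zero] at hs
  have h0 : e3 (0 : ZMod 3) = 1 := e3_zero
  have key : e3 (1 : ZMod 3) + e3 2 = -1 := by linear_combination hs
  fin_cases x
  · change e3 (0 : ZMod 3) + e3 (-(0 : ZMod 3)) = 2 * (cc 0 : ℂ)
    simp [cc, h0]; norm_num
  · change e3 (1 : ZMod 3) + e3 (-(1 : ZMod 3)) = 2 * (cc 1 : ℂ)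
    rw [show (-(1 : ZMod 3)) = 2 by decide, key, cc, if_neg (by decide)]
    push_cast; ring
  · change e3 (2 : ZMod 3) + e3 (-(2 : ZMod 3)) = 2 * (cc 2 : ℂ)
    rw [show (-(2 : ZMod 3)) = 1 by decide, add_comm, key, cc, if_neg (by decide)]
    push_cast; ring

lemma cc_eq_re (x : ZMod 3) : cc x = (e3 x).re := by
  have h := e3_add_neg x
  rw [e3_neg, Complex.add_conj] at h
  have := congrArg Complex.re h
  simp at this
  linarith

lemma cc_le_one (x : ZMod 3) : cc x ≤ 1 := by unfold cc; split_ifs <;> norm_num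

lemma neg_half_le_cc (x : ZMod 3) : -1 / 2 ≤ cc x := by unfold cc; split_ifs <;> norm_num

lemma abs_cc_le (x : ZMod 3) : |cc x| ≤ 1 := by
  rw [abs_le]; exact ⟨by linarith [neg_half_le_cc x], cc_le_one x⟩

variable {ι : Type*} [Fintype ι] [DecidableEq ι]

omit [Fintype ι] [DecidableEq ι] in
lemma map_sum_e3 (s : Finset ι) (f : ι → ZMod 3) : e3 (∑ i ∈ s, f i) = ∏ i ∈ s, e3 (f i) := by
  classical
  induction s using Finset.induction_on with
  | empty => simp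
  | insert a s ha ih => rw [Finset.sum_insert ha, Finset.prod_insert ha, e3_add, ih]

/-- orthogonality of characters -/
lemma sum_e3_dot (z : ι → ZMod 3) :
    ∑ χ : ι → ZMod 3, e3 (χ ⬝ᵥ z) = if z = 0 then (3 : ℂ) ^ Fintype.card ι else 0 := by
  have h1 : ∀ χ : ι → ZMod 3, e3 (χ ⬝ᵥ z) = ∏ i, e3 (χ i * z i) := by
    intro χ
    rw [dotProduct]
    exact map_sum_e3 _ _
  simp only [h1]
  have h2 : ∑ χ : ι → ZMod 3, ∏ i, e3 (χ i * z i) = ∏ i, ∑ c : ZMod 3, e3 (c * z i) := by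
    rw [Finset.prod_univ_sum, Fintype.piFinset_univ]
  rw [h2]
  have h3 : ∀ y : ZMod 3, ∑ c : ZMod 3, e3 (c * y) = if y = 0 then (3 : ℂ) else 0 := by
    intro y
    split_ifs with hy
    · subst hy; simp
    · rw [← e3_sum]
      exact Fintype.sum_bijective (fun c => c * y) (mulRight_bijective₀ y hy) _ _ (fun _ => rfl)
  simp only [h3]
  split_ifs with hz
  · subst hz; simp
  · obtain ⟨i, hi⟩ := Function.ne_iff.mp hz
    exact Finset.prod_eq_zero (Finset.mem_univ i) (by simpa using hi)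

/-- the Fourier coefficient -/
noncomputable def fhat (ψ : (ι → ZMod 3) → ℂ) (χ : ι → ZMod 3) : ℂ :=
  av fun w => ψ w * e3 (-(χ ⬝ᵥ w))

lemma card_M : (Fintype.card (ι → ZMod 3) : ℂ) = 3 ^ Fintype.card ι := by
  rw [Fintype.card_fun, ZMod.card]; push_cast; rfl

lemma fourier_inv (ψ : (ι → ZMod 3) → ℂ) (z : ι → ZMod 3) :
    ψ z = ∑ χ, fhat ψ χ * e3 (χ ⬝ᵥ z) := by
  have h1 : ∀ χ, fhat ψ χ * e3 (χ ⬝ᵥ z) =
      (3 ^ Fintype.card ι : ℂ)⁻¹ * ∑ w, ψ w * e3 (χ ⬝ᵥ (z - w)) := by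
    intro χ
    rw [fhat, av, Complex.real_smul]
    push_cast
    rw [card_M, mul_assoc, Finset.sum_mul]
    congr 1
    apply Finset.sum_congr rfl
    intro w _
    rw [mul_assoc, ← e3_add, dotProduct_sub]
    congr 2
    ring
  simp only [h1, ← Finset.mul_sum]
  rw [Finset.sum_comm]
  simp only [← Finset.mul_sum, sum_e3_dot]
  rw [Finset.sum_eq_single z]
  · rw [if_pos (sub_self z)]
    have : (3 : ℂ) ^ Fintype.card ι ≠ 0 := pow_ne_zero _ (by norm_num)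
    field_simp
  · intro w _ hw
    rw [if_neg (sub_ne_zero.mpr hw.symm), mul_zero]
  · intro h; exact absurd (Finset.mem_univ z) h

lemma parseval (ψ : (ι → ZMod 3) → ℂ) :
    ∑ χ, ‖fhat ψ χ‖ ^ 2 = av fun w => ‖ψ w‖ ^ 2 := by
  have key : (∑ χ, (fhat ψ χ) * (starRingEnd ℂ) (fhat ψ χ)) =
      (3 ^ Fintype.card ι : ℂ)⁻¹ * ∑ w, ψ w * (starRingEnd ℂ) (ψ w) := by
    have h1 : ∀ χ, (fhat ψ χ) * (starRingEnd ℂ) (fhat ψ χ) =
        (3 ^ Fintype.card ι : ℂ)⁻¹ * ∑ w, (starRingEnd ℂ) (ψ w) * (fhat ψ χ * e3 (χ ⬝ᵥ w)) := by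
      intro χ
      conv_lhs => rw [fhat, av, Complex.real_smul]
      simp only [map_mul, map_sum, Complex.conj_ofReal]
      push_cast
      rw [card_M]
      simp only [← e3_neg, neg_neg]
      have h0 : fhat ψ χ = (3 ^ Fintype.card ι : ℂ)⁻¹ * ∑ w, ψ w * e3 (-(χ ⬝ᵥ w)) := by
        rw [fhat, av, Complex.real_smul]; push_cast; rw [card_M]
      rw [h0]
      have h2 : ∑ x, (starRingEnd ℂ) (ψ x) * ((3 ^ Fintype.card ι : ℂ)⁻¹ *
          (∑ w, ψ w * e3 (-(χ ⬝ᵥ w))) * e3 (χ ⬝ᵥ x)) = ((3 ^ Fintype.card ι : ℂ)⁻¹ *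
          (∑ w, ψ w * e3 (-(χ ⬝ᵥ w)))) * ∑ x, (starRingEnd ℂ) (ψ x) * e3 (χ ⬝ᵥ x) := by
        generalize (∑ w, ψ w * e3 (-(χ ⬝ᵥ w))) = A
        rw [Finset.mul_sum]
        apply Finset.sum_congr rfl
        intro x _
        ring
      rw [h2]
      ring
    simp only [h1, ← Finset.mul_sum]
    rw [Finset.sum_comm]
    simp only [← Finset.mul_sum, ← fourier_inv]
    congr 1
    apply Finset.sum_congr rfl
    intro w _
    ring
  simp only [Complex.mul_conj, Complex.normSq_eq_norm_sq] at key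
  rw [av, smul_eq_mul]
  have h3 : ((Fintype.card (ι → ZMod 3) : ℝ) : ℂ) = 3 ^ Fintype.card ι := by
    exact_mod_cast card_M (ι := ι)
  apply Complex.ofReal_injective
  push_cast
  push_cast at key
  rw [key]
  have h4 := card_M (ι := ι)
  rw [h4]

lemma sum_norm_fhat_le (ψ : (ι → ZMod 3) → ℂ) (hψ : ∀ z, ‖ψ z‖ ≤ 1) :
    ∑ χ, ‖fhat ψ χ‖ ^ 2 ≤ 1 := by
  rw [parseval]
  apply av_le
  intro z
  have := hψ z
  have h0 := norm_nonneg (ψ z)
  nlinarith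

/-- the upper bound lemma -/
lemma upper_bound (T : ((ι → ZMod 3) → ℂ) →ₗ[ℂ] ℂ) (h1 : T (fun _ => 1) = 1)
    (ψ : (ι → ZMod 3) → ℂ) (hψ : ∀ z, ‖ψ z‖ ≤ 1) :
    ‖T ψ - av ψ‖ ≤ √(∑ χ with χ ≠ 0, ‖T (fun z => e3 (χ ⬝ᵥ z))‖ ^ 2) := by
  have hdec : ψ = ∑ χ, fhat ψ χ • (fun z => e3 (χ ⬝ᵥ z)) := by
    funext z
    rw [Finset.sum_apply]
    simp only [Pi.smul_apply, smul_eq_mul]
    exact fourier_inv ψ z
  have hT : T ψ = ∑ χ, fhat ψ χ * T (fun z => e3 (χ ⬝ᵥ z)) := by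
    conv_lhs => rw [hdec]
    rw [map_sum]
    simp only [map_smul, smul_eq_mul]
  have h0 : fhat ψ 0 * T (fun z => e3 ((0 : ι → ZMod 3) ⬝ᵥ z)) = av ψ := by
    have : (fun z : ι → ZMod 3 => e3 ((0 : ι → ZMod 3) ⬝ᵥ z)) = fun _ => 1 := by
      funext z; simp
    rw [this, h1, mul_one, fhat]
    congr 1
    funext w
    simp
  have hdiff : T ψ - av ψ = ∑ χ with χ ≠ 0, fhat ψ χ * T (fun z => e3 (χ ⬝ᵥ z)) := by
    rw [hT, ← h0, ← Finset.add_sum_erase Finset.univ _ (Finset.mem_univ 0), add_sub_cancel_left]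
    apply Finset.sum_congr _ (fun _ _ => rfl)
    ext χ; simp
  rw [hdiff]
  calc ‖∑ χ with χ ≠ 0, fhat ψ χ * T (fun z => e3 (χ ⬝ᵥ z))‖
      ≤ ∑ χ with χ ≠ 0, ‖fhat ψ χ‖ * ‖T (fun z => e3 (χ ⬝ᵥ z))‖ := by
        refine (norm_sum_le _ _).trans (Finset.sum_le_sum fun χ _ => ?_)
        rw [norm_mul]
    _ ≤ √(∑ χ with χ ≠ 0, ‖fhat ψ χ‖ ^ 2) *
          √(∑ χ with χ ≠ 0, ‖T (fun z => e3 (χ ⬝ᵥ z))‖ ^ 2) :=
        Real.sum_mul_le_sqrt_mul_sqrt _ _ _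
    _ ≤ 1 * √(∑ χ with χ ≠ 0, ‖T (fun z => e3 (χ ⬝ᵥ z))‖ ^ 2) := by
        apply mul_le_mul_of_nonneg_right _ (Real.sqrt_nonneg _)
        rw [Real.sqrt_le_one]
        refine le_trans ?_ (sum_norm_fhat_le ψ hψ)
        exact Finset.sum_le_sum_of_subset_of_nonneg (Finset.filter_subset _ _)
          (fun _ _ _ => sq_nonneg _)
    _ = _ := one_mul _

end MixBurnside
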