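import Pool.Agent.MP_3225a3_pr.Rank

/-! # One-block bound, characters of high rank (MP_3225a3_pr) -/

namespace MixBurnside

open Finset Complex

variable {κ : Type*} [Fintype κ] [DecidableEq κ]

omit [DecidableEq κ] in
lemma abs_wav_cc_le (N : ℕ) (f : List (κ × Bool) → ZMod 3) :
    |wav N (fun l => cc (f l))| ≤ ‖wav N (fun l => e3 (f l))‖ := by
  have h := wav_map (E := ℂ) (E' := ℝ) Complex.reLm N (fun l => e3 (f l))
  simp only [Complex.reLm_coe] at h
  have : (fun l => cc (f l)) = fun l => (e3 (f l)).re := by funext l; exact cc_eq_re _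
  rw [this, ← h]
  exact Complex.abs_re_le_norm _

omit [Fintype κ] [DecidableEq κ] in
lemma take_take_of_le (T T' : ℕ) (h : T ≤ T') (u : List (κ × Bool)) :
    (u.take T').take T = u.take T := by
  rw [List.take_take, min_eq_left h]

lemma pair_bound [Nonempty κ] (Bm : κ → κ → ZMod 3) (n : ℕ) (η : ℝ) (hη0 : 0 ≤ η)
    (hη : ∀ y₀ : κ → ZMod 3,
      wav n (fun l : List (κ × Bool) => ‖mm (yB Bm l - y₀)‖ ^ n) ≤ η ^ 2)
    (χ : Idx κ → ZMod 3) (hχ : qpart χ = Bm) (b T T' : ℕ) (h1 : T + 2 * n ≤ T') (h2 : T' ≤ b) :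
    wav b (fun u => cc (phase χ (u.take T)) * cc (phase χ (u.take T'))) ≤ η := by
  have hG : (fun u : List (κ × Bool) => cc (phase χ (u.take T)) * cc (phase χ (u.take T'))) =
      fun u => (fun l => cc (phase χ (l.take T)) * cc (phase χ l)) (u.take T') := by
    funext u
    simp only [take_take_of_le T T' (by omega) u]
  rw [hG, wav_take h2 (fun l => cc (phase χ (l.take T)) * cc (phase χ l))]
  obtain ⟨g, rfl⟩ := Nat.exists_eq_add_of_le (show T ≤ T' by omega)
  rw [wav_append]
  have h3 : wav T (fun l : List (κ × Bool) => wav g (fun l' =>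
      cc (phase χ ((l ++ l').take T)) * cc (phase χ (l ++ l')))) =
      wav T (fun l => cc (phase χ l) * wav g (fun l' => cc (phase (shiftChi l χ) l'))) := by
    apply wav_congr
    intro l hl
    rw [← wav_mul_left]
    congr 1
    funext l'
    rw [phase_shift, ← hl, List.take_left']
    rfl
  rw [h3]
  apply wav_le
  intro l _
  refine (le_abs_self _).trans ?_
  rw [abs_mul]
  have h4 := abs_cc_le (phase χ l)
  have h5 := abs_wav_cc_le g (phase (shiftChi l χ))
  have h6 := cs_bound' Bm n n η hη hη0 (shiftChi l χ) (by rw [qpart_shift, hχ]) g (by omega)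
  calc |cc (phase χ l)| * |wav g (fun l' => cc (phase (shiftChi l χ) l'))|
      ≤ 1 * η := mul_le_mul h4 (h5.trans h6) (abs_nonneg _) (by norm_num)
    _ = η := one_mul _

lemma wav_nu_sq [Nonempty κ] (b : ℕ) (χ : Idx κ → ZMod 3) :
    wav b (fun u => nu b χ u ^ 2) = av fun T : Fin (b + 1) => av fun T' : Fin (b + 1) =>
      wav b (fun u => cc (phase χ (u.take T)) * cc (phase χ (u.take T'))) := by
  have h : ∀ u, nu b χ u ^ 2 = av fun T : Fin (b + 1) => av fun T' : Fin (b + 1) =>
      cc (phase χ (u.take T)) * cc (phase χ (u.take T')) := by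
    intro u
    have h1 : ∀ T : Fin (b + 1), (av fun T' : Fin (b + 1) =>
        cc (phase χ (u.take T)) * cc (phase χ (u.take T'))) = nu b χ u • cc (phase χ (u.take T)) := by
      intro T
      have := av_smul (cc (phase χ (u.take T))) (fun T' : Fin (b + 1) => cc (phase χ (u.take T')))
      simp only [smul_eq_mul] at this
      rw [this, smul_eq_mul, mul_comm]
      rfl
    simp only [h1]
    rw [av_smul, smul_eq_mul, sq]
    rfl
  simp only [h]
  rw [wav_av_comm]
  congr 1
  funext T
  rw [wav_av_comm]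

lemma card_close (b n : ℕ) (T : Fin (b + 1)) :
    #{T' : Fin (b + 1) | (T' : ℕ) < T + 2 * n ∧ (T : ℕ) < T' + 2 * n} ≤ 4 * n := by
  have hsub : (Finset.univ.filter fun T' : Fin (b + 1) =>
      (T' : ℕ) < T + 2 * n ∧ (T : ℕ) < T' + 2 * n).image (fun T' : Fin (b + 1) => (T' : ℕ)) ⊆
      Finset.Ico ((T : ℕ) + 1 - 2 * n) (T + 2 * n) := by
    intro x hx
    rw [Finset.mem_image] at hx
    obtain ⟨T', hT', rfl⟩ := hx
    rw [Finset.mem_filter] at hT'
    rw [Finset.mem_Ico]
    omega
  have h1 := Finset.card_le_card hsub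
  rw [Finset.card_image_of_injective _ Fin.val_injective, Nat.card_Ico] at h1
  omega

/-- one-block bound for characters of high rank -/
lemma one_block_high [Nonempty κ] (Bm : κ → κ → ZMod 3) (n : ℕ) (η : ℝ) (hη0 : 0 ≤ η)
    (hη : ∀ y₀ : κ → ZMod 3,
      wav n (fun l : List (κ × Bool) => ‖mm (yB Bm l - y₀)‖ ^ n) ≤ η ^ 2)
    (χ : Idx κ → ZMod 3) (hχ : qpart χ = Bm) (b : ℕ) :
    wav b (fun u => nu b χ u ^ 2) ≤ 4 * n / (b + 1) + η := by
  rw [wav_nu_sq]
  have hpair : ∀ T T' : Fin (b + 1),
      wav b (fun u => cc (phase χ (u.take T)) * cc (phase χ (u.take T'))) ≤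
        (if (T' : ℕ) < T + 2 * n ∧ (T : ℕ) < T' + 2 * n then (1 : ℝ) else 0) + η := by
    intro T T'
    split_ifs with h
    · have h1 : wav b (fun u => cc (phase χ (u.take T)) * cc (phase χ (u.take T'))) ≤ 1 := by
        apply wav_le
        intro u _
        refine (le_abs_self _).trans ?_
        rw [abs_mul]
        calc |cc (phase χ (u.take T))| * |cc (phase χ (u.take T'))| ≤ 1 * 1 :=
              mul_le_mul (abs_cc_le _) (abs_cc_le _) (abs_nonneg _) (by norm_num)
          _ = 1 := one_mul _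
      linarith
    · rw [zero_add]
      by_cases h3 : (T : ℕ) + 2 * n ≤ T'
      · exact pair_bound Bm n η hη0 hη χ hχ b T T' h3 (Nat.lt_succ_iff.mp T'.2)
      · have h4 : (T' : ℕ) + 2 * n ≤ T := by
          by_contra h5
          apply h
          omega
        have := pair_bound Bm n η hη0 hη χ hχ b T' T h4 (Nat.lt_succ_iff.mp T.2)
        simpa only [mul_comm] using this
  have hb : (0 : ℝ) < b + 1 := by positivity
  have hinner : ∀ T : Fin (b + 1), (av fun T' : Fin (b + 1) =>
      wav b (fun u => cc (phase χ (u.take T)) * cc (phase χ (u.take T')))) ≤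
      4 * n / (b + 1) + η := by
    intro T
    refine (av_mono fun T' => hpair T T').trans ?_
    rw [av_add, av_const]
    gcongr
    rw [av, Finset.sum_boole, Fintype.card_fin, smul_eq_mul]
    push_cast
    rw [inv_mul_eq_div]
    gcongr
    exact_mod_cast card_close b n T
  exact av_le hinner

end MixBurnside
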