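import Pool.Agent.MP_3225a3_pr.Exp3

/-! # From the block estimates to the random walk (MP_3225a3_pr) -/

namespace MixBurnside

open Finset

section OneGen

variable {G : Type*} [Group G] {κ : Type*} [Fintype κ] [DecidableEq κ]

/-- averaging over the image of `L` -/
noncomputable def Aop {M : Type*} [Fintype M] (L : M → G) (f : G → ℂ) (g : G) : ℂ :=
  av fun z => f (L z * g)

lemma L_zero {M : Type*} [AddGroup M] (L : M → G) (hL : ∀ z w, L (z + w) = L z * L w) :
    L 0 = 1 := by
  have := hL 0 0
  rw [add_zero] at this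
  exact left_eq_mul.mp this

lemma L_neg {M : Type*} [AddGroup M] (L : M → G) (hL : ∀ z w, L (z + w) = L z * L w) (z : M) :
    L (-z) = (L z)⁻¹ := by
  rw [eq_inv_iff_mul_eq_one, ← hL, neg_add_cancel, L_zero L hL]

omit [Fintype κ] in
/-- conjugate of the distinguished generator by a word -/
lemma conj_word (s : Option κ → G) (L : (Idx κ → ZMod 3) → G)
    (hL1 : L (vv []) = s none)
    (hL2 : ∀ (ℓ : κ × Bool) (z : Idx κ → ZMod 3),
        lt (fun j => s (some j)) ℓ * L z * (lt (fun j => s (some j)) ℓ)⁻¹ = L (actv ℓ z))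
    (h : List (κ × Bool)) :
    W (fun j => s (some j)) h * s none * (W (fun j => s (some j)) h)⁻¹ = L (vv h) := by
  induction h with
  | nil => rw [W_nil, hL1]; simp
  | cons ℓ h ih =>
    rw [W_cons, show vv (ℓ :: h) = actv ℓ (vv h) from rfl, ← hL2, ← ih]
    group

omit [Fintype κ] in
/-- decomposition of a word -/
lemma W_decomp (s : Option κ → G) (L : (Idx κ → ZMod 3) → G)
    (hL : ∀ z w, L (z + w) = L z * L w)
    (hL1 : L (vv []) = s none)
    (hL2 : ∀ (ℓ : κ × Bool) (z : Idx κ → ZMod 3),
        lt (fun j => s (some j)) ℓ * L z * (lt (fun j => s (some j)) ℓ)⁻¹ = L (actv ℓ z))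
    (β : List (Option κ × Bool)) (h : List (κ × Bool)) :
    W (fun j => s (some j)) h * W s β =
      L (zp h β) * (W (fun j => s (some j)) h * W (fun j => s (some j)) (strip β)) := by
  induction β generalizing h with
  | nil => simp [zp, strip, L_zero L hL, W_nil]
  | cons a l ih =>
    obtain ⟨o, ε⟩ := a
    cases o with
    | none =>
      simp only [zp, strip, W_cons, hL]
      have h1 : L (sg ε • vv h) = W (fun j => s (some j)) h * lt s (none, ε) *
          (W (fun j => s (some j)) h)⁻¹ := by
        cases ε with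
        | true =>
          simp only [sg, lt, if_true, one_smul]
          exact (conj_word s L hL1 hL2 h).symm
        | false =>
          simp only [sg, lt, Bool.false_eq_true, if_false, neg_smul, one_smul]
          rw [L_neg L hL, ← conj_word s L hL1 hL2 h]
          group
      rw [h1, mul_assoc (W (fun j => s (some j)) h * lt s (none, ε) *
          (W (fun j => s (some j)) h)⁻¹), ← ih h]
      group
    | some j =>
      simp only [zp, strip, W_cons]
      have h1 := ih (h ++ [(j, ε)])
      rw [W_append, W_cons, W_nil, mul_one] at h1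
      have h2 : lt s (some j, ε) = lt (fun j => s (some j)) (j, ε) := rfl
      rw [h2, ← mul_assoc, h1]
      group

/-- the comparison of the law with its average over the normal closure of one generator -/
theorem one_gen [Nonempty κ] (s : Option κ → G) (L : (Idx κ → ZMod 3) → G)
    (hL : ∀ z w, L (z + w) = L z * L w)
    (hL1 : L (vv []) = s none)
    (hL2 : ∀ (ℓ : κ × Bool) (z : Idx κ → ZMod 3),
        lt (fun j => s (some j)) ℓ * L z * (lt (fun j => s (some j)) ℓ)⁻¹ = L (actv ℓ z))
    (b n n₀ : ℕ) (lam : (κ → κ → ZMod 3) → ℝ)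
    (hlam0 : ∀ Bm, 0 < lam Bm) (hlam1 : ∀ Bm, lam Bm ≤ 1)
    (hlam : ∀ χ : Idx κ → ZMod 3, χ ≠ 0 → wav b (fun u => nu b χ u ^ 2) ≤ lam (qpart χ))
    (f : G → ℂ) (hf : ∀ g, ‖f g‖ ≤ 1) :
    ‖wav (n * (b + 1)) (fun β => f (W s β)) - wav (n * (b + 1)) (fun β => Aop L f (W s β))‖ ≤
      2 * 2 ^ n₀ * (1 - pg (Fintype.card κ) b / 2) ^ n +
        √(∑ χ : Idx κ → ZMod 3 with χ ≠ 0, (lam (qpart χ)) ^ n₀) := by
  have h1 := blocks_bound b n n₀ lam hlam0 hlam1 hlam
    (fun z w => f (L z * W (fun j => s (some j)) w)) (fun z w => hf _)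
  have hdec : ∀ β : List (Option κ × Bool), W s β =
      L (zp [] β) * W (fun j => s (some j)) (strip β) := by
    intro β
    have := W_decomp s L hL hL1 hL2 β []
    rwa [W_nil, one_mul, one_mul] at this
  have e1 : (fun β => f (W s β)) =
      fun β => f (L (zp [] β) * W (fun j => s (some j)) (strip β)) := by
    funext β; rw [hdec]
  have e2 : (fun β => Aop L f (W s β)) =
      fun β => av fun z => f (L z * W (fun j => s (some j)) (strip β)) := by
    funext β
    rw [hdec, Aop]
    simp only [← mul_assoc, ← hL]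
    exact av_equiv (Equiv.addRight (zp [] β))
      (fun z => f (L z * W (fun j => s (some j)) (strip β)))
  rw [e1, e2]
  exact h1

end OneGen

section Relabel

variable {α β : Type*} [Fintype α] [Fintype β] {E : Type*} [AddCommGroup E] [Module ℝ E]

lemma wav_map_equiv (e : α ≃ β) (N : ℕ) (F : List β → E) :
    wav N (fun l : List α => F (l.map e)) = wav N F := by
  induction N generalizing F with
  | zero => rfl
  | succ N ih =>
    rw [wav_succ, wav_succ]
    have : (fun a : α => wav N fun l => F ((a :: l).map e)) =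
        fun a => (fun b => wav N fun l => F (b :: l)) (e a) := by
      funext a
      exact ih (fun l => F (e a :: l))
    rw [this, av_equiv e (fun b => wav N fun l => F (b :: l))]

end Relabel

section AllGen

variable {G : Type*} [Group G]

/-- an averaging operator for one generator -/
theorem exists_avg {m : ℕ} (hm : 0 < m) (h3 : ∀ g : G, g ^ 3 = 1) (s : Fin (m + 1) → G)
    (hs : Subgroup.closure (Set.range s) = ⊤) (k : Fin (m + 1)) :
    ∃ (L : (Idx (Fin m) → ZMod 3) → G),
      (∀ z w, L (z + w) = L z * L w) ∧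
      (∀ x ∈ Subgroup.normalClosure {s k}, ∃ z, L z = x) ∧
      (∀ (b n n₀ : ℕ) (lam : (Fin m → Fin m → ZMod 3) → ℝ)
        (_ : ∀ Bm, 0 < lam Bm) (_ : ∀ Bm, lam Bm ≤ 1)
        (_ : ∀ χ : Idx (Fin m) → ZMod 3, χ ≠ 0 →
          wav b (fun u => nu b χ u ^ 2) ≤ lam (qpart χ))
        (f : G → ℂ) (_ : ∀ g, ‖f g‖ ≤ 1),
        ‖wav (n * (b + 1)) (fun β => f (W s β)) -
          wav (n * (b + 1)) (fun β => Aop L f (W s β))‖ ≤
          2 * 2 ^ n₀ * (1 - pg m b / 2) ^ n +
          √(∑ χ : Idx (Fin m) → ZMod 3 with χ ≠ 0, (lam (qpart χ)) ^ n₀)) := by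
  have : Nonempty (Fin m) := ⟨⟨0, hm⟩⟩
  set e := finSuccEquiv' k with he
  set s' : Option (Fin m) → G := fun o => s (e.symm o) with hs'
  obtain ⟨L, hL, hL1, hL2⟩ := exists_L h3 s'
  have hnone : s' none = s k := by
    rw [hs']; simp only; rw [he, finSuccEquiv'_symm_none]
  refine ⟨L, hL, ?_, ?_⟩
  · -- the range of L is a normal subgroup containing `s k`
    let R : Subgroup G :=
      { carrier := Set.range L
        mul_mem' := by rintro _ _ ⟨z, rfl⟩ ⟨w, rfl⟩; exact ⟨z + w, hL z w⟩
        one_mem' := ⟨0, L_zero L hL⟩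
        inv_mem' := by rintro _ ⟨z, rfl⟩; exact ⟨-z, L_neg L hL z⟩ }
    have hmem : ∀ x, x ∈ R ↔ ∃ z, L z = x := fun x => Iff.rfl
    have hcomm : ∀ x ∈ R, ∀ y ∈ R, x * y = y * x := by
      rintro _ ⟨z, rfl⟩ _ ⟨w, rfl⟩
      rw [← hL, ← hL, add_comm]
    have hsk : s k ∈ R := ⟨vv [], by rw [hL1, hnone]⟩
    have hconj1 : ∀ (i : Fin (m + 1)), ∀ x ∈ R, s i * x * (s i)⁻¹ ∈ R := by
      intro i x hx
      rcases ho : e i with _ | j
      · have : s i = s k := by
          rw [← hnone, hs']; simp only; rw [← ho, Equiv.symm_apply_apply]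
        rw [this, hcomm _ hsk _ hx]
        simpa using hx
      · have hi : s i = s' (some j) := by
          rw [hs']; simp only; rw [← ho, Equiv.symm_apply_apply]
        obtain ⟨z, rfl⟩ := hx
        refine ⟨actv (j, true) z, ?_⟩
        rw [← hL2, hi]
        simp [lt]
    have hconj2 : ∀ g : G, ∀ x ∈ R, g * x * g⁻¹ ∈ R := by
      intro g
      have hg : g ∈ Subgroup.closure (Set.range s) := by rw [hs]; trivial
      induction hg using Subgroup.closure_induction with
      | mem y hy => obtain ⟨i, rfl⟩ := hy; exact hconj1 i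
      | one => intro x hx; simpa using hx
      | mul y z _ _ ih1 ih2 =>
        intro x hx
        have := ih1 _ (ih2 x hx)
        have e : y * (z * x * z⁻¹) * y⁻¹ = y * z * x * (y * z)⁻¹ := by group
        rwa [e] at this
      | inv y _ ih =>
        intro x hx
        have hinv : y⁻¹ = y * y := by
          rw [inv_eq_iff_mul_eq_one, ← mul_assoc]
          have := h3 y
          rwa [pow_succ, sq] at this
        have := ih _ (ih x hx)
        have e : y * (y * x * y⁻¹) * y⁻¹ = (y * y) * x * (y * y)⁻¹ := by group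
        rwa [e, ← hinv] at this
    have : R.Normal := ⟨fun x hx g => hconj2 g x hx⟩
    intro x hx
    have : Subgroup.normalClosure {s k} ≤ R :=
      Subgroup.normalClosure_le_normal (Set.singleton_subset_iff.mpr hsk)
    exact this hx
  · intro b n n₀ lam hlam0 hlam1 hlam f hf
    have h1 := one_gen s' L hL hL1 hL2 b n n₀ lam hlam0 hlam1 hlam f hf
    rw [Fintype.card_fin] at h1
    let e' : Fin (m + 1) × Bool ≃ Option (Fin m) × Bool := Equiv.prodCongr e (Equiv.refl Bool)
    have hW : ∀ l : List (Fin (m + 1) × Bool), W s l = W s' (l.map e') := by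
      intro l
      unfold W
      rw [List.map_map]
      congr 1
      apply List.map_congr_left
      intro a _
      simp [lt, e', hs']
    have h2 : wav (n * (b + 1)) (fun β => f (W s β)) =
        wav (n * (b + 1)) (fun β => f (W s' β)) := by
      simp only [hW]
      exact wav_map_equiv e' _ (fun β => f (W s' β))
    have h3' : wav (n * (b + 1)) (fun β => Aop L f (W s β)) =
        wav (n * (b + 1)) (fun β => Aop L f (W s' β)) := by
      simp only [hW]
      exact wav_map_equiv e' _ (fun β => Aop L f (W s' β))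
    rw [h2, h3']
    exact h1

/-- a group of exponent 3 generated by finitely many elements is finite -/
theorem finite_of_exp3 {m : ℕ} (hm : 0 < m) (h3 : ∀ g : G, g ^ 3 = 1) (s : Fin (m + 1) → G)
    (hs : Subgroup.closure (Set.range s) = ⊤) : Finite G := by
  have hfin : ∀ k, (Subgroup.normalClosure {s k} : Set G).Finite := by
    intro k
    obtain ⟨L, -, hL2, -⟩ := exists_avg hm h3 s hs k
    exact (Set.finite_range L).subset fun x hx => hL2 x hx
  have hind : ∀ S : Finset (Fin (m + 1)), ∃ H : Subgroup G, H.Normal ∧ (H : Set G).Finite ∧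
      ∀ k ∈ S, s k ∈ H := by
    intro S
    induction S using Finset.induction_on with
    | empty => exact ⟨⊥, inferInstance, by simp, by simp⟩
    | insert k S _ ih =>
      obtain ⟨H, hH, hHf, hHS⟩ := ih
      have := hH
      have : (Subgroup.normalClosure {s k}).Normal := Subgroup.normalClosure_normal
      refine ⟨H ⊔ Subgroup.normalClosure {s k}, inferInstance, ?_, ?_⟩
      · rw [Subgroup.normal_mul]
        exact hHf.mul (hfin k)
      · intro j hj
        rw [Finset.mem_insert] at hj
        rcases hj with rfl | hj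
        · exact Subgroup.mem_sup_right (Subgroup.subset_normalClosure rfl)
        · exact Subgroup.mem_sup_left (hHS j hj)
  obtain ⟨H, -, hHf, hHS⟩ := hind Finset.univ
  have htop : H = ⊤ := by
    rw [eq_top_iff, ← hs, Subgroup.closure_le]
    rintro _ ⟨k, rfl⟩
    exact hHS k (Finset.mem_univ k)
  rw [htop, Subgroup.coe_top] at hHf
  exact Set.finite_univ_iff.mp hHf

lemma norm_Aop_le {M : Type*} [Fintype M] [Nonempty M] (L : M → G) (f : G → ℂ)
    (hf : ∀ g, ‖f g‖ ≤ 1) (g : G) : ‖Aop L f g‖ ≤ 1 :=
  (norm_av_le _).trans (av_le fun _ => hf _)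

/-- comparison with the uniform average -/
theorem all_gen {m : ℕ} (hm : 0 < m) [Fintype G] (h3 : ∀ g : G, g ^ 3 = 1)
    (s : Fin (m + 1) → G) (hs : Subgroup.closure (Set.range s) = ⊤)
    (b n n₀ : ℕ) (lam : (Fin m → Fin m → ZMod 3) → ℝ)
    (hlam0 : ∀ Bm, 0 < lam Bm) (hlam1 : ∀ Bm, lam Bm ≤ 1)
    (hlam : ∀ χ : Idx (Fin m) → ZMod 3, χ ≠ 0 →
          wav b (fun u => nu b χ u ^ 2) ≤ lam (qpart χ))
    (f : G → ℂ) (hf : ∀ g, ‖f g‖ ≤ 1) :
    ‖wav (n * (b + 1)) (fun β => f (W s β)) - av f‖ ≤
      (m + 1) * (2 * 2 ^ n₀ * (1 - pg m b / 2) ^ n +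
          √(∑ χ : Idx (Fin m) → ZMod 3 with χ ≠ 0, (lam (qpart χ)) ^ n₀)) := by
  set δ := 2 * 2 ^ n₀ * (1 - pg m b / 2) ^ n +
          √(∑ χ : Idx (Fin m) → ZMod 3 with χ ≠ 0, (lam (qpart χ)) ^ n₀) with hδ
  have hind : ∀ S : Finset (Fin (m + 1)), ∃ F : G → ℂ, (∀ g, ‖F g‖ ≤ 1) ∧ av F = av f ∧
      ‖wav (n * (b + 1)) (fun β => f (W s β)) - wav (n * (b + 1)) (fun β => F (W s β))‖ ≤
        S.card * δ ∧
      ∀ k ∈ S, ∀ x ∈ Subgroup.normalClosure {s k}, ∀ g, F (x * g) = F g := by
    intro S
    induction S using Finset.induction_on with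
    | empty => exact ⟨f, hf, rfl, by simp, by simp⟩
    | insert k S hk ih =>
      obtain ⟨F, hF1, hF2, hF3, hF4⟩ := ih
      obtain ⟨L, hL, hL2, hL3⟩ := exists_avg hm h3 s hs k
      refine ⟨Aop L F, norm_Aop_le L F hF1, ?_, ?_, ?_⟩
      · rw [← hF2]
        have h1 : av (Aop L F) = av fun z => av fun g => F (L z * g) := by
          unfold Aop
          rw [av_comm]
        rw [h1]
        have h2 : ∀ z, (av fun g => F (L z * g)) = av F := fun z =>
          av_equiv (Equiv.mulLeft (L z)) F
        simp only [h2, av_const]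
      · have h1 := hL3 b n n₀ lam hlam0 hlam1 hlam F hF1
        rw [Finset.card_insert_of_notMem hk]
        have h2 := norm_sub_le_norm_sub_add_norm_sub
          (wav (n * (b + 1)) (fun β => f (W s β))) (wav (n * (b + 1)) (fun β => F (W s β)))
          (wav (n * (b + 1)) (fun β => Aop L F (W s β)))
        push_cast
        linarith
      · intro j hj x hx g
        rw [Finset.mem_insert] at hj
        rcases hj with rfl | hj
        · obtain ⟨w, rfl⟩ := hL2 x hx
          unfold Aop
          simp only [← mul_assoc, ← hL]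
          exact av_equiv (Equiv.addRight w) (fun z => F (L z * g))
        · unfold Aop
          congr 1
          funext z
          have hn : (L z) * x * (L z)⁻¹ ∈ Subgroup.normalClosure {s j} :=
            Subgroup.normalClosure_normal.conj_mem x hx (L z)
          have := hF4 j hj _ hn (L z * g)
          rw [← this]
          congr 1
          group
  obtain ⟨F, hF1, hF2, hF3, hF4⟩ := hind Finset.univ
  have hconst : ∀ g, ∀ g', F (g * g') = F g' := by
    intro g
    have hg : g ∈ Subgroup.closure (Set.range s) := by rw [hs]; trivial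
    induction hg using Subgroup.closure_induction with
    | mem y hy =>
      obtain ⟨i, rfl⟩ := hy
      exact hF4 i (Finset.mem_univ i) _ (Subgroup.subset_normalClosure rfl)
    | one => intro g'; rw [one_mul]
    | mul y z _ _ ih1 ih2 => intro g'; rw [mul_assoc, ih1, ih2]
    | inv y _ ih => intro g'; rw [← ih (y⁻¹ * g')]; congr 1; group
  have hF : F = fun _ => F 1 := by
    funext g
    have := hconst g 1
    rwa [mul_one] at this
  rw [hF, wav_const] at hF3
  rw [hF, av_const] at hF2
  rw [← hF2]
  rw [Finset.card_univ, Fintype.card_fin] at hF3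
  push_cast at hF3
  exact hF3

end AllGen

end MixBurnside
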