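import Pool.Agent.MP_3225a3_pr.Phase

/-! # One-block estimates, every non-zero character (MP_3225a3_pr) -/

namespace MixBurnside

open Finset Complex

variable {κ : Type*} [Fintype κ] [DecidableEq κ]

/-- the average of the cosine of the phase over the positions in a block -/
noncomputable def nu (b : ℕ) (χ : Idx κ → ZMod 3) (u : List (κ × Bool)) : ℝ :=
  av fun T : Fin (b + 1) => cc (phase χ (u.take T))

lemma nu_le_one (b : ℕ) (χ : Idx κ → ZMod 3) (u : List (κ × Bool)) : nu b χ u ≤ 1 :=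
  av_le fun _ => cc_le_one _

lemma neg_half_le_nu (b : ℕ) (χ : Idx κ → ZMod 3) (u : List (κ × Bool)) : -1 / 2 ≤ nu b χ u := by
  have := av_mono (f := fun _ : Fin (b + 1) => (-1 / 2 : ℝ))
    (g := fun T : Fin (b + 1) => cc (phase χ (u.take T))) (fun _ => neg_half_le_cc _)
  rw [av_const] at this
  exact this

lemma nu_sq_le (b : ℕ) (χ : Idx κ → ZMod 3) (u : List (κ × Bool)) :
    nu b χ u ^ 2 ≤ (1 + nu b χ u) / 2 := by
  nlinarith [nu_le_one b χ u, neg_half_le_nu b χ u]

omit [DecidableEq κ] in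
lemma wav_cc_le (N : ℕ) (f : List (κ × Bool) → ZMod 3) :
    wav N (fun l => cc (f l)) ≤ ‖wav N (fun l => e3 (f l))‖ := by
  have h := wav_map (E := ℂ) (E' := ℝ) Complex.reLm N (fun l => e3 (f l))
  simp only [Complex.reLm_coe] at h
  have : (fun l => cc (f l)) = fun l => (e3 (f l)).re := by funext l; exact cc_eq_re _
  rw [this, ← h]
  exact Complex.re_le_norm _

lemma exp_neg_half_le : Real.exp (-(1 / 2)) ≤ 61 / 100 := by
  have h1 : Real.exp (-(1 / 2)) ^ 2 = Real.exp (-1) := by
    rw [← Real.exp_nat_mul]; norm_num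
  have h2 : Real.exp (-1) ≤ 0.3678794412 := (Real.exp_neg_one_lt_d9).le.trans (by norm_num)
  have h3 := Real.exp_pos (-(1 / 2))
  by_contra h
  push Not at h
  nlinarith

lemma one_sub_pow_le (m : ℕ) (hm : 0 < m) : (1 - (1 : ℝ) / (2 * m)) ^ m ≤ 61 / 100 := by
  have hm' : (0 : ℝ) < m := by exact_mod_cast hm
  have h1 : (1 : ℝ) - 1 / (2 * m) ≤ Real.exp (-(1 / (2 * m))) := by
    have := Real.add_one_le_exp (-(1 / (2 * (m : ℝ))))
    linarith
  have h0 : (0 : ℝ) ≤ 1 - 1 / (2 * m) := by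
    rw [sub_nonneg, div_le_one (by positivity)]
    have : (1 : ℝ) ≤ m := by exact_mod_cast hm
    linarith
  calc (1 - (1 : ℝ) / (2 * m)) ^ m ≤ Real.exp (-(1 / (2 * m))) ^ m :=
        pow_le_pow_left₀ h0 h1 m
    _ = Real.exp (-(1 / 2)) := by
        rw [← Real.exp_nat_mul]; congr 1; field_simp
    _ ≤ _ := exp_neg_half_le

/-- for a non-zero matrix part -/
lemma low_quad [Nonempty κ] (Bm : κ → κ → ZMod 3) (hB : Bm ≠ 0) (y₀ : κ → ZMod 3) :
    wav (Fintype.card κ) (fun l : List (κ × Bool) => ‖mm (yB Bm l - y₀)‖ ^ (Fintype.card κ))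
      ≤ (19 / 20 : ℝ) ^ 2 := by
  obtain ⟨i₀, hi⟩ := Function.ne_iff.mp hB
  obtain ⟨j₀, hj⟩ := Function.ne_iff.mp hi
  set m := Fintype.card κ with hm
  have hmpos : 0 < m := Fintype.card_pos
  set x : ℝ := (1 - (1 : ℝ) / (2 * m)) ^ m with hx
  have hx1 : x ≤ 61 / 100 := one_sub_pow_le m hmpos
  have hx0 : 0 ≤ x := by
    apply pow_nonneg
    rw [sub_nonneg, div_le_one (by positivity)]
    have : (1 : ℝ) ≤ m := by exact_mod_cast hmpos
    linarith
  have hpt : ∀ y : κ → ZMod 3, ‖mm y‖ ^ m ≤ x + (1 - x) * ((1 + 2 * cc (y j₀)) / 3) := by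
    intro y
    by_cases hy : y = 0
    · subst hy
      have h1 : ‖mm (0 : κ → ZMod 3)‖ ^ m ≤ 1 := pow_le_one₀ (norm_nonneg _) (norm_mm_le_one _)
      have h2 : cc ((0 : κ → ZMod 3) j₀) = 1 := by simp [cc]
      rw [h2]; linarith
    · have h1 := norm_mm_pow_le (supc_pos hy) m
      have h2 := neg_half_le_cc (y j₀)
      have h3 : 0 ≤ (1 - x) * ((1 + 2 * cc (y j₀)) / 3) :=
        mul_nonneg (by linarith) (by linarith)
      have h4 : (1 - ((1 : ℕ) : ℝ) / (2 * (Fintype.card κ : ℝ))) ^ m = x := by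
        rw [hx, Nat.cast_one]
      linarith
  have hcc : wav m (fun l : List (κ × Bool) => cc (yB Bm l j₀ - y₀ j₀)) ≤ x := by
    refine (wav_cc_le _ _).trans ?_
    have h1 : (fun l : List (κ × Bool) => e3 (yB Bm l j₀ - y₀ j₀)) =
        fun l => e3 (-(y₀ j₀)) * e3 (∑ i, Bm i j₀ * xx l i) := by
      funext l
      rw [← e3_add, yB, sub_eq_neg_add]
      congr 2
      exact Finset.sum_congr rfl fun i _ => mul_comm _ _
    rw [h1, wav_mulC_left, norm_mul, norm_e3, one_mul, wav_lin m (fun i => Bm i j₀), norm_pow]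
    have h2 : (fun i => Bm i j₀) ≠ 0 := by
      intro h
      exact hj (congrFun h i₀)
    have h3 := norm_mm_pow_le (supc_pos h2) m
    rwa [Nat.cast_one] at h3
  calc wav m (fun l : List (κ × Bool) => ‖mm (yB Bm l - y₀)‖ ^ m)
      ≤ wav m (fun l => (x + (1 - x) / 3) + ((1 - x) * (2 / 3)) *
          cc (yB Bm l j₀ - y₀ j₀)) := by
        apply wav_mono
        intro l _
        refine (hpt _).trans (le_of_eq ?_)
        rw [Pi.sub_apply]
        ring
    _ = (x + (1 - x) / 3) + ((1 - x) * (2 / 3)) *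
          wav m (fun l => cc (yB Bm l j₀ - y₀ j₀)) := by
        rw [wav_add, wav_const, wav_mul_left]
    _ ≤ (x + (1 - x) / 3) + ((1 - x) * (2 / 3)) * x := by
        have : 0 ≤ (1 - x) * (2 / 3) := by nlinarith
        nlinarith
    _ ≤ (19 / 20 : ℝ) ^ 2 := by nlinarith

lemma norm_wav_phase_le [Nonempty κ] (χ : Idx κ → ZMod 3)
    (hχ : ¬ (qpart χ = 0 ∧ ∀ j, χ (iLin j) = 0)) (N : ℕ) (hN : 2 * Fintype.card κ ≤ N) :
    ‖wav N (fun l => e3 (phase χ l))‖ ≤ 19 / 20 := by
  by_cases hq : qpart χ = 0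
  · -- linear case
    have hy : ¬ ∀ j, χ (iLin j) = 0 := fun h => hχ ⟨hq, h⟩
    have h1 : (fun l : List (κ × Bool) => e3 (phase χ l)) =
        fun l => e3 (χ iOne) * e3 (∑ j, χ (iLin j) * xx l j) := by
      funext l
      rw [phase_eq, ← e3_add]
      congr 1
      have : ∀ i j, χ (iQuad i j) = 0 := fun i j => congrFun (congrFun hq i) j
      simp [this]
    rw [h1, wav_mulC_left, norm_mul, norm_e3, one_mul, wav_lin N (fun j => χ (iLin j)), norm_pow]
    have h2 : (fun j => χ (iLin j)) ≠ 0 := by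
      intro h
      exact hy fun j => congrFun h j
    have h3 := norm_mm_pow_le (supc_pos h2) (Fintype.card κ)
    have h4 := one_sub_pow_le (Fintype.card κ) Fintype.card_pos
    rw [Nat.cast_one] at h3
    have h5 : ‖mm (fun j => χ (iLin j))‖ ^ N ≤ ‖mm (fun j => χ (iLin j))‖ ^ (Fintype.card κ) :=
      pow_le_pow_of_le_one (norm_nonneg _) (norm_mm_le_one _) (by omega)
    linarith
  · refine cs_bound' (qpart χ) (Fintype.card κ) (Fintype.card κ) (19 / 20)
      (fun y₀ => low_quad (qpart χ) hq y₀) (by norm_num) χ rfl N (by omega)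

/-- E[nu] -/
lemma wav_nu [Nonempty κ] (b : ℕ) (χ : Idx κ → ZMod 3) :
    wav b (nu b χ) = av fun T : Fin (b + 1) => wav T (fun l => cc (phase χ l)) := by
  unfold nu
  rw [wav_av_comm]
  congr 1
  funext T
  exact wav_take (Nat.lt_succ_iff.mp T.2) (fun l => cc (phase χ l))

/-- one-block bound for every non-zero character -/
lemma one_block_low [Nonempty κ] (χ : Idx κ → ZMod 3) (hχ : χ ≠ 0) :
    wav (4 * Fintype.card κ) (fun u => nu (4 * Fintype.card κ) χ u ^ 2) ≤ 99 / 100 := by
  set m := Fintype.card κ with hm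
  have hmpos : 0 < m := Fintype.card_pos
  by_cases h0 : qpart χ = 0 ∧ ∀ j, χ (iLin j) = 0
  · -- constant phase
    have hq : ∀ i j, χ (iQuad i j) = 0 := fun i j => congrFun (congrFun h0.1 i) j
    have hc : χ iOne ≠ 0 := by
      intro hc
      apply hχ
      funext i
      rcases i with ⟨⟩ | j | ⟨i, j⟩
      · exact hc
      · exact h0.2 j
      · exact hq i j
    have h1 : ∀ u, nu (4 * m) χ u = -1 / 2 := by
      intro u
      unfold nu
      have : (fun T : Fin (4 * m + 1) => cc (phase χ (u.take T))) = fun _ => (-1 / 2 : ℝ) := by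
        funext T
        rw [phase_eq]
        simp [hq, h0.2, cc, hc]
      rw [this, av_const]
    simp only [h1]
    rw [wav_const]
    norm_num
  · have h1 : ∀ T : ℕ, wav T (fun l => cc (phase χ l)) ≤
        if T < 2 * m then (1 : ℝ) else 19 / 20 := by
      intro T
      split_ifs with hT
      · exact wav_le fun _ _ => cc_le_one _
      · exact (wav_cc_le _ _).trans (norm_wav_phase_le χ h0 T (by omega))
    have h2 : wav (4 * m) (nu (4 * m) χ) ≤ 39 / 40 := by
      rw [wav_nu]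
      refine (av_mono fun T : Fin (4 * m + 1) => h1 T).trans ?_
      have h3 : ∀ T : Fin (4 * m + 1), (if (T : ℕ) < 2 * m then (1 : ℝ) else 19 / 20) =
          19 / 20 + (1 / 20) * (if (T : ℕ) < 2 * m then (1 : ℝ) else 0) := by
        intro T; split_ifs <;> norm_num
      simp only [h3]
      rw [av, Fintype.card_fin, Finset.sum_add_distrib, ← Finset.mul_sum,
        Finset.sum_boole, Finset.sum_const, Finset.card_univ, Fintype.card_fin]
      have h4 : #{T : Fin (4 * m + 1) | (T : ℕ) < 2 * m} = 2 * m := by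
        rw [Fin.card_filter_val_lt]
        omega
      rw [h4]
      simp only [nsmul_eq_mul, smul_eq_mul]
      push_cast
      rw [inv_mul_le_iff₀ (by positivity)]
      nlinarith
    calc wav (4 * m) (fun u => nu (4 * m) χ u ^ 2)
        ≤ wav (4 * m) (fun u => (1 / 2 : ℝ) + (1 / 2) * nu (4 * m) χ u) := by
          apply wav_mono
          intro u _
          refine (nu_sq_le _ _ _).trans (le_of_eq (by ring))
      _ = 1 / 2 + (1 / 2) * wav (4 * m) (nu (4 * m) χ) := by
          rw [wav_add, wav_const, wav_mul_left]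
      _ ≤ 99 / 100 := by linarith

end MixBurnside
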