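import Pool.Agent.MP_3225a3_pr.Fourier

/-! # The phase of a prefix and the one-block estimates (MP_3225a3_pr) -/

namespace MixBurnside

open Finset Complex

/-- index type of the coordinates: constant, linear, quadratic -/
abbrev Idx (κ : Type*) := Unit ⊕ κ ⊕ (κ × κ)

variable {κ : Type*} [Fintype κ] [DecidableEq κ]

/-- constant coordinate -/
abbrev iOne : Idx κ := Sum.inl ()
/-- linear coordinate -/
abbrev iLin (j : κ) : Idx κ := Sum.inr (Sum.inl j)
/-- quadratic coordinate -/
abbrev iQuad (i j : κ) : Idx κ := Sum.inr (Sum.inr (i, j))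

/-- the sign of a letter -/
def sg (b : Bool) : ZMod 3 := if b then 1 else -1

/-- the action of a letter on the coordinates -/
def actv (ℓ : κ × Bool) (z : Idx κ → ZMod 3) : Idx κ → ZMod 3
  | Sum.inl _ => z iOne
  | Sum.inr (Sum.inl j) => z (iLin j) + (if j = ℓ.1 then sg ℓ.2 * z iOne else 0)
  | Sum.inr (Sum.inr (i, j)) => z (iQuad i j) + (if i = ℓ.1 then sg ℓ.2 * z (iLin j) else 0)

/-- coordinates of the conjugate of the distinguished generator by a word -/
def vv : List (κ × Bool) → (Idx κ → ZMod 3)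
  | [] => fun i => match i with
    | Sum.inl _ => 1
    | _ => 0
  | ℓ :: l => actv ℓ (vv l)

/-- linear coordinates -/
abbrev xx (l : List (κ × Bool)) (j : κ) : ZMod 3 := vv l (iLin j)
/-- quadratic coordinates -/
abbrev qq (l : List (κ × Bool)) (i j : κ) : ZMod 3 := vv l (iQuad i j)

omit [Fintype κ] in
lemma vv_one (l : List (κ × Bool)) : vv l iOne = 1 := by
  induction l with
  | nil => rfl
  | cons ℓ l ih => exact ih

omit [Fintype κ] in
@[simp] lemma xx_nil (j : κ) : xx ([] : List (κ × Bool)) j = 0 := rfl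

omit [Fintype κ] in
@[simp] lemma qq_nil (i j : κ) : qq ([] : List (κ × Bool)) i j = 0 := rfl

omit [Fintype κ] in
lemma xx_cons (ℓ : κ × Bool) (l : List (κ × Bool)) (j : κ) :
    xx (ℓ :: l) j = xx l j + (if j = ℓ.1 then sg ℓ.2 else 0) := by
  change vv l (iLin j) + (if j = ℓ.1 then sg ℓ.2 * vv l iOne else 0) = _
  rw [vv_one, mul_one]

omit [Fintype κ] in
lemma qq_cons (ℓ : κ × Bool) (l : List (κ × Bool)) (i j : κ) :
    qq (ℓ :: l) i j = qq l i j + (if i = ℓ.1 then sg ℓ.2 * xx l j else 0) := rfl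

omit [Fintype κ] in
lemma xx_append (l l' : List (κ × Bool)) (j : κ) : xx (l ++ l') j = xx l j + xx l' j := by
  induction l with
  | nil => simp
  | cons ℓ l ih => rw [List.cons_append, xx_cons, ih, xx_cons]; ring

omit [Fintype κ] in
lemma qq_append (l l' : List (κ × Bool)) (i j : κ) :
    qq (l ++ l') i j = qq l i j + qq l' i j + xx l i * xx l' j := by
  induction l with
  | nil => simp
  | cons ℓ l ih =>
    rw [List.cons_append, qq_cons, ih, qq_cons, xx_cons, xx_append]
    split_ifs <;> ring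

/-- the phase -/
def phase (χ : Idx κ → ZMod 3) (l : List (κ × Bool)) : ZMod 3 := χ ⬝ᵥ vv l

lemma phase_eq (χ : Idx κ → ZMod 3) (l : List (κ × Bool)) :
    phase χ l = χ iOne + ∑ j, χ (iLin j) * xx l j + ∑ i, ∑ j, χ (iQuad i j) * qq l i j := by
  unfold phase dotProduct
  rw [Fintype.sum_sum_type, Fintype.sum_sum_type, Fintype.sum_prod_type]
  simp only [Finset.univ_unique, Finset.sum_singleton]
  rw [show vv l (Sum.inl (default : Unit)) = 1 from vv_one l]
  rw [mul_one, add_assoc]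

/-- the linear form obtained from the quadratic part of a character and a word -/
def yB (Bm : κ → κ → ZMod 3) (l : List (κ × Bool)) (j : κ) : ZMod 3 := ∑ i, xx l i * Bm i j

/-- the matrix part of a character -/
def qpart (χ : Idx κ → ZMod 3) : κ → κ → ZMod 3 := fun i j => χ (iQuad i j)

lemma phase_append (χ : Idx κ → ZMod 3) (l l' : List (κ × Bool)) :
    phase χ (l ++ l') = phase χ l + (phase χ l' - χ iOne) + ∑ j, yB (qpart χ) l j * xx l' j := by
  rw [phase_eq, phase_eq, phase_eq]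
  simp only [xx_append, qq_append, mul_add, Finset.sum_add_distrib]
  have : ∑ i, ∑ j, χ (iQuad i j) * (xx l i * xx l' j) = ∑ j, yB (qpart χ) l j * xx l' j := by
    rw [Finset.sum_comm]
    apply Finset.sum_congr rfl
    intro j _
    rw [yB, Finset.sum_mul]
    apply Finset.sum_congr rfl
    intro i _
    rw [qpart]; ring
  rw [this]; ring

/-- the character seen after the prefix `h` -/
def shiftChi (h : List (κ × Bool)) (χ : Idx κ → ZMod 3) : Idx κ → ZMod 3
  | Sum.inl _ => phase χ h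
  | Sum.inr (Sum.inl j) => χ (iLin j) + yB (qpart χ) h j
  | Sum.inr (Sum.inr (i, j)) => χ (iQuad i j)

lemma phase_shift (h : List (κ × Bool)) (χ : Idx κ → ZMod 3) (l : List (κ × Bool)) :
    phase χ (h ++ l) = phase (shiftChi h χ) l := by
  rw [phase_append, phase_eq (shiftChi h χ), phase_eq χ l]
  simp only [shiftChi, add_mul, Finset.sum_add_distrib]
  ring

lemma qpart_shift (h : List (κ × Bool)) (χ : Idx κ → ZMod 3) :
    qpart (shiftChi h χ) = qpart χ := rfl

lemma shiftChi_ne_zero (h : List (κ × Bool)) (χ : Idx κ → ZMod 3) (hχ : χ ≠ 0) :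
    shiftChi h χ ≠ 0 := by
  intro h0
  apply hχ
  have hq : ∀ i j, χ (iQuad i j) = 0 := fun i j => congrFun h0 (iQuad i j)
  have hy : ∀ j, χ (iLin j) = 0 := by
    intro j
    have := congrFun h0 (iLin j)
    simp only [shiftChi, yB, qpart, hq] at this
    simpa using this
  have hc : χ iOne = 0 := by
    have := congrFun h0 iOne
    simp only [shiftChi, phase_eq, hq, hy] at this
    simpa using this
  funext i
  rcases i with ⟨⟩ | j | ⟨i, j⟩
  · exact hc
  · exact hy j
  · exact hq i j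

/-- size of the support -/
def supc (y : κ → ZMod 3) : ℕ := #{j | y j ≠ 0}

/-- the one-letter multiplier -/
noncomputable def mm (y : κ → ZMod 3) : ℂ := av fun ℓ : κ × Bool => e3 (y ℓ.1 * sg ℓ.2)

omit [DecidableEq κ] in
lemma sum_cc (y : κ → ZMod 3) : ∑ j, cc (y j) = Fintype.card κ - 3 / 2 * supc y := by
  have h : ∀ j, cc (y j) = 1 - 3 / 2 * (if y j ≠ 0 then (1 : ℝ) else 0) := by
    intro j
    unfold cc
    by_cases hj : y j = 0
    · simp [hj]
    · simp [hj]; norm_num
  simp only [h, Finset.sum_sub_distrib, ← Finset.mul_sum, Finset.sum_boole, supc]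
  simp

omit [DecidableEq κ] in
lemma mm_eq (y : κ → ZMod 3) :
    mm y = (((Fintype.card κ : ℝ) - 3 / 2 * supc y) / Fintype.card κ : ℝ) := by
  unfold mm av
  rw [Fintype.sum_prod_type]
  have h : ∀ j, ∑ b : Bool, e3 (y j * sg b) = 2 * (cc (y j) : ℂ) := by
    intro j
    rw [Fintype.sum_bool, ← e3_add_neg]
    simp [sg]
  simp only [h, ← Finset.mul_sum]
  rw [← Complex.ofReal_sum, sum_cc, Fintype.card_prod, Fintype.card_bool, Complex.real_smul]
  push_cast
  by_cases hm : (Fintype.card κ : ℂ) = 0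
  · simp [hm]
  · field_simp

omit [DecidableEq κ] in
lemma supc_le (y : κ → ZMod 3) : supc y ≤ Fintype.card κ := Finset.card_le_univ _

omit [DecidableEq κ] in
lemma norm_mm_le [Nonempty κ] (y : κ → ZMod 3) :
    ‖mm y‖ ≤ 1 - supc y / (2 * Fintype.card κ) := by
  rw [mm_eq, Complex.norm_real, Real.norm_eq_abs, abs_le]
  have hm : (0 : ℝ) < Fintype.card κ := by exact_mod_cast Fintype.card_pos
  have hs : (supc y : ℝ) ≤ Fintype.card κ := by exact_mod_cast supc_le y
  have hs0 : (0 : ℝ) ≤ supc y := by positivity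
  constructor
  · rw [neg_le, ← sub_nonneg]
    have : 1 - (supc y : ℝ) / (2 * Fintype.card κ) -
        -((Fintype.card κ - 3 / 2 * supc y) / Fintype.card κ) =
        2 * (Fintype.card κ - supc y) / Fintype.card κ := by
      field_simp; ring
    rw [this]
    exact div_nonneg (by linarith) hm.le
  · rw [← sub_nonneg]
    have : 1 - (supc y : ℝ) / (2 * Fintype.card κ) -
        ((Fintype.card κ - 3 / 2 * supc y) / Fintype.card κ) =
        supc y / Fintype.card κ := by
      field_simp; ring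
    rw [this]
    exact div_nonneg (by linarith) hm.le

omit [DecidableEq κ] in
lemma norm_mm_le_one [Nonempty κ] (y : κ → ZMod 3) : ‖mm y‖ ≤ 1 :=
  (norm_mm_le y).trans (by
    have : (0 : ℝ) ≤ supc y / (2 * Fintype.card κ) := by positivity
    linarith)

omit [DecidableEq κ] in
lemma supc_pos {y : κ → ZMod 3} (h : y ≠ 0) : 1 ≤ supc y := by
  obtain ⟨j, hj⟩ := Function.ne_iff.mp h
  exact Finset.card_pos.mpr ⟨j, by simpa using hj⟩

omit [DecidableEq κ] in
lemma norm_mm_pow_le [Nonempty κ] {y : κ → ZMod 3} {s : ℕ} (h : s ≤ supc y) (n : ℕ) :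
    ‖mm y‖ ^ n ≤ (1 - s / (2 * Fintype.card κ)) ^ n := by
  apply pow_le_pow_left₀ (norm_nonneg _)
  refine (norm_mm_le y).trans ?_
  have hm : (0 : ℝ) < Fintype.card κ := by exact_mod_cast Fintype.card_pos
  have : (s : ℝ) / (2 * Fintype.card κ) ≤ supc y / (2 * Fintype.card κ) := by
    gcongr
  linarith

/-- product formula for linear phases -/
lemma wav_lin (N : ℕ) (z : κ → ZMod 3) :
    wav N (fun l : List (κ × Bool) => e3 (∑ j, z j * xx l j)) = mm z ^ N := by
  unfold mm
  rw [← wav_prod]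
  congr 1
  funext l
  induction l with
  | nil => simp
  | cons ℓ l ih =>
    rw [List.map_cons, List.prod_cons, ← ih, ← e3_add]
    congr 1
    simp only [xx_cons, mul_add, Finset.sum_add_distrib]
    rw [add_comm]
    congr 1
    simp

lemma normsq_wav {α : Type*} [Fintype α] (N : ℕ) (f : List α → ℂ) :
    ((‖wav N f‖ ^ 2 : ℝ) : ℂ) =
      wav N (fun l => wav N (fun l' => f l * (starRingEnd ℂ) (f l'))) := by
  have h1 : (starRingEnd ℂ) (wav N f) = wav N (fun l' => (starRingEnd ℂ) (f l')) := by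
    exact wav_map (E := ℂ) (E' := ℂ) (Complex.conjAe.toLinearMap) N f
  have h2 : ∀ l, wav N (fun l' => f l * (starRingEnd ℂ) (f l')) =
      (starRingEnd ℂ) (wav N f) * f l := by
    intro l
    rw [wav_mulC_left, h1, mul_comm]
  simp only [h2, wav_mulC_left]
  rw [← Complex.normSq_eq_norm_sq, Complex.normSq_eq_conj_mul_self]

/-- Cauchy-Schwarz for the bilinear part -/
lemma cs_bound [Nonempty κ] (χ : Idx κ → ZMod 3) (n₁ n₂ : ℕ) (c : ℝ)
    (hc : ∀ y₀ : κ → ZMod 3,
      wav n₁ (fun l : List (κ × Bool) => ‖mm (yB (qpart χ) l - y₀)‖ ^ n₂) ≤ c) :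
    ‖wav (n₁ + n₂) (fun l => e3 (phase χ l))‖ ^ 2 ≤ c := by
  have step1 : wav (n₁ + n₂) (fun l => e3 (phase χ l)) =
      wav n₂ (fun l' => e3 (phase χ l' - χ iOne) *
        wav n₁ (fun l => e3 (phase χ l) * e3 (∑ j, yB (qpart χ) l j * xx l' j))) := by
    rw [wav_append, wav_comm]
    congr 1
    funext l'
    rw [← wav_mulC_left]
    congr 1
    funext l
    rw [phase_append, e3_add, e3_add]; ring
  have step2 : ‖wav (n₁ + n₂) (fun l => e3 (phase χ l))‖ ^ 2 ≤
      wav n₂ (fun l' => ‖wav n₁ (fun l => e3 (phase χ l) *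
        e3 (∑ j, yB (qpart χ) l j * xx l' j))‖ ^ 2) := by
    rw [step1]
    refine le_trans (pow_le_pow_left₀ (norm_nonneg _) (norm_wav_le _ _) 2) ?_
    refine (wav_sq_le _ _).trans (le_of_eq ?_)
    congr 1
    funext l'
    rw [norm_mul, norm_e3, one_mul]
  refine step2.trans ?_
  have step3 : ((wav n₂ (fun l' : List (κ × Bool) => ‖wav n₁ (fun l => e3 (phase χ l) *
        e3 (∑ j, yB (qpart χ) l j * xx l' j))‖ ^ 2) : ℝ) : ℂ) =
      wav n₁ (fun l₁ => wav n₁ (fun l₂ => (e3 (phase χ l₁) * e3 (-(phase χ l₂))) *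
        mm (yB (qpart χ) l₁ - yB (qpart χ) l₂) ^ n₂)) := by
    have h1 := wav_map (E := ℝ) (E' := ℂ) (Complex.ofRealCLM.toLinearMap) n₂
      (fun l' : List (κ × Bool) => ‖wav n₁ (fun l => e3 (phase χ l) *
        e3 (∑ j, yB (qpart χ) l j * xx l' j))‖ ^ 2)
    simp only [ContinuousLinearMap.coe_coe, Complex.ofRealCLM_apply] at h1
    rw [h1]
    simp only [normsq_wav]
    rw [wav_comm]
    congr 1
    funext l₁
    rw [wav_comm]
    congr 1
    funext l₂
    rw [← wav_lin, ← wav_mulC_left]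
    congr 1
    funext l'
    simp only [← e3_add, ← e3_neg]
    congr 1
    simp only [Pi.sub_apply, sub_mul, Finset.sum_sub_distrib]
    ring
  have step4 : (wav n₂ (fun l' : List (κ × Bool) => ‖wav n₁ (fun l => e3 (phase χ l) *
        e3 (∑ j, yB (qpart χ) l j * xx l' j))‖ ^ 2) : ℝ) ≤
      ‖wav n₁ (fun l₁ => wav n₁ (fun l₂ => (e3 (phase χ l₁) * e3 (-(phase χ l₂))) *
        mm (yB (qpart χ) l₁ - yB (qpart χ) l₂) ^ n₂))‖ := by
    rw [← step3, Complex.norm_real]
    exact le_abs_self _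
  refine step4.trans ((norm_wav_le _ _).trans ?_)
  have step5 : ∀ l₁ : List (κ × Bool), ‖wav n₁ (fun l₂ => (e3 (phase χ l₁) * e3 (-(phase χ l₂))) *
        mm (yB (qpart χ) l₁ - yB (qpart χ) l₂) ^ n₂)‖ ≤
        wav n₁ (fun l₂ => ‖mm (yB (qpart χ) l₁ - yB (qpart χ) l₂)‖ ^ n₂) := by
    intro l₁
    refine (norm_wav_le _ _).trans (le_of_eq ?_)
    congr 1
    funext l₂
    rw [norm_mul, norm_mul, norm_e3, norm_e3, norm_pow]; ring
  refine (wav_mono fun l₁ _ => step5 l₁).trans ?_
  rw [wav_comm]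
  exact wav_le fun l₂ _ => hc _

/-- the same bound for all longer words -/
lemma cs_bound' [Nonempty κ] (Bm : κ → κ → ZMod 3) (n₁ n₂ : ℕ) (c : ℝ)
    (hc : ∀ y₀ : κ → ZMod 3,
      wav n₁ (fun l : List (κ × Bool) => ‖mm (yB Bm l - y₀)‖ ^ n₂) ≤ c ^ 2) (hc0 : 0 ≤ c)
    (χ : Idx κ → ZMod 3) (hχ : qpart χ = Bm) (N : ℕ) (hN : n₁ + n₂ ≤ N) :
    ‖wav N (fun l => e3 (phase χ l))‖ ≤ c := by
  obtain ⟨k, rfl⟩ := Nat.exists_eq_add_of_le hN
  rw [add_comm, wav_append]
  refine (norm_wav_le _ _).trans (wav_le fun h _ => ?_)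
  simp only [phase_shift]
  have := cs_bound (shiftChi h χ) n₁ n₂ (c ^ 2) (by rw [qpart_shift, hχ]; exact hc)
  exact abs_le_of_sq_le_sq' this hc0 |>.2

end MixBurnside
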