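import Pool.Agent.MP_3225a3_pr.OneBlock

/-! # One-block estimates, characters of high rank (MP_3225a3_pr) -/

namespace MixBurnside

open Finset Complex

variable {κ : Type*} [Fintype κ] [DecidableEq κ]

/-- `R` of the rows of the matrix admit dual vectors -/
def Rich (Bm : κ → κ → ZMod 3) (R : ℕ) : Prop :=
  ∃ J : Finset κ, J.card = R ∧ ∃ z : κ → κ → ZMod 3,
    ∀ i ∈ J, ∀ a ∈ J, ∑ j, Bm i j * z a j = if i = a then 1 else 0

/-- not rich implies low-rank factorisation -/
lemma factor_of_not_rich (Bm : κ → κ → ZMod 3) (R : ℕ) (h : ¬ Rich Bm R) :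
    ∃ (P : κ → Fin R → ZMod 3) (Q : Fin R → κ → ZMod 3), Bm = fun i j => ∑ t, P i t * Q t j := by
  obtain ⟨κ', a, ha, hsp, hli⟩ := exists_linearIndependent' (ZMod 3) Bm
  have hfin : Finite κ' := Finite.of_injective a ha
  have := Fintype.ofFinite κ'
  classical
  by_cases hc : R ≤ Fintype.card κ'
  · exfalso
    apply h
    obtain ⟨J', -, hJ'⟩ := Finset.exists_subset_card_eq (s := (Finset.univ : Finset κ'))
      (n := R) (by rwa [Finset.card_univ])
    have hinj : Function.Injective (Fintype.linearCombination (ZMod 3) (Bm ∘ a)) :=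
      hli.fintypeLinearCombination_injective
    obtain ⟨g, hg⟩ := LinearMap.exists_leftInverse_of_injective _ (LinearMap.ker_eq_bot.mpr hinj)
    have hg1 : ∀ c : κ', g (Bm (a c)) = Pi.single c 1 := by
      intro c
      have h1 := LinearMap.congr_fun hg (Pi.single c 1)
      simp only [LinearMap.comp_apply, LinearMap.id_apply,
        Fintype.linearCombination_apply_single, one_smul, Function.comp_apply] at h1
      exact h1
    have hg2 : ∀ (r : κ → ZMod 3) (c : κ'), g r c = ∑ j, r j * g (Pi.single j 1) c := by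
      intro r c
      conv_lhs => rw [← Finset.univ_sum_single r]
      rw [map_sum, Finset.sum_apply]
      apply Finset.sum_congr rfl
      intro j _
      have : (Pi.single j (r j) : κ → ZMod 3) = r j • Pi.single j 1 := by
        rw [← Pi.single_smul, smul_eq_mul, mul_one]
      rw [this, map_smul, Pi.smul_apply, smul_eq_mul]
    refine ⟨J'.map ⟨a, ha⟩, by rw [Finset.card_map, hJ'],
      fun i j => if hi : ∃ c, a c = i then g (Pi.single j 1) hi.choose else 0, ?_⟩
    intro i hi i' hi'
    rw [Finset.mem_map] at hi hi'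
    obtain ⟨c, -, rfl⟩ := hi
    obtain ⟨c', -, rfl⟩ := hi'
    simp only [Function.Embedding.coeFn_mk]
    have hex : ∃ d, a d = a c' := ⟨c', rfl⟩
    have hch : hex.choose = c' := ha hex.choose_spec
    simp only [dif_pos hex, hch]
    rw [← hg2, hg1]
    rw [Pi.single_apply]
    by_cases hcc : c = c'
    · subst hcc; simp
    · rw [if_neg (fun h => hcc h.symm), if_neg (fun h => hcc (ha h))]
  · push Not at hc
    have hmem : ∀ i, ∃ c : κ' → ZMod 3, Bm i = ∑ t, c t • Bm (a t) := by
      intro i
      have h1 : Bm i ∈ Submodule.span (ZMod 3) (Set.range (Bm ∘ a)) := by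
        rw [hsp]; exact Submodule.subset_span ⟨i, rfl⟩
      obtain ⟨c, hc⟩ := (Submodule.mem_span_range_iff_exists_fun (ZMod 3)).mp h1
      exact ⟨c, hc.symm⟩
    choose c hc' using hmem
    have hR : Fintype.card κ' ≤ R := hc.le
    obtain ⟨emb⟩ : Nonempty (κ' ↪ Fin R) :=
      Function.Embedding.nonempty_of_card_le (by rw [Fintype.card_fin]; exact hR)
    refine ⟨fun i t => if h : ∃ u, emb u = t then c i h.choose else 0,
      fun t j => if h : ∃ u, emb u = t then Bm (a h.choose) j else 0, ?_⟩
    funext i j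
    rw [congrFun (hc' i) j, Finset.sum_apply]
    symm
    rw [← Finset.sum_subset (Finset.subset_univ (Finset.univ.map emb))]
    · rw [Finset.sum_map]
      apply Finset.sum_congr rfl
      intro u _
      have hex : ∃ v, emb v = emb u := ⟨u, rfl⟩
      have hch : hex.choose = u := emb.injective hex.choose_spec
      simp only [dif_pos hex, hch]
      rfl
    · intro t _ ht
      have hne : ¬ ∃ u, emb u = t := by
        rintro ⟨u, rfl⟩
        exact ht (by simp)
      simp only [dif_neg hne, zero_mul]

open Classical in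
/-- number of characters whose matrix part is not rich -/
lemma card_not_rich (R : ℕ) :
    #{χ : Idx κ → ZMod 3 | ¬ Rich (qpart χ) R} ≤
      3 ^ (1 + Fintype.card κ + 2 * R * Fintype.card κ) := by
  let S := (ZMod 3 × (κ → ZMod 3)) × ((κ → Fin R → ZMod 3) × (Fin R → κ → ZMod 3))
  let F : S → (Idx κ → ZMod 3) := fun s i => match i with
    | Sum.inl _ => s.1.1
    | Sum.inr (Sum.inl j) => s.1.2 j
    | Sum.inr (Sum.inr (i, j)) => ∑ t, s.2.1 i t * s.2.2 t j
  have hsub : (Finset.univ.filter fun χ : Idx κ → ZMod 3 => ¬ Rich (qpart χ) R) ⊆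
      Finset.univ.image F := by
    intro χ hχ
    rw [Finset.mem_filter] at hχ
    obtain ⟨P, Q, hPQ⟩ := factor_of_not_rich _ _ hχ.2
    rw [Finset.mem_image]
    refine ⟨((χ iOne, fun j => χ (iLin j)), (P, Q)), Finset.mem_univ _, ?_⟩
    funext i
    rcases i with ⟨⟩ | j | ⟨i, j⟩
    · rfl
    · rfl
    · exact (congrFun (congrFun hPQ i) j).symm
  refine (Finset.card_le_card hsub).trans (Finset.card_image_le.trans (le_of_eq ?_))
  rw [Finset.card_univ, Fintype.card_prod, Fintype.card_prod, Fintype.card_prod, ZMod.card,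
    Fintype.card_fun, Fintype.card_fun, Fintype.card_fun, Fintype.card_fun, Fintype.card_fun,
    ZMod.card, Fintype.card_fin]
  rw [← pow_mul, ← pow_mul, pow_add, pow_add, pow_one]
  rw [show 2 * R * Fintype.card κ = R * Fintype.card κ + Fintype.card κ * R by ring, pow_add]

lemma card_chi : Fintype.card (Idx κ → ZMod 3) =
    3 ^ (1 + Fintype.card κ + Fintype.card κ * Fintype.card κ) := by
  classical
  rw [Fintype.card_fun, ZMod.card, Fintype.card_sum, Fintype.card_sum, Fintype.card_prod,
    Fintype.card_unit, add_assoc]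

/-- vectors with small support -/
lemma card_supc_le (s : ℕ) :
    #{y : κ → ZMod 3 | supc y ≤ s} ≤ (2 * Fintype.card κ + 1) ^ s := by
  induction s with
  | zero =>
    rw [pow_zero, Finset.card_le_one]
    have : ∀ y ∈ ({y : κ → ZMod 3 | supc y ≤ 0} : Finset _), y = 0 := by
      intro y hy
      rw [Finset.mem_filter] at hy
      by_contra h
      have := supc_pos h
      omega
    intro a ha b hb
    rw [this a ha, this b hb]
  | succ s ih =>
    let F : (κ → ZMod 3) × Option (κ × Bool) → (κ → ZMod 3) := fun p => match p with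
      | (z, none) => z
      | (z, some ℓ) => z + Pi.single ℓ.1 (sg ℓ.2)
    have hsub : ({y : κ → ZMod 3 | supc y ≤ s + 1} : Finset _) ⊆
        (({y : κ → ZMod 3 | supc y ≤ s} : Finset _) ×ˢ (Finset.univ : Finset (Option (κ × Bool)))).image
          F := by
      intro y hy
      rw [Finset.mem_filter] at hy
      rw [Finset.mem_image]
      by_cases h : supc y ≤ s
      · exact ⟨(y, none), by simp [h], rfl⟩
      · have hy0 : y ≠ 0 := by
          rintro rfl
          apply h
          simp [supc]
        obtain ⟨j, hj⟩ := Function.ne_iff.mp hy0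
        rw [Pi.zero_apply] at hj
        have hsg : ∀ c : ZMod 3, c ≠ 0 → ∃ b : Bool, sg b = c := by decide
        obtain ⟨b, hb⟩ := hsg (y j) hj
        refine ⟨(Function.update y j 0, some (j, b)), ?_, ?_⟩
        · rw [Finset.mem_product]
          refine ⟨?_, Finset.mem_univ _⟩
          rw [Finset.mem_filter]
          refine ⟨Finset.mem_univ _, ?_⟩
          have : ({i | Function.update y j 0 i ≠ 0} : Finset κ) =
              ({i | y i ≠ 0} : Finset κ).erase j := by
            ext i
            rw [Finset.mem_filter, Finset.mem_erase, Finset.mem_filter]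
            by_cases hij : i = j
            · subst hij; simp
            · rw [Function.update_of_ne hij]; simp [hij]
          unfold supc
          rw [this, Finset.card_erase_of_mem (by simp [hj])]
          have h2 := hy.2
          unfold supc at h2
          omega
        · funext i
          simp only [F, Pi.add_apply]
          by_cases hij : i = j
          · subst hij; simp [hb]
          · rw [Function.update_of_ne hij, Pi.single_eq_of_ne hij, add_zero]
    refine (Finset.card_le_card hsub).trans (Finset.card_image_le.trans ?_)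
    rw [Finset.card_product, Finset.card_univ, Fintype.card_option, Fintype.card_prod,
      Fintype.card_bool, pow_succ, mul_comm (Fintype.card κ) 2]
    exact Nat.mul_le_mul_right _ ih

/-- small-ball estimate -/
lemma small_ball [Nonempty κ] (C : κ → κ → ZMod 3) (r₀ : ℕ) (hr₀ : r₀ ≤ Fintype.card κ) (N : ℕ) :
    ∀ (A : Finset κ) (_ : ∀ i ∈ A, ∀ a ∈ A, C i a = if i = a then 1 else 0) (_ : r₀ ≤ A.card)
      (y : κ → ZMod 3),
      wav N (fun l : List (κ × Bool) => if ∀ a ∈ A, ∑ i, xx l i * C i a = y a then (1 : ℝ) else 0) ≤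
        (1 - (r₀ : ℝ) / (2 * Fintype.card κ)) ^ N + (1 / 2 : ℝ) ^ (A.card - r₀) := by
  have hm : (0 : ℝ) < Fintype.card κ := by exact_mod_cast Fintype.card_pos
  set m : ℝ := (Fintype.card κ : ℝ) with hmdef
  have hq0 : 0 ≤ 1 - (r₀ : ℝ) / (2 * m) := by
    rw [sub_nonneg, div_le_one (by positivity)]
    have : (r₀ : ℝ) ≤ m := by rw [hmdef]; exact_mod_cast hr₀
    linarith
  set q : ℝ := 1 - (r₀ : ℝ) / (2 * m) with hq
  induction N with
  | zero =>
    intro A _ _ y
    rw [wav_zero, pow_zero]
    have : (0 : ℝ) ≤ (1 / 2) ^ (A.card - r₀) := by positivity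
    split_ifs <;> linarith
  | succ N ih =>
    intro A hA hr y
    by_cases heq : A.card = r₀
    · rw [heq, Nat.sub_self, pow_zero]
      have h1 : wav (N + 1) (fun l : List (κ × Bool) =>
          if ∀ a ∈ A, ∑ i, xx l i * C i a = y a then (1 : ℝ) else 0) ≤ 1 :=
        wav_le fun l _ => by split_ifs <;> norm_num
      have : 0 ≤ q ^ (N + 1) := by positivity
      linarith
    · have hlt : r₀ < A.card := lt_of_le_of_ne hr (Ne.symm heq)
      set t : ℝ := (1 / 2 : ℝ) ^ (A.card - r₀) with ht
      have hsum : ∀ (ℓ : κ × Bool) (l : List (κ × Bool)) (a : κ),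
          ∑ i, xx (ℓ :: l) i * C i a = ∑ i, xx l i * C i a + sg ℓ.2 * C ℓ.1 a := by
        intro ℓ l a
        simp only [xx_cons, add_mul, Finset.sum_add_distrib]
        congr 1
        simp
      have hshift : ∀ (ℓ : κ × Bool), wav N (fun l : List (κ × Bool) =>
          if ∀ a ∈ A, ∑ i, xx (ℓ :: l) i * C i a = y a then (1 : ℝ) else 0) =
          wav N (fun l : List (κ × Bool) =>
          if ∀ a ∈ A, ∑ i, xx l i * C i a = y a - sg ℓ.2 * C ℓ.1 a then (1 : ℝ) else 0) := by
        intro ℓ
        congr 1
        funext l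
        simp only [hsum, ← eq_sub_iff_add_eq]
      have hS : ∀ j : κ, ∑ b : Bool, wav N (fun l : List (κ × Bool) =>
          if ∀ a ∈ A, ∑ i, xx ((j, b) :: l) i * C i a = y a then (1 : ℝ) else 0) ≤
          2 * (q ^ N + t) - (if j ∈ A then q ^ N else 0) := by
        intro j
        by_cases hj : j ∈ A
        · rw [if_pos hj, Fintype.sum_bool, hshift, hshift, ← wav_add]
          have hle : wav N (fun l : List (κ × Bool) =>
              (if ∀ a ∈ A, ∑ i, xx l i * C i a = y a - sg true * C j a then (1 : ℝ) else 0) +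
              (if ∀ a ∈ A, ∑ i, xx l i * C i a = y a - sg false * C j a then (1 : ℝ) else 0)) ≤
              wav N (fun l : List (κ × Bool) =>
                if ∀ a ∈ A.erase j, ∑ i, xx l i * C i a = y a then (1 : ℝ) else 0) := by
            apply wav_mono
            intro l _
            have hdisj : ¬ ((∀ a ∈ A, ∑ i, xx l i * C i a = y a - sg true * C j a) ∧
                (∀ a ∈ A, ∑ i, xx l i * C i a = y a - sg false * C j a)) := by
              rintro ⟨h1, h2⟩
              have h3 := (h1 j hj).symm.trans (h2 j hj)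
              rw [hA j hj j hj, if_pos rfl, mul_one, mul_one] at h3
              have h4 : sg true = sg false := by
                linear_combination -h3
              exact absurd h4 (by decide)
            have himp : ∀ b : Bool, (∀ a ∈ A, ∑ i, xx l i * C i a = y a - sg b * C j a) →
                (∀ a ∈ A.erase j, ∑ i, xx l i * C i a = y a) := by
              intro b h a ha
              rw [Finset.mem_erase] at ha
              rw [h a ha.2, hA j hj a ha.2, if_neg (Ne.symm ha.1)]
              ring
            by_cases h1 : ∀ a ∈ A, ∑ i, xx l i * C i a = y a - sg true * C j a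
            · have h2 : ¬ (∀ a ∈ A, ∑ i, xx l i * C i a = y a - sg false * C j a) :=
                fun h2 => hdisj ⟨h1, h2⟩
              rw [if_pos h1, if_neg h2, if_pos (himp true h1)]
              norm_num
            · rw [if_neg h1]
              by_cases h2 : ∀ a ∈ A, ∑ i, xx l i * C i a = y a - sg false * C j a
              · rw [if_pos h2, if_pos (himp false h2)]
                norm_num
              · rw [if_neg h2]
                split_ifs <;> norm_num
          refine hle.trans ?_
          have hcard : (A.erase j).card = A.card - 1 := Finset.card_erase_of_mem hj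
          refine (ih (A.erase j) (fun i hi a ha => hA i (Finset.mem_of_mem_erase hi) a
            (Finset.mem_of_mem_erase ha)) (by rw [hcard]; omega) y).trans ?_
          rw [hcard]
          have : (1 / 2 : ℝ) ^ (A.card - 1 - r₀) = 2 * t := by
            rw [ht, show A.card - r₀ = (A.card - 1 - r₀) + 1 by omega, pow_succ]
            ring
          rw [this]
          linarith
        · rw [if_neg hj, Fintype.sum_bool, hshift, hshift]
          have h1 := ih A hA hr (fun a => y a - sg true * C j a)
          have h2 := ih A hA hr (fun a => y a - sg false * C j a)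
          linarith
      rw [wav_succ, av, smul_eq_mul, Fintype.sum_prod_type, Fintype.card_prod, Fintype.card_bool]
      push_cast
      rw [← hmdef, inv_mul_le_iff₀ (by positivity)]
      refine (Finset.sum_le_sum fun j _ => hS j).trans ?_
      rw [Finset.sum_sub_distrib, Finset.sum_const, Finset.card_univ, Finset.sum_ite_mem,
        Finset.univ_inter, Finset.sum_const, nsmul_eq_mul, nsmul_eq_mul, ← hmdef, pow_succ]
      have h5 : (r₀ : ℝ) ≤ A.card := by exact_mod_cast hr
      have h6 : 0 ≤ q ^ N := by positivity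
      have h7 : m * 2 * (q ^ N * q + t) = 2 * m * (q ^ N + t) - r₀ * q ^ N := by
        rw [hq]; field_simp; ring
      rw [h7]
      nlinarith

/-- small-ball estimate for a rich matrix -/
lemma small_ball_rich [Nonempty κ] (Bm : κ → κ → ZMod 3) (R r₀ : ℕ) (hB : Rich Bm R)
    (hr : r₀ ≤ R) (N : ℕ) (y : κ → ZMod 3) :
    wav N (fun l : List (κ × Bool) => if yB Bm l = y then (1 : ℝ) else 0) ≤
        (1 - (r₀ : ℝ) / (2 * Fintype.card κ)) ^ N + (1 / 2 : ℝ) ^ (R - r₀) := by
  obtain ⟨J, hJ, z, hz⟩ := hB
  have h1 := small_ball (fun i a => ∑ j, Bm i j * z a j) r₀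
    (hr.trans (hJ ▸ Finset.card_le_univ J)) N J hz (by rw [hJ]; exact hr)
    (fun a => ∑ j, y j * z a j)
  rw [hJ] at h1
  refine le_trans (wav_mono fun l _ => ?_) h1
  by_cases h : yB Bm l = y
  · rw [if_pos h, if_pos]
    intro a _
    rw [← h]
    simp only [yB, Finset.sum_mul, Finset.mul_sum]
    rw [Finset.sum_comm]
    apply Finset.sum_congr rfl
    intro j _
    apply Finset.sum_congr rfl
    intro i _
    ring
  · rw [if_neg h]; split_ifs <;> norm_num

/-- the multiplier bound for a rich matrix -/
lemma rich_mult [Nonempty κ] (Bm : κ → κ → ZMod 3) (R r₀ : ℕ) (hB : Rich Bm R)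
    (hr : r₀ ≤ R) (n₁ n₂ s : ℕ) (hs : s ≤ Fintype.card κ) (y₀ : κ → ZMod 3) :
    wav n₁ (fun l : List (κ × Bool) => ‖mm (yB Bm l - y₀)‖ ^ n₂) ≤
      (1 - s / (2 * Fintype.card κ)) ^ n₂ + (2 * Fintype.card κ + 1) ^ s *
        ((1 - (r₀ : ℝ) / (2 * Fintype.card κ)) ^ n₁ + (1 / 2 : ℝ) ^ (R - r₀)) := by
  classical
  have hm : (0 : ℝ) < Fintype.card κ := by exact_mod_cast Fintype.card_pos
  have hx0 : (0 : ℝ) ≤ (1 - s / (2 * Fintype.card κ)) ^ n₂ := by
    apply pow_nonneg
    rw [sub_nonneg, div_le_one (by positivity)]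
    have : (s : ℝ) ≤ Fintype.card κ := by exact_mod_cast hs
    linarith
  have hpt : ∀ y : κ → ZMod 3, ‖mm y‖ ^ n₂ ≤ (1 - s / (2 * Fintype.card κ)) ^ n₂ +
      ∑ w ∈ ({y : κ → ZMod 3 | supc y ≤ s} : Finset _), (if y = w then (1 : ℝ) else 0) := by
    intro y
    by_cases hy : supc y ≤ s
    · rw [Finset.sum_ite_eq, if_pos (by simp [hy])]
      have : ‖mm y‖ ^ n₂ ≤ 1 := pow_le_one₀ (norm_nonneg _) (norm_mm_le_one _)
      linarith
    · have h1 : 0 ≤ ∑ w ∈ ({y : κ → ZMod 3 | supc y ≤ s} : Finset _),
          (if y = w then (1 : ℝ) else 0) := Finset.sum_nonneg fun w _ => by split_ifs <;> norm_num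
      push Not at hy
      have h2 := norm_mm_pow_le hy.le n₂
      linarith
  calc wav n₁ (fun l : List (κ × Bool) => ‖mm (yB Bm l - y₀)‖ ^ n₂)
      ≤ wav n₁ (fun l : List (κ × Bool) => (1 - s / (2 * Fintype.card κ) : ℝ) ^ n₂ +
        ∑ w ∈ ({y : κ → ZMod 3 | supc y ≤ s} : Finset _),
          (if yB Bm l - y₀ = w then (1 : ℝ) else 0)) := wav_mono fun l _ => hpt _
    _ = (1 - s / (2 * Fintype.card κ)) ^ n₂ +
        ∑ w ∈ ({y : κ → ZMod 3 | supc y ≤ s} : Finset _),
          wav n₁ (fun l : List (κ × Bool) => if yB Bm l - y₀ = w then (1 : ℝ) else 0) := by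
        rw [wav_add, wav_const, wav_sum]
    _ ≤ (1 - s / (2 * Fintype.card κ)) ^ n₂ +
        ∑ w ∈ ({y : κ → ZMod 3 | supc y ≤ s} : Finset _),
          ((1 - (r₀ : ℝ) / (2 * Fintype.card κ)) ^ n₁ + (1 / 2 : ℝ) ^ (R - r₀)) := by
        gcongr with w _
        simp only [sub_eq_iff_eq_add]
        exact small_ball_rich Bm R r₀ hB hr n₁ _
    _ ≤ _ := by
        rw [Finset.sum_const, nsmul_eq_mul]
        have hc : ((#{y : κ → ZMod 3 | supc y ≤ s} : ℕ) : ℝ) ≤ (2 * Fintype.card κ + 1) ^ s := by
          exact_mod_cast card_supc_le s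
        have h0 : 0 ≤ (1 - (r₀ : ℝ) / (2 * Fintype.card κ)) ^ n₁ + (1 / 2 : ℝ) ^ (R - r₀) := by
          have : 0 ≤ 1 - (r₀ : ℝ) / (2 * Fintype.card κ) := by
            rw [sub_nonneg, div_le_one (by positivity)]
            obtain ⟨J, hJ, -⟩ := hB
            have h1 : r₀ ≤ Fintype.card κ := hr.trans (hJ ▸ Finset.card_le_univ J)
            have : (r₀ : ℝ) ≤ Fintype.card κ := by exact_mod_cast h1
            linarith
          positivity
        gcongr

end MixBurnside
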