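import Pool.Agent.MP_3225a3_pr.Asymp

/-! # The free Burnside group of exponent 3 and its random walk: definitions (MP_3225a3_pr) -/

namespace MixBurnside

open Finset

/-- the set of all cubes in the free group of rank `d` -/
def cubes (d : ℕ) : Set (FreeGroup (Fin d)) := {x | ∃ w, x = w ^ 3}

/-- the free Burnside group `B(3,d)`: the quotient of the free group of rank `d` by the normal
subgroup generated by all cubes -/
abbrev B3 (d : ℕ) : Type := FreeGroup (Fin d) ⧸ Subgroup.normalClosure (cubes d)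

/-- the image `s_i` of the `i`-th free generator -/
def gen (d : ℕ) (i : Fin d) : B3 d := QuotientGroup.mk (FreeGroup.of i)

lemma B3_cube {d : ℕ} (g : B3 d) : g ^ 3 = 1 := by
  obtain ⟨w, rfl⟩ := QuotientGroup.mk_surjective g
  rw [← QuotientGroup.mk_pow, QuotientGroup.eq_one_iff]
  exact Subgroup.subset_normalClosure ⟨w, rfl⟩

lemma closure_gen (d : ℕ) : Subgroup.closure (Set.range (gen d)) = ⊤ := by
  have h := FreeGroup.closure_range_of (Fin d)
  have h2 := congrArg (Subgroup.map (QuotientGroup.mk' (Subgroup.normalClosure (cubes d)))) h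
  rw [MonoidHom.map_closure, ← Set.range_comp] at h2
  rw [show Set.range (gen d) =
    Set.range ((QuotientGroup.mk' (Subgroup.normalClosure (cubes d))) ∘ FreeGroup.of) from rfl, h2]
  exact Subgroup.map_top_of_surjective _ (QuotientGroup.mk'_surjective _)

/-- universal property -/
lemma exists_hom {d : ℕ} {G : Type*} [Group G] (h3 : ∀ g : G, g ^ 3 = 1) (s : Fin d → G) :
    ∃ φ : B3 d →* G, ∀ i, φ (gen d i) = s i := by
  have hker : Subgroup.normalClosure (cubes d) ≤ (FreeGroup.lift s).ker := by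
    apply Subgroup.normalClosure_le_normal
    rintro _ ⟨w, rfl⟩
    rw [SetLike.mem_coe, MonoidHom.mem_ker, map_pow, h3]
  refine ⟨QuotientGroup.lift _ (FreeGroup.lift s) hker, fun i => ?_⟩
  change FreeGroup.lift s (FreeGroup.of i) = s i
  exact FreeGroup.lift_apply_of

instance instFiniteB3 (d : ℕ) : Finite (B3 d) := by
  let s : Fin (d + 1 + 1) → B3 d := fun i => if h : (i : ℕ) < d then gen d ⟨i, h⟩ else 1
  apply finite_of_exp3 (m := d + 1) (Nat.succ_pos d) B3_cube s
  rw [eq_top_iff, ← closure_gen d]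
  apply Subgroup.closure_mono
  rintro _ ⟨i, rfl⟩
  refine ⟨⟨i, by omega⟩, ?_⟩
  simp [s]

noncomputable instance instFintypeB3 (d : ℕ) : Fintype (B3 d) := Fintype.ofFinite _

/-- the set `S_d = {s_1, s_1⁻¹, ..., s_d, s_d⁻¹}` -/
def genSet (d : ℕ) : Set (B3 d) := {x | ∃ i, x = gen d i ∨ x = (gen d i)⁻¹}

open Classical in
/-- the uniform probability measure on `S_d` -/
noncomputable def mu (d : ℕ) (g : B3 d) : ℝ := if g ∈ genSet d then 1 / (genSet d).ncard else 0

/-- convolution of two functions on `B(3,d)` -/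
noncomputable def conv {d : ℕ} (P Q : B3 d → ℝ) (g : B3 d) : ℝ := ∑ h, P h * Q (h⁻¹ * g)

open Classical in
/-- the law of `X_t`: the `t`-fold convolution power of `mu d` -/
noncomputable def law (d : ℕ) : ℕ → B3 d → ℝ
  | 0 => fun g => if g = 1 then 1 else 0
  | (t + 1) => conv (law d t) (mu d)

/-- the uniform distribution on `B(3,d)` -/
noncomputable def unif (d : ℕ) (_ : B3 d) : ℝ := 1 / Nat.card (B3 d)

/-- total variation distance -/
noncomputable def tv {d : ℕ} (P Q : B3 d → ℝ) : ℝ := (1 / 2) * ∑ g, |P g - Q g|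

/-- the `ε`-mixing time -/
noncomputable def tmix (d : ℕ) (ε : ℝ) : ℕ := sInf {t : ℕ | tv (law d t) (unif d) ≤ ε}

end MixBurnside
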