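import Mathlib

/-! # Averages over words of a given length (MP_3225a3_pr) -/

namespace MixBurnside

open Finset

section Defs

variable {α : Type*} [Fintype α]
variable {E : Type*} [AddCommGroup E] [Module ℝ E]

/-- average of a function over a finite type -/
noncomputable def av (f : α → E) : E := (Fintype.card α : ℝ)⁻¹ • ∑ a, f a

/-- average of a function over all words of length `N` -/
noncomputable def wav : ℕ → (List α → E) → E
  | 0, F => F []
  | (N + 1), F => av fun a => wav N fun l => F (a :: l)

/-- sum of a function over all words of length `N` -/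
def wsum : ℕ → (List α → E) → E
  | 0, F => F []
  | (N + 1), F => ∑ a, wsum N fun l => F (a :: l)

end Defs

section AvLin

variable {α β : Type*} [Fintype α] [Fintype β]
variable {E : Type*} [AddCommGroup E] [Module ℝ E]

lemma av_const [Nonempty α] (c : E) : av (fun _ : α => c) = c := by
  unfold av
  rw [Finset.sum_const, Finset.card_univ, ← Nat.cast_smul_eq_nsmul ℝ, smul_smul, inv_mul_cancel₀,
    one_smul]
  exact_mod_cast Fintype.card_ne_zero

lemma av_add (f g : α → E) : av (fun a => f a + g a) = av f + av g := by
  unfold av; rw [Finset.sum_add_distrib, smul_add]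

lemma av_sub (f g : α → E) : av (fun a => f a - g a) = av f - av g := by
  unfold av; rw [Finset.sum_sub_distrib, smul_sub]

lemma av_smul (c : ℝ) (f : α → E) : av (fun a => c • f a) = c • av f := by
  unfold av; rw [← Finset.smul_sum, smul_comm]

lemma av_sum {ι : Type*} (s : Finset ι) (f : ι → α → E) :
    av (fun a => ∑ i ∈ s, f i a) = ∑ i ∈ s, av (f i) := by
  unfold av; rw [Finset.sum_comm, Finset.smul_sum]

lemma av_map {E' : Type*} [AddCommGroup E'] [Module ℝ E'] (φ : E →ₗ[ℝ] E') (f : α → E) :
    φ (av f) = av (fun a => φ (f a)) := by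
  unfold av; rw [map_smul, map_sum]

lemma av_comm (f : α → β → E) :
    av (fun a => av (fun b => f a b)) = av (fun b => av (fun a => f a b)) := by
  unfold av
  simp only [← Finset.smul_sum]
  rw [Finset.sum_comm, smul_comm]

lemma av_equiv (e : α ≃ β) (f : β → E) : av (fun a => f (e a)) = av f := by
  unfold av
  rw [Fintype.card_congr e, Equiv.sum_comp e f]

end AvLin

section WavLin

variable {α β : Type*} [Fintype α] [Fintype β]
variable {E : Type*} [AddCommGroup E] [Module ℝ E]

@[simp] lemma wav_zero (F : List α → E) : wav 0 F = F [] := rfl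

lemma wav_succ (N : ℕ) (F : List α → E) :
    wav (N + 1) F = av fun a => wav N fun l => F (a :: l) := rfl

lemma wav_congr {N : ℕ} {F G : List α → E} (h : ∀ l, l.length = N → F l = G l) :
    wav N F = wav N G := by
  induction N generalizing F G with
  | zero => exact h [] rfl
  | succ N ih =>
    rw [wav_succ, wav_succ]
    congr 1
    funext a
    exact ih fun l hl => h (a :: l) (by simp [hl])

lemma wav_const [Nonempty α] (N : ℕ) (c : E) : wav N (fun _ : List α => c) = c := by
  induction N with
  | zero => rfl
  | succ N ih => rw [wav_succ]; simp only [ih, av_const]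

lemma wav_add (N : ℕ) (F G : List α → E) : wav N (fun l => F l + G l) = wav N F + wav N G := by
  induction N generalizing F G with
  | zero => rfl
  | succ N ih => simp only [wav_succ, ih, av_add]

lemma wav_sub (N : ℕ) (F G : List α → E) : wav N (fun l => F l - G l) = wav N F - wav N G := by
  induction N generalizing F G with
  | zero => rfl
  | succ N ih => simp only [wav_succ, ih, av_sub]

lemma wav_smul (N : ℕ) (c : ℝ) (F : List α → E) : wav N (fun l => c • F l) = c • wav N F := by
  induction N generalizing F with
  | zero => rfl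
  | succ N ih => simp only [wav_succ, ih, av_smul]

lemma wav_sum {ι : Type*} (s : Finset ι) (N : ℕ) (F : ι → List α → E) :
    wav N (fun l => ∑ i ∈ s, F i l) = ∑ i ∈ s, wav N (F i) := by
  induction N generalizing F with
  | zero => rfl
  | succ N ih => simp only [wav_succ, ih, av_sum]

lemma wav_map {E' : Type*} [AddCommGroup E'] [Module ℝ E'] (φ : E →ₗ[ℝ] E') (N : ℕ)
    (F : List α → E) : φ (wav N F) = wav N (fun l => φ (F l)) := by
  induction N generalizing F with
  | zero => rfl
  | succ N ih => simp only [wav_succ, av_map, ih]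

lemma wav_av_comm (N : ℕ) (F : List α → β → E) :
    wav N (fun l => av (fun b => F l b)) = av (fun b => wav N (fun l => F l b)) := by
  induction N generalizing F with
  | zero => rfl
  | succ N ih =>
    simp only [wav_succ, ih]
    rw [av_comm]

lemma wav_comm (M N : ℕ) (F : List α → List β → E) :
    wav M (fun l => wav N (fun l' => F l l')) = wav N (fun l' => wav M (fun l => F l l')) := by
  induction N generalizing F with
  | zero => rfl
  | succ N ih =>
    simp only [wav_succ]
    rw [wav_av_comm]
    congr 1
    funext a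
    exact ih _

lemma wav_append (M N : ℕ) (F : List α → E) :
    wav (M + N) F = wav M fun l => wav N fun l' => F (l ++ l') := by
  induction M generalizing F with
  | zero => simp
  | succ M ih =>
    rw [show M + 1 + N = (M + N) + 1 by ring, wav_succ, wav_succ]
    simp only [ih, List.cons_append]

lemma wav_take [Nonempty α] {T N : ℕ} (h : T ≤ N) (F : List α → E) :
    wav N (fun l => F (l.take T)) = wav T F := by
  obtain ⟨k, rfl⟩ := Nat.exists_eq_add_of_le h
  rw [wav_append]
  apply wav_congr
  intro l hl
  rw [show (fun l' : List α => F ((l ++ l').take T)) = fun _ => F l by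
    funext l'; rw [← hl, List.take_left']; rfl]
  exact wav_const _ _

end WavLin

section Real

variable {α β : Type*} [Fintype α] [Fintype β]

lemma av_mono {f g : α → ℝ} (h : ∀ a, f a ≤ g a) : av f ≤ av g := by
  unfold av
  simp only [smul_eq_mul]
  exact mul_le_mul_of_nonneg_left (Finset.sum_le_sum fun a _ => h a) (by positivity)

lemma av_nonneg {f : α → ℝ} (h : ∀ a, 0 ≤ f a) : 0 ≤ av f := by
  unfold av
  simp only [smul_eq_mul]
  exact mul_nonneg (by positivity) (Finset.sum_nonneg fun a _ => h a)

lemma av_le [Nonempty α] {f : α → ℝ} {c : ℝ} (h : ∀ a, f a ≤ c) : av f ≤ c :=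
  (av_mono h).trans (av_const c).le

lemma wav_mono {N : ℕ} {F G : List α → ℝ} (h : ∀ l, l.length = N → F l ≤ G l) :
    wav N F ≤ wav N G := by
  induction N generalizing F G with
  | zero => exact h [] rfl
  | succ N ih =>
    rw [wav_succ, wav_succ]
    exact av_mono fun a => ih fun l hl => h (a :: l) (by simp [hl])

lemma wav_nonneg {N : ℕ} {F : List α → ℝ} (h : ∀ l, l.length = N → 0 ≤ F l) :
    0 ≤ wav N F := by
  induction N generalizing F with
  | zero => exact h [] rfl
  | succ N ih =>
    rw [wav_succ]
    exact av_nonneg fun a => ih fun l hl => h (a :: l) (by simp [hl])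

lemma wav_le [Nonempty α] {N : ℕ} {F : List α → ℝ} {c : ℝ} (h : ∀ l, l.length = N → F l ≤ c) :
    wav N F ≤ c :=
  (wav_mono h).trans (wav_const N c).le

lemma norm_av_le {E : Type*} [NormedAddCommGroup E] [NormedSpace ℝ E] (f : α → E) :
    ‖av f‖ ≤ av fun a => ‖f a‖ := by
  unfold av
  rw [norm_smul, smul_eq_mul, norm_inv, Real.norm_natCast]
  exact mul_le_mul_of_nonneg_left (norm_sum_le _ _) (by positivity)

lemma norm_wav_le {E : Type*} [NormedAddCommGroup E] [NormedSpace ℝ E] (N : ℕ) (F : List α → E) :
    ‖wav N F‖ ≤ wav N fun l => ‖F l‖ := by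
  induction N generalizing F with
  | zero => exact le_rfl
  | succ N ih =>
    rw [wav_succ, wav_succ]
    exact (norm_av_le _).trans (av_mono fun a => ih _)

lemma av_sq_le [Nonempty α] (f : α → ℝ) : (av f) ^ 2 ≤ av fun a => (f a) ^ 2 := by
  have h : 0 ≤ av fun a => (f a - av f) ^ 2 := av_nonneg fun a => sq_nonneg _
  have h2 : (av fun a => (f a - av f) ^ 2) = (av fun a => (f a) ^ 2) - (av f) ^ 2 := by
    have : (fun a => (f a - av f) ^ 2) =
        fun a => ((f a) ^ 2 - (2 * av f) • f a) + (av f) ^ 2 := by
      funext a; simp only [smul_eq_mul]; ring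
    rw [this, av_add, av_sub, av_smul, av_const]
    simp only [smul_eq_mul]; ring
  linarith

lemma wav_sq_le [Nonempty α] (N : ℕ) (F : List α → ℝ) :
    (wav N F) ^ 2 ≤ wav N fun l => (F l) ^ 2 := by
  have h : 0 ≤ wav N fun a => (F a - wav N F) ^ 2 := wav_nonneg fun a _ => sq_nonneg _
  have h2 : (wav N fun a => (F a - wav N F) ^ 2) = (wav N fun a => (F a) ^ 2) - (wav N F) ^ 2 := by
    have : (fun a => (F a - wav N F) ^ 2) =
        fun a => ((F a) ^ 2 - (2 * wav N F) • F a) + (wav N F) ^ 2 := by
      funext a; simp only [smul_eq_mul]; ring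
    rw [this, wav_add, wav_sub, wav_smul, wav_const]
    simp only [smul_eq_mul]; ring
  linarith

lemma wav_mul_left (N : ℕ) (c : ℝ) (F : List α → ℝ) :
    wav N (fun l => c * F l) = c * wav N F := wav_smul N c F

lemma wav_mul_right (N : ℕ) (c : ℝ) (F : List α → ℝ) :
    wav N (fun l => F l * c) = wav N F * c := by
  rw [mul_comm, ← wav_mul_left]; simp only [mul_comm]

/-- product formula -/
lemma wav_prod (N : ℕ) (g : α → ℂ) :
    wav N (fun l => (l.map g).prod) = (av g) ^ N := by
  induction N with
  | zero => simp
  | succ N ih =>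
    rw [wav_succ]
    have : (fun a => wav N fun l => ((a :: l).map g).prod) = fun a => (av g) ^ N * g a := by
      funext a
      simp only [List.map_cons, List.prod_cons]
      rw [← ih]
      have := wav_map (E := ℂ) (E' := ℂ)
        ((LinearMap.mulLeft ℂ (g a)).restrictScalars ℝ) N (fun l => (l.map g).prod)
      simp only [LinearMap.coe_restrictScalars, LinearMap.mulLeft_apply] at this
      rw [← this, mul_comm]
    rw [this]
    have := av_map (E := ℂ) (E' := ℂ)
        ((LinearMap.mulLeft ℂ ((av g) ^ N)).restrictScalars ℝ) g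
    simp only [LinearMap.coe_restrictScalars, LinearMap.mulLeft_apply] at this
    rw [← this, pow_succ]

lemma wav_mulC_left (N : ℕ) (c : ℂ) (F : List α → ℂ) :
    wav N (fun l => c * F l) = c * wav N F := by
  have := wav_map (E := ℂ) (E' := ℂ)
        ((LinearMap.mulLeft ℂ c).restrictScalars ℝ) N F
  simp only [LinearMap.coe_restrictScalars, LinearMap.mulLeft_apply] at this
  exact this.symm

end Real

section Sum

variable {α : Type*} [Fintype α]
variable {E : Type*} [AddCommGroup E] [Module ℝ E]

omit [Module ℝ E] in
@[simp] lemma wsum_zero (F : List α → E) : wsum 0 F = F [] := rfl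

omit [Module ℝ E] in
lemma wsum_succ (N : ℕ) (F : List α → E) :
    wsum (N + 1) F = ∑ a, wsum N fun l => F (a :: l) := rfl

lemma wav_eq_wsum (N : ℕ) (F : List α → E) :
    wav N F = ((Fintype.card α : ℝ) ^ N)⁻¹ • wsum N F := by
  induction N generalizing F with
  | zero => simp
  | succ N ih =>
    rw [wav_succ, wsum_succ]
    simp only [ih, av, ← Finset.smul_sum, smul_smul]
    congr 1
    rw [pow_succ, mul_inv, mul_comm]

omit [Module ℝ E] in
lemma wsum_congr {N : ℕ} {F G : List α → E} (h : ∀ l, l.length = N → F l = G l) :
    wsum N F = wsum N G := by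
  induction N generalizing F G with
  | zero => exact h [] rfl
  | succ N ih =>
    rw [wsum_succ, wsum_succ]
    congr 1
    funext a
    exact ih fun l hl => h (a :: l) (by simp [hl])

omit [Module ℝ E] in
lemma wsum_add (N : ℕ) (F G : List α → E) :
    wsum N (fun l => F l + G l) = wsum N F + wsum N G := by
  induction N generalizing F G with
  | zero => rfl
  | succ N ih => simp only [wsum_succ, ih, Finset.sum_add_distrib]

omit [Module ℝ E] in
lemma wsum_sum {ι : Type*} (s : Finset ι) (N : ℕ) (F : ι → List α → E) :
    wsum N (fun l => ∑ i ∈ s, F i l) = ∑ i ∈ s, wsum N (F i) := by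
  induction N generalizing F with
  | zero => rfl
  | succ N ih =>
    simp only [wsum_succ, ih]
    rw [Finset.sum_comm]

end Sum

end MixBurnside
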